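import Pool.Agent.Helper601.Mertens

/-! # The sum of the reciprocals of the primes between `N` and `N²` -/

set_option autoImplicit false

namespace Run7.h311.EX

/-- the primes between `N` and `N²` -/
def PN (N : ℕ) : Finset ℕ := (Finset.Ioc N (N ^ 2)).filter Nat.Prime

/-- the sum of their reciprocals -/
noncomputable def SN (N : ℕ) : ℝ := ∑ p ∈ PN N, 1 / (p : ℝ)

theorem mer : ∃ N0 : ℕ, 2 ≤ N0 ∧ ∀ N : ℕ, N0 ≤ N → 1 / 4 ≤ SN N ∧ SN N ≤ 2 := by
  obtain ⟨C, hC⟩ := Pool.Agent.Helper601.Mertens.mertens_log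
  refine ⟨max 2 ⌈Real.exp (8 * |C| + 8)⌉₊, le_max_left _ _, fun N hN => ?_⟩
  have hN2 : 2 ≤ N := (le_max_left _ _).trans hN
  have hN1 : 1 ≤ N := by omega
  have hN0 : (0 : ℝ) < N := by exact_mod_cast (by omega : 0 < N)
  have hNe : Real.exp (8 * |C| + 8) ≤ N :=
    (Nat.le_ceil _).trans (by exact_mod_cast (le_max_right _ _).trans hN)
  have hlog : 8 * |C| + 8 ≤ Real.log N := by
    rw [Real.le_log_iff_exp_le hN0]
    exact hNe
  have hC0 := abs_nonneg C
  have hCC := le_abs_self C
  have hlp : 0 < Real.log N := by linarith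
  have h1 := hC N hN1
  have h2 := hC (N ^ 2) (Nat.one_le_pow _ _ (by omega))
  have h3 : (Finset.Icc 1 (N ^ 2)).filter Nat.Prime =
      (Finset.Icc 1 N).filter Nat.Prime ∪ PN N := by
    unfold PN
    rw [← Finset.filter_union]
    congr 1
    ext n
    have : N ≤ N ^ 2 := Nat.le_self_pow (by norm_num) N
    simp only [Finset.mem_Icc, Finset.mem_union, Finset.mem_Ioc]
    omega
  have h4 : Disjoint ((Finset.Icc 1 N).filter Nat.Prime) (PN N) := by
    unfold PN
    apply Finset.disjoint_filter_filter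
    rw [Finset.disjoint_left]
    intro n hn hn'
    simp only [Finset.mem_Icc, Finset.mem_Ioc] at hn hn'
    omega
  rw [h3, Finset.sum_union h4] at h2
  have h5 : Real.log ((N ^ 2 : ℕ) : ℝ) = 2 * Real.log N := by
    push_cast
    rw [Real.log_pow]
    norm_num
  rw [h5] at h2
  rw [abs_le] at h1 h2
  have h6 : ∀ p ∈ PN N, Real.log N ≤ Real.log p ∧ Real.log p ≤ 2 * Real.log N ∧ (0 : ℝ) < p := by
    intro p hp
    unfold PN at hp
    rw [Finset.mem_filter, Finset.mem_Ioc] at hp
    have hp0 : (0 : ℝ) < p := by exact_mod_cast (by omega : 0 < p)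
    refine ⟨Real.log_le_log hN0 (by exact_mod_cast hp.1.1.le), ?_, hp0⟩
    rw [← h5]
    exact Real.log_le_log hp0 (by exact_mod_cast hp.1.2)
  have h7 : Real.log N * SN N ≤ ∑ p ∈ PN N, Real.log p / p := by
    unfold SN
    rw [Finset.mul_sum]
    refine Finset.sum_le_sum fun p hp => ?_
    obtain ⟨e1, e2, e3⟩ := h6 p hp
    rw [mul_one_div]
    gcongr
  have h8 : ∑ p ∈ PN N, Real.log p / p ≤ 2 * Real.log N * SN N := by
    unfold SN
    rw [Finset.mul_sum]
    refine Finset.sum_le_sum fun p hp => ?_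
    obtain ⟨e1, e2, e3⟩ := h6 p hp
    rw [mul_one_div]
    gcongr
  constructor
  · by_contra hc
    push Not at hc
    have h9 : 2 * Real.log N * SN N ≤ 2 * Real.log N * (1 / 4) := by gcongr
    nlinarith
  · by_contra hc
    push Not at hc
    have h9 : Real.log N * 2 ≤ Real.log N * SN N := by gcongr
    nlinarith

end Run7.h311.EX
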