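import Pool.Agent.Run7.h311.EX.Res
import Pool.Agent.Run7.h311.EX.Mer

/-! # The resonators for the partial sums of zeta and for the mollifiers -/

set_option autoImplicit false

open Filter Topology
open scoped BigOperators

namespace Run7.h311.EX

open Pool.Agent.N802 Pool.Agent.N802.U Pool.Agent.N802.WD Pool.Agent.N802.WD.Msd

lemma PN_prime {N : ℕ} : ∀ p ∈ PN N, p.Prime := fun _ hp => (Finset.mem_filter.1 hp).2

lemma PN_mem {N p : ℕ} (hp : p ∈ PN N) : N < p ∧ p ≤ N ^ 2 := by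
  unfold PN at hp
  rw [Finset.mem_filter, Finset.mem_Ioc] at hp
  exact hp.1

/-- the parameters of the resonator -/
theorem resset {δ : ℝ} (hδ : 0 < δ) (hδ1 : δ ≤ 1) : ∃ c T0 : ℝ, 0 < c ∧ 100 ≤ T0 ∧ ∀ T : ℝ,
    T0 ≤ T → ∃ N k : ℕ, 16 ≤ k ∧ k ≤ N ∧ 1 ≤ N ∧ 1 / 4 ≤ SN N ∧ SN N ≤ 2 ∧
    ((N : ℝ) ^ 2) ^ k ≤ T ^ δ ∧ c * (Real.log T / Real.log (Real.log T)) ≤ k := by
  obtain ⟨N0, hN0, hmer⟩ := mer
  have hev := Real.isLittleO_log_id_atTop.bound (show (0 : ℝ) < δ / 128 by positivity)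
  obtain ⟨L1, hL1⟩ := eventually_atTop.1 hev
  refine ⟨δ / 8, Real.exp (max (max L1 10) N0), by positivity, ?_, fun T hT => ?_⟩
  · have h1 : (10 : ℝ) ≤ max (max L1 10) N0 := (le_max_right _ _).trans (le_max_left _ _)
    have h2 := Real.exp_le_exp.2 h1
    have h3 : (100 : ℝ) ≤ Real.exp 10 := by
      have h4 : Real.exp 10 = Real.exp 1 ^ 10 := by
        rw [← Real.exp_nat_mul]
        norm_num
      rw [h4]
      have h5 : (2 : ℝ) ≤ Real.exp 1 := by linarith [Real.exp_one_gt_d9]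
      calc (100 : ℝ) ≤ 2 ^ 10 := by norm_num
        _ ≤ Real.exp 1 ^ 10 := by gcongr
    linarith
  have hTp : 0 < T := (Real.exp_pos _).trans_le hT
  obtain ⟨L, hL⟩ : ∃ L : ℝ, L = Real.log T := ⟨_, rfl⟩
  have hLb : max (max L1 10) N0 ≤ L := by
    rw [hL, Real.le_log_iff_exp_le hTp]
    exact hT
  have hLL1 : L1 ≤ L := ((le_max_left _ _).trans (le_max_left _ _)).trans hLb
  have hL10 : 10 ≤ L := ((le_max_right _ _).trans (le_max_left _ _)).trans hLb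
  have hLN : (N0 : ℝ) ≤ L := (le_max_right _ _).trans hLb
  rw [← hL]
  have hLp : 0 < L := by linarith
  have hll : 1 ≤ Real.log L := by
    rw [Real.le_log_iff_exp_le hLp]
    linarith [Real.exp_one_lt_d9]
  have hllp : 0 < Real.log L := by linarith
  have h1 := hL1 L hLL1
  simp only [id] at h1
  rw [Real.norm_of_nonneg hllp.le, Real.norm_of_nonneg hLp.le] at h1
  obtain ⟨N, hN⟩ : ∃ N : ℕ, N = ⌈L⌉₊ := ⟨_, rfl⟩
  have hN1 : L ≤ N := by rw [hN]; exact Nat.le_ceil L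
  have hN2 : (N : ℝ) ≤ L ^ 2 := by
    have h2 : (N : ℝ) < L + 1 := by rw [hN]; exact Nat.ceil_lt_add_one hLp.le
    nlinarith
  have hNp : (0 : ℝ) < N := by linarith
  have hN0N : N0 ≤ N := by
    have : (N0 : ℝ) ≤ N := hLN.trans hN1
    exact_mod_cast this
  obtain ⟨y, hy⟩ : ∃ y : ℝ, y = δ / 4 * (L / Real.log L) := ⟨_, rfl⟩
  have hy32 : 32 ≤ y := by
    rw [hy]
    have h2 : 128 / δ ≤ L / Real.log L := by
      rw [div_le_div_iff₀ hδ hllp]
      linarith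
    calc (32 : ℝ) = δ / 4 * (128 / δ) := by field_simp; norm_num
      _ ≤ _ := by gcongr
  obtain ⟨k, hk⟩ : ∃ k : ℕ, k = ⌊y⌋₊ := ⟨_, rfl⟩
  have hk1 : (k : ℝ) ≤ y := by rw [hk]; exact Nat.floor_le (by linarith)
  have hk2 : y < k + 1 := by rw [hk]; exact Nat.lt_floor_add_one y
  have hyL : y ≤ L := by
    rw [hy]
    have h2 : L / Real.log L ≤ L := div_le_self hLp.le hll
    calc δ / 4 * (L / Real.log L) ≤ 1 * L := by
          gcongr
          linarith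
      _ = L := one_mul L
  refine ⟨N, k, ?_, ?_, by exact_mod_cast (by linarith : (1 : ℝ) ≤ N), (hmer N hN0N).1,
    (hmer N hN0N).2, ?_, ?_⟩
  · have : (16 : ℝ) ≤ k := by linarith
    exact_mod_cast this
  · have : (k : ℝ) ≤ N := by linarith
    exact_mod_cast this
  · have h2 : ((N : ℝ) ^ 2) ^ k = Real.exp (2 * k * Real.log N) := by
      rw [← pow_mul, ← Real.exp_log (by positivity : 0 < (N : ℝ) ^ (2 * k)), Real.log_pow]
      congr 1
      push_cast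
      ring
    rw [h2, Real.rpow_def_of_pos hTp, ← hL]
    apply Real.exp_le_exp.2
    have h3 : Real.log N ≤ 2 * Real.log L := by
      have := Real.log_le_log hNp hN2
      rw [Real.log_pow] at this
      exact_mod_cast this
    calc 2 * k * Real.log N ≤ 2 * y * (2 * Real.log L) := by gcongr
      _ = L * δ := by
          rw [hy]
          field_simp
          ring
  · have h2 : δ / 8 * (L / Real.log L) = y / 2 := by rw [hy]; ring
    rw [h2]
    linarith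

lemma cexp_sqrt {n : ℕ} (hn : 0 < n) :
    Complex.exp (-(((1 / 2 : ℝ) : ℂ) * Real.log n) - Complex.I * (((0 : ℝ) : ℂ) * Real.log n)) =
      ((1 / Real.sqrt n : ℝ) : ℂ) := by
  have hn0 : (0 : ℝ) < n := by exact_mod_cast hn
  have h1 : (-(((1 / 2 : ℝ) : ℂ) * Real.log n) - Complex.I * (((0 : ℝ) : ℂ) * Real.log n)) =
      ((-(1 / 2 * Real.log n) : ℝ) : ℂ) := by
    push_cast
    ring
  have h2 : Real.exp (-(1 / 2 * Real.log n)) = 1 / Real.sqrt n := by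
    rw [Real.exp_neg, Real.sqrt_eq_rpow, Real.rpow_def_of_pos hn0, mul_comm (Real.log n),
      one_div (Real.exp _)]
  rw [h1, ← Complex.ofReal_exp, h2]

/-- the coefficients of a partial sum of zeta on the support -/
lemma hb_D {P : Finset ℕ} (hP : ∀ p ∈ P, p.Prime) {k : ℕ} {X y : ℝ} {M : ℕ} {V : ℝ → ℝ}
    (hX : ∀ B ∈ SK P k, ((∏ p ∈ B, p : ℕ) : ℝ) ≤ X) (hXM : X ≤ M) (hXy : Real.log X ≤ y)
    (hV : ∀ x, x ≤ y → V x = 1) :
    ∀ B ∈ SK P k, (∏ p ∈ B, p) ∈ Finset.Icc 1 M ∧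
      dn V (1 / 2) 0 (∏ p ∈ B, p) =
        (((1 : ℝ) ^ B.card / Real.sqrt ((∏ p ∈ B, p : ℕ) : ℝ) : ℝ) : ℂ) := by
  intro B hB
  have h1 := prod_pos hP (mem_SK.1 hB).1
  have h2 := hX B hB
  have h3 : (0 : ℝ) < ((∏ p ∈ B, p : ℕ) : ℝ) := by exact_mod_cast h1
  refine ⟨Finset.mem_Icc.2 ⟨h1, by exact_mod_cast h2.trans hXM⟩, ?_⟩
  unfold dn
  rw [hV _ ((Real.log_le_log h3 h2).trans hXy), cexp_sqrt h1, one_pow]
  simp

/-- the coefficients of a mollifier on the support -/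
lemma hb_M {P : Finset ℕ} (hP : ∀ p ∈ P, p.Prime) {k : ℕ} {X y : ℝ} {M : ℕ} {V : ℝ → ℝ}
    (hX : ∀ B ∈ SK P k, ((∏ p ∈ B, p : ℕ) : ℝ) ≤ X) (hXM : X ≤ M) (hXy : Real.log X ≤ y)
    (hV : ∀ x, x ≤ y → V x = 1) :
    ∀ B ∈ SK P k, (∏ p ∈ B, p) ∈ Finset.Icc 1 M ∧
      bn V (1 / 2) 0 (∏ p ∈ B, p) =
        (((-1 : ℝ) ^ B.card / Real.sqrt ((∏ p ∈ B, p : ℕ) : ℝ) : ℝ) : ℂ) := by
  intro B hB
  obtain ⟨h1, h2⟩ := hb_D hP hX hXM hXy hV B hB
  refine ⟨h1, ?_⟩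
  have hBP := (mem_SK.1 hB).1
  have h3 : ArithmeticFunction.moebius (∏ p ∈ B, p) = (-1) ^ B.card := by
    rw [ArithmeticFunction.isMultiplicative_moebius.map_prod_of_prime B
      (fun p hp => hP p (hBP hp)), ← Finset.prod_const]
    exact Finset.prod_congr rfl fun p hp => ArithmeticFunction.moebius_apply_prime (hP p (hBP hp))
  unfold bn
  rw [h2, h3]
  push_cast
  ring

end Run7.h311.EX
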