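import Pool.Agent.Run7.h311.EX.Frame
import Pool.Agent.Run7.h311.EX.Set1
import Pool.Agent.N802.WD.Fin

/-! # Extreme values of the derivative at isolated simple zeros -/

set_option autoImplicit false

open Complex Filter Topology Set MeasureTheory
open scoped BigOperators ComplexConjugate

namespace Run7.h311.EX

open Pool.Agent.N802 Pool.Agent.N802.U Pool.Agent.N802.WD Pool.Agent.N802.WD.Msd
open Pool.Agent.R399.TW (pt pt_re pt_im pt_cont)

/-! ### elementary facts -/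

lemma ev_quarter {δ : ℝ} (hδ : 0 < δ) : ∃ T0 : ℝ, ∀ T : ℝ, T0 ≤ T → T ^ (1 - δ) ≤ T / 4 := by
  obtain ⟨T1, hT1⟩ := eventually_atTop.1 ((tendsto_rpow_atTop hδ).eventually_ge_atTop 4)
  refine ⟨max 1 T1, fun T hT => ?_⟩
  have h1 := hT1 T ((le_max_right _ _).trans hT)
  have hTp : 0 < T := lt_of_lt_of_le one_pos ((le_max_left _ _).trans hT)
  rw [Real.rpow_sub hTp, Real.rpow_one]
  exact div_le_div_of_nonneg_left hTp.le (by norm_num) h1

lemma ev_log3 (K : ℝ) (hK : 0 < K) : ∃ T0 : ℝ, 100 ≤ T0 ∧ ∀ T : ℝ, T0 ≤ T →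
    K ≤ Real.log (Real.log T) ∧ K * Real.log (Real.log T) ^ 3 ≤ Real.log T := by
  obtain ⟨ε, hε⟩ : ∃ ε : ℝ, ε = 1 / (K + 1) := ⟨_, rfl⟩
  have hε0 : 0 < ε := by rw [hε]; positivity
  have hε1 : ε ≤ 1 := by rw [hε, div_le_one (by positivity)]; linarith
  have h1 := (isLittleO_log_rpow_atTop (by norm_num : (0 : ℝ) < 1 / 3)).bound hε0
  obtain ⟨L1, hL1⟩ := eventually_atTop.1 h1
  refine ⟨max 100 (Real.exp (max (max L1 1) (Real.exp K))), le_max_left _ _, fun T hT => ?_⟩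
  have hTe : Real.exp (max (max L1 1) (Real.exp K)) ≤ T := (le_max_right _ _).trans hT
  have hTp : 0 < T := (Real.exp_pos _).trans_le hTe
  have hLb : max (max L1 1) (Real.exp K) ≤ Real.log T := by
    rw [Real.le_log_iff_exp_le hTp]
    exact hTe
  obtain ⟨L, hL⟩ : ∃ L : ℝ, L = Real.log T := ⟨_, rfl⟩
  rw [← hL] at hLb ⊢
  have hLL1 : L1 ≤ L := ((le_max_left _ _).trans (le_max_left _ _)).trans hLb
  have hL1' : 1 ≤ L := ((le_max_right _ _).trans (le_max_left _ _)).trans hLb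
  have hLp : 0 < L := by linarith
  have hKl : K ≤ Real.log L := by
    rw [Real.le_log_iff_exp_le hLp]
    exact (le_max_right _ _).trans hLb
  have hl0 : 0 < Real.log L := hK.trans_le hKl
  refine ⟨hKl, ?_⟩
  have h2 := hL1 L hLL1
  rw [Real.norm_of_nonneg hl0.le, Real.norm_of_nonneg (by positivity)] at h2
  have h3 : Real.log L ^ 3 ≤ (ε * L ^ (1 / 3 : ℝ)) ^ 3 := pow_le_pow_left₀ hl0.le h2 3
  have h4 : (L ^ (1 / 3 : ℝ)) ^ 3 = L := by
    rw [← Real.rpow_natCast, ← Real.rpow_mul hLp.le]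
    norm_num
  rw [mul_pow, h4] at h3
  have h5 : K * ε ^ 3 ≤ 1 := by
    have h6 : K * ε ≤ 1 := by
      rw [hε, mul_one_div, div_le_one (by positivity)]
      linarith
    have h7 : ε ^ 2 ≤ 1 := pow_le_one₀ hε0.le hε1
    calc K * ε ^ 3 = (K * ε) * ε ^ 2 := by ring
      _ ≤ 1 * 1 := by gcongr
      _ = 1 := one_mul 1
  calc K * Real.log L ^ 3 ≤ K * (ε ^ 3 * L) := by gcongr
    _ = (K * ε ^ 3) * L := by ring
    _ ≤ 1 * L := by gcongr
    _ = L := one_mul L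

/-- many points carry the weight -/
lemma card_ge {T μ : ℝ} (hT : 100 ≤ T) (hμ : 0 < μ) {Q : Finset ℕ} (hQ : Len Q (T ^ μ))
    {r : ℕ → ℂ} (hw : 0 < w1 Q r) (hL : 120 ≤ Real.log T) {G : Finset ℂ}
    (h : T * Real.log T * w1 Q r / 120 ≤ ∑ s ∈ G, ‖RP Q r s.im‖ ^ 2) :
    T ^ (1 - μ) ≤ (G.card : ℝ) := by
  have hTp : 0 < T := by linarith
  have hT1 : 1 ≤ T ^ μ := Real.one_le_rpow (by linarith) hμ.le
  have h1 : ∀ s ∈ G, ‖RP Q r s.im‖ ^ 2 ≤ T ^ μ * w1 Q r := by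
    intro s _
    have h2 : ‖RP Q r s.im‖ ≤ n1 Q r := TP_norm_le _ _ _ _ _
    exact (pow_le_pow_left₀ (norm_nonneg _) h2 2).trans (n1_sq_le Q r hQ hT1)
  have h2 := h.trans (Finset.sum_le_sum h1)
  rw [Finset.sum_const, nsmul_eq_mul] at h2
  have h3 : T * w1 Q r ≤ T * Real.log T * w1 Q r / 120 := by
    have h4 : 0 < T * w1 Q r := by positivity
    nlinarith
  have h4 : T * w1 Q r ≤ ((G.card : ℝ) * T ^ μ) * w1 Q r := by
    refine (h3.trans h2).trans (le_of_eq ?_)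
    ring
  have h5 := le_of_mul_le_mul_right h4 hw
  rw [Real.rpow_sub hTp, Real.rpow_one, div_le_iff₀ (by positivity)]
  exact h5

lemma mr_le {T : ℝ} (hT : 0 ≤ T) (S : Finset ℕ) (r : ℕ → ℂ) : mr (T / 4) S r ≤ T * w1 S r := by
  unfold mr
  have h3 : Real.sqrt (2 * Real.pi) ≤ 4 := by
    rw [Real.sqrt_le_left (by norm_num)]
    have := Real.pi_le_four
    linarith
  have h4 := w1_nonneg S r
  calc Real.sqrt (2 * Real.pi) * (T / 4) * w1 S r ≤ 4 * (T / 4) * w1 S r := by gcongr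
    _ = T * w1 S r := by ring

/-- the constant in front of a weighted sum -/
lemma const_le {T L d0 X : ℝ} (hT : 0 ≤ T) (hL : 0 < L) (hd : 0 < d0) (hX : 0 ≤ X) (S : Finset ℕ)
    (r : ℕ → ℂ) : 4 / (Real.pi * (d0 / (4 * L))) * (X * mr (T / 4) S r) ≤
      6 / d0 * X * (T * L * w1 S r) := by
  have hpi := Real.pi_pos
  have hpi3 := Real.pi_gt_three
  have hw := w1_nonneg S r
  have h1 : 4 / (Real.pi * (d0 / (4 * L))) = (16 / Real.pi) * (L / d0) := by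
    field_simp
    norm_num
  have h2 : 16 / Real.pi ≤ 6 := by
    rw [div_le_iff₀ hpi]
    linarith
  rw [h1]
  calc (16 / Real.pi) * (L / d0) * (X * mr (T / 4) S r) ≤
      6 * (L / d0) * (X * (T * w1 S r)) := by
        have := mr_le hT S r
        have h5 : 0 ≤ mr (T / 4) S r := by
          unfold mr
          positivity
        gcongr
    _ = _ := by ring

/-! ### the weight -/

/-- the resonator times a Dirichlet polynomial, and its norm -/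
theorem weight {T α δs μ : ℝ} (hT : 100 ≤ T) (hα : 0 < α) (hδs : 0 < δs) (hsum : α + δs ≤ μ)
    (hδα : δs ≤ α) {N k : ℕ} (hk : 16 ≤ k) (hkN : k ≤ N) (hN1 : 1 ≤ N)
    (hS1 : 1 / 4 ≤ SN N) (hS2 : SN N ≤ 2) (hNk : ((N : ℝ) ^ 2) ^ k ≤ T ^ δs) {s : ℝ} (hs : s ^ 2 = 1)
    {b : ℕ → ℂ}
    (hb : ∀ B ∈ SK (PN N) k, (∏ p ∈ B, p) ∈ Finset.Icc 1 ⌊T ^ α⌋₊ ∧
      b (∏ p ∈ B, p) = ((s ^ B.card / Real.sqrt ((∏ p ∈ B, p : ℕ) : ℝ) : ℝ) : ℂ)) :
    Len (SS (PN N) k) (T ^ δs) ∧ Len (Finset.Icc 1 ⌊T ^ μ⌋₊) (T ^ μ) ∧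
    (∀ t : ℝ, RP (Finset.Icc 1 ⌊T ^ α⌋₊) b t * RP (SS (PN N) k) (rr s (Real.sqrt k / 4)) t =
      RP (Finset.Icc 1 ⌊T ^ μ⌋₊)
        (cv (Finset.Icc 1 ⌊T ^ α⌋₊) (SS (PN N) k) b (rr s (Real.sqrt k / 4))) t) ∧
    w1 (SS (PN N) k) (rr s (Real.sqrt k / 4)) ≤ 2 * Real.exp (-(Real.sqrt k / 32)) *
      w1 (Finset.Icc 1 ⌊T ^ μ⌋₊)
        (cv (Finset.Icc 1 ⌊T ^ α⌋₊) (SS (PN N) k) b (rr s (Real.sqrt k / 4))) ∧
    0 < w1 (Finset.Icc 1 ⌊T ^ μ⌋₊)
        (cv (Finset.Icc 1 ⌊T ^ α⌋₊) (SS (PN N) k) b (rr s (Real.sqrt k / 4))) := by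
  have hTp : 0 < T := by linarith
  have hT1 : 1 ≤ T := by linarith
  have hN1' : (1 : ℝ) ≤ N := by exact_mod_cast hN1
  have hPP := PN_prime (N := N)
  have hPle : ∀ p ∈ PN N, (p : ℝ) ≤ (N : ℝ) ^ 2 := fun p hp => by
    exact_mod_cast (PN_mem hp).2
  have hN2 : (1 : ℝ) ≤ (N : ℝ) ^ 2 := one_le_pow₀ hN1'
  have hlen : Len (SS (PN N) k) (T ^ δs) := fun n hn => by
    obtain ⟨h1, h2⟩ := SS_le hPP hPle hN2 hn
    exact ⟨h1, h2.trans hNk⟩
  have hQlen : Len (Finset.Icc 1 ⌊T ^ μ⌋₊) (T ^ μ) := fun n hn => by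
    rw [Finset.mem_Icc] at hn
    exact ⟨hn.1, (Nat.cast_le.2 hn.2).trans (Nat.floor_le (by positivity))⟩
  have hsub : SS (PN N) k ⊆ Finset.Icc 1 ⌊T ^ μ⌋₊ := fun n hn => by
    obtain ⟨h1, h2⟩ := hlen n hn
    rw [Finset.mem_Icc]
    refine ⟨h1, Nat.le_floor (h2.trans ?_)⟩
    exact Real.rpow_le_rpow_of_exponent_le hT1 (by linarith)
  refine ⟨hlen, hQlen, ?_, ?_⟩
  · intro t
    refine RP_mul _ _ _ _ (fun m hm => (Finset.mem_Icc.1 hm).1) (fun m hm => (hlen m hm).1) _ ?_ t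
    intro m hm n hn
    rw [Finset.mem_Icc] at hm ⊢
    obtain ⟨h1, h2⟩ := hlen n hn
    refine ⟨Nat.mul_pos hm.1 h1, Nat.le_floor ?_⟩
    push_cast
    have h3 : (m : ℝ) ≤ T ^ α := (Nat.cast_le.2 hm.2).trans (Nat.floor_le (by positivity))
    calc (m : ℝ) * n ≤ T ^ α * T ^ δs := by gcongr
      _ = T ^ (α + δs) := (Real.rpow_add hTp _ _).symm
      _ ≤ T ^ μ := Real.rpow_le_rpow_of_exponent_le hT1 hsum
  · have hg := gain hPP hk (fun p hp => hkN.trans (PN_mem hp).1.le) (by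
      have := hS2
      unfold SN at this
      exact this) hs hb hsub
    have hS1' : 1 / 4 ≤ ∑ p ∈ PN N, 1 / (p : ℝ) := hS1
    set w0 := w1 (SS (PN N) k) (rr s (Real.sqrt k / 4)) with hw0
    set w' := w1 (Finset.Icc 1 ⌊T ^ μ⌋₊)
        (cv (Finset.Icc 1 ⌊T ^ α⌋₊) (SS (PN N) k) b (rr s (Real.sqrt k / 4))) with hw'
    have hw00 : 0 ≤ w0 := w1_nonneg _ _
    have h1 : 1 / 2 * Real.exp (Real.sqrt k / 32) * w0 ≤ w' := by
      refine le_trans ?_ hg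
      have h2 : Real.sqrt k / 32 ≤ Real.sqrt k / 8 * ∑ p ∈ PN N, 1 / (p : ℝ) := by
        have h3 : Real.sqrt k / 8 * (1 / 4) ≤ Real.sqrt k / 8 * ∑ p ∈ PN N, 1 / (p : ℝ) := by
          gcongr
        linarith
      have h4 := Real.exp_le_exp.2 h2
      gcongr
    constructor
    · have h2 : Real.exp (-(Real.sqrt k / 32)) * Real.exp (Real.sqrt k / 32) = 1 := by
        rw [← Real.exp_add]
        simp
      have h3 := Real.exp_pos (-(Real.sqrt k / 32))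
      calc w0 = 2 * (Real.exp (-(Real.sqrt k / 32)) * Real.exp (Real.sqrt k / 32)) * (1 / 2) * w0 := by
            rw [h2]; ring
        _ = 2 * Real.exp (-(Real.sqrt k / 32)) * (1 / 2 * Real.exp (Real.sqrt k / 32) * w0) := by
            ring
        _ ≤ _ := by gcongr
    · have h2 : 0 < w0 := by
        have h3 : (∅ : Finset ℕ) ∈ SK (PN N) k := mem_SK.2 ⟨Finset.empty_subset _, by simp⟩
        have h4 : 1 ∈ SS (PN N) k := by
          unfold SS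
          rw [Finset.mem_image]
          exact ⟨∅, h3, by simp⟩
        have h5 : ‖rr s (Real.sqrt k / 4) 1‖ ^ 2 ≤ w0 :=
          Finset.single_le_sum (f := fun n => ‖rr s (Real.sqrt k / 4) n‖ ^ 2)
            (fun _ _ => sq_nonneg _) h4
        have h6 : ‖rr s (Real.sqrt k / 4) 1‖ ^ 2 = 1 := by
          unfold rr
          simp
        linarith
      exact lt_of_lt_of_le (by positivity) h1

end Run7.h311.EX
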