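import Pool.Agent.Run7.h311.EX.Line

/-! # Weighted sums over separated points of the mollified zeta function and of the product of a
short partial sum and the mollifier -/

set_option autoImplicit false

open Complex Filter Topology Set MeasureTheory
open scoped BigOperators ComplexConjugate

namespace Run7.h311.EX

open TC (om om_pos om_cont om_mul_integrable)
open Pool.Agent.N802 Pool.Agent.N802.U Pool.Agent.N802.WD
open Pool.Agent.R399.TW (pt pt_re pt_im pt_cont)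

lemma zeta_meas : Measurable riemannZeta := by
  refine measurable_of_continuousOn_compl_singleton 1 ?_
  intro s hs
  exact (differentiableAt_riemannZeta hs).continuousAt.continuousWithinAt

lemma zeta_an {z : ℂ} (hz : z ≠ 1) : AnalyticAt ℂ riemannZeta z := by
  have h1 : DifferentiableOn ℂ riemannZeta {1}ᶜ := fun s hs =>
    (differentiableAt_riemannZeta hs).differentiableWithinAt
  exact h1.analyticAt (isOpen_compl_singleton.mem_nhds hz)

lemma ne_one {z : ℂ} (hz : 1 < z.im) : z ≠ 1 := by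
  rintro rfl
  norm_num at hz

/-- the separated points -/
structure Pts (T ρ : ℝ) (Z : Finset ℂ) : Prop where
  mem : ∀ s ∈ Z, s.re = 1 / 2 ∧ 5 / 4 * T ≤ s.im ∧ s.im ≤ 3 / 2 * T
  sep : ∀ s ∈ Z, ∀ s' ∈ Z, s ≠ s' → 2 * ρ ≤ ‖s - s'‖

/-- **the mollified zeta function** -/
theorem moll_sum {T L C δ β₁ β₂ : ℝ} {V : ℝ → ℝ} (hT : 100 ≤ T) (hL : L = Real.log T) (hL1 : 1 ≤ L)
    (hC : 0 ≤ C) (hβ : 0 < β₁) (hβ1 : β₁ ≤ 1)
    (hR : ∀ S : Finset ℕ, Len S (T ^ δ) → ∀ (r : ℕ → ℂ) (τ H : ℝ), T ^ (1 - δ) ≤ H →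
      ∀ x : ℝ, |x| ≤ T / 4 → ∀ ρ : ℝ, -(1 / (2 * Real.log T)) ≤ ρ → ρ ≤ 30 →
      ∫ t in T..(2 * T), rh τ H S r t *
        ‖riemannZeta (pt (1 / 2 + ρ) (t + x)) * Mp V ⌊T ^ β₂⌋₊ (pt (1 / 2 + ρ) (t + x)) - 1‖ ^ 2 ≤
        C * Real.exp (-(β₁ * Real.log T * ρ)) * mr H S r)
    {S : Finset ℕ} (hS : Len S (T ^ δ)) (hδ1 : δ ≤ 1) (hδT : T ^ (1 - δ) ≤ T / 4) (r : ℕ → ℂ)
    {ρ : ℝ} (hρ : 0 < ρ) (hρ1 : ρ ≤ 1 / (8 * L)) {Z : Finset ℂ} (hZ : Pts T ρ Z) {v : ℂ}
    (hv1 : -(3 / (8 * L)) ≤ v.re) (hv2 : v.re ≤ 20) (hv3 : |v.im| ≤ 20) :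
    ∑ s ∈ Z, ‖RP S r s.im‖ ^ 2 *
      ‖riemannZeta (s + v) * Mp V ⌊T ^ β₂⌋₊ (s + v) - 1‖ ^ 2 ≤
      4 / (Real.pi * ρ) * (C * (Real.exp 3 * Real.exp (-(β₁ * L * v.re))) * mr (T / 4) S r) := by
  have hT0 : 0 < T := by linarith
  have hL0 : 0 < L := by linarith
  have h8 : 1 / (8 * L) ≤ 1 := by
    rw [div_le_one (by positivity)]
    linarith
  have h8' : 1 / (8 * L) ≤ 1 / L := by
    apply one_div_le_one_div_of_le hL0
    linarith
  have hadd : ∀ z : ℂ, 1 < (z + v).im → AnalyticAt ℂ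
      (fun z => riemannZeta (z + v) * Mp V ⌊T ^ β₂⌋₊ (z + v) - 1) z := by
    intro z hz
    have h1 : AnalyticAt ℂ (fun z => z + v) z := analyticAt_id.add analyticAt_const
    have h2 : AnalyticAt ℂ riemannZeta (z + v) := zeta_an (ne_one hz)
    have h3 : AnalyticAt ℂ (Mp V ⌊T ^ β₂⌋₊) (z + v) := (WD.Mp_diff V _).analyticAt _
    have h4 : AnalyticAt ℂ (fun z => Mp V ⌊T ^ β₂⌋₊ (z + v)) z :=
      AnalyticAt.comp (g := Mp V ⌊T ^ β₂⌋₊) (f := fun z => z + v) h3 h1
    have h5 : AnalyticAt ℂ (fun z => riemannZeta (z + v)) z :=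
      AnalyticAt.comp (g := riemannZeta) (f := fun z => z + v) h2 h1
    exact (h5.mul h4).sub analyticAt_const
  refine line_sum (Φ := fun z => riemannZeta (z + v) * Mp V ⌊T ^ β₂⌋₊ (z + v) - 1) hT hρ
    (hρ1.trans h8) hZ.mem hZ.sep ?_ ?_ ?_
  · have h1 : Measurable fun z : ℂ => z + v := measurable_id.add_const v
    exact ((zeta_meas.comp h1).mul
      ((WD.Mp_diff V _).continuous.measurable.comp h1)).sub_const 1
  · intro z hz1 hz2 hz3
    apply hadd
    rw [add_im]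
    have := (abs_le.1 hv3).1
    linarith
  · intro u hu
    have hLe : Real.log (T ^ δ) ≤ L := by
      rw [Real.log_rpow hT0, ← hL]
      nlinarith
    have h1 := hR S hS (ru r u) (11 / 8 * T) (T / 4) hδT v.im (by linarith) (u + v.re) (by
      rw [← hL]
      have h2 := (abs_le.1 hu).1
      have h3 : 1 / (2 * L) = 3 / (8 * L) + 1 / (8 * L) := by
        field_simp
        norm_num
      rw [h3]
      linarith) (by
      have := (abs_le.1 hu).2
      linarith)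
    have e1 : ∀ t : ℝ, pt (1 / 2 + (u + v.re)) (t + v.im) = pt (1 / 2 + u) t + v := by
      intro t
      apply Complex.ext
      · rw [pt_re, add_re, pt_re]; ring
      · rw [pt_im, add_im, pt_im]
    simp_rw [e1] at h1
    refine h1.trans ?_
    rw [← hL]
    have h2 : mr (T / 4) S (ru r u) ≤ Real.exp 2 * mr (T / 4) S r := by
      unfold mr
      have h3 := w1_ru hS hL0 hLe (hu.trans (hρ1.trans h8')) r
      calc Real.sqrt (2 * Real.pi) * (T / 4) * w1 S (ru r u) ≤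
          Real.sqrt (2 * Real.pi) * (T / 4) * (Real.exp 2 * w1 S r) := by gcongr
        _ = _ := by ring
    have h4 : Real.exp (-(β₁ * L * (u + v.re))) ≤ Real.exp 1 * Real.exp (-(β₁ * L * v.re)) := by
      rw [← Real.exp_add]
      apply Real.exp_le_exp.2
      have h5 : |β₁ * L * u| ≤ 1 := by
        rw [abs_mul, abs_of_pos (by positivity : 0 < β₁ * L)]
        calc β₁ * L * |u| ≤ 1 * L * (1 / L) := by
              gcongr
              exact hu.trans (hρ1.trans h8')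
          _ = 1 := by field_simp
      have h6 := neg_le_abs (β₁ * L * u)
      nlinarith
    have h5 : 0 ≤ mr (T / 4) S r := by
      unfold mr
      have := w1_nonneg S r
      positivity
    have h5' : 0 ≤ mr (T / 4) S (ru r u) := by
      unfold mr
      have := w1_nonneg S (ru r u)
      positivity
    calc C * Real.exp (-(β₁ * L * (u + v.re))) * mr (T / 4) S (ru r u) ≤
        C * (Real.exp 1 * Real.exp (-(β₁ * L * v.re))) * (Real.exp 2 * mr (T / 4) S r) := by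
          gcongr
      _ = C * ((Real.exp 1 * Real.exp 2) * Real.exp (-(β₁ * L * v.re))) * mr (T / 4) S r := by
          ring
      _ = _ := by
          rw [← Real.exp_add]
          norm_num

/-- **the mollified zeta function near the critical line** -/
theorem moll_int {T L C δ β₁ β₂ : ℝ} {V : ℝ → ℝ} (hT : 100 ≤ T) (hL : L = Real.log T) (hL1 : 1 ≤ L)
    (hC : 0 ≤ C) (hβ : 0 < β₁) (hβ1 : β₁ ≤ 1)
    (hR : ∀ S : Finset ℕ, Len S (T ^ δ) → ∀ (r : ℕ → ℂ) (τ H : ℝ), T ^ (1 - δ) ≤ H →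
      ∀ x : ℝ, |x| ≤ T / 4 → ∀ ρ : ℝ, -(1 / (2 * Real.log T)) ≤ ρ → ρ ≤ 30 →
      ∫ t in T..(2 * T), rh τ H S r t *
        ‖riemannZeta (pt (1 / 2 + ρ) (t + x)) * Mp V ⌊T ^ β₂⌋₊ (pt (1 / 2 + ρ) (t + x)) - 1‖ ^ 2 ≤
        C * Real.exp (-(β₁ * Real.log T * ρ)) * mr H S r)
    {S : Finset ℕ} (hS : Len S (T ^ δ)) (hδ1 : δ ≤ 1) (hδT : T ^ (1 - δ) ≤ T / 4) (r : ℕ → ℂ)
    (hM : ∀ r : ℕ → ℂ, ∫ t in T..(2 * T), rh (11 / 8 * T) (T / 4) S r t ≤ 2 * mr (T / 4) S r)
    {ρ : ℝ} (hρ : 0 < ρ) (hρ1 : ρ ≤ 1 / (8 * L)) {Z : Finset ℂ} (hZ : Pts T ρ Z) :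
    ∑ s ∈ Z, ∫ z in Metric.ball s ρ, ‖Rc S r z * (riemannZeta z * Mp V ⌊T ^ β₂⌋₊ z)‖ ^ 2 ≤
      4 * ρ * ((2 * C + 4) * Real.exp 3 * mr (T / 4) S r) := by
  have hT0 : 0 < T := by linarith
  have hL0 : 0 < L := by linarith
  have h8 : 1 / (8 * L) ≤ 1 := by
    rw [div_le_one (by positivity)]
    linarith
  have h8' : 1 / (8 * L) ≤ 1 / L := by
    apply one_div_le_one_div_of_le hL0
    linarith
  have han : ∀ z : ℂ, 1 < z.im → AnalyticAt ℂ (fun z => riemannZeta z * Mp V ⌊T ^ β₂⌋₊ z) z := by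
    intro z hz
    exact (zeta_an (ne_one hz)).mul ((WD.Mp_diff V _).analyticAt _)
  refine line_int (Φ := fun z => riemannZeta z * Mp V ⌊T ^ β₂⌋₊ z) hT hρ
    (hρ1.trans h8) hZ.mem hZ.sep ?_ ?_
  · intro z hz1 hz2 hz3
    exact han z (by linarith)
  · intro u hu
    have hLe : Real.log (T ^ δ) ≤ L := by
      rw [Real.log_rpow hT0, ← hL]
      nlinarith
    have h1 := hR S hS (ru r u) (11 / 8 * T) (T / 4) hδT 0 (by rw [abs_zero]; linarith) u (by
      rw [← hL]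
      have h2 := (abs_le.1 hu).1
      have h3 : 1 / (8 * L) ≤ 1 / (2 * L) := by
        apply one_div_le_one_div_of_le (by positivity)
        linarith
      linarith) (by
      have := (abs_le.1 hu).2
      linarith)
    simp_rw [add_zero] at h1
    rw [← hL] at h1
    have h2 : mr (T / 4) S (ru r u) ≤ Real.exp 2 * mr (T / 4) S r := by
      unfold mr
      have h3 := w1_ru hS hL0 hLe (hu.trans (hρ1.trans h8')) r
      calc Real.sqrt (2 * Real.pi) * (T / 4) * w1 S (ru r u) ≤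
          Real.sqrt (2 * Real.pi) * (T / 4) * (Real.exp 2 * w1 S r) := by gcongr
        _ = _ := by ring
    have h5 : 0 ≤ mr (T / 4) S r := by
      unfold mr
      have := w1_nonneg S r
      positivity
    have h5' : 0 ≤ mr (T / 4) S (ru r u) := by
      unfold mr
      have := w1_nonneg S (ru r u)
      positivity
    have h4 : Real.exp (-(β₁ * L * u)) ≤ Real.exp 1 := by
      apply Real.exp_le_exp.2
      have h5 : |β₁ * L * u| ≤ 1 := by
        rw [abs_mul, abs_of_pos (by positivity : 0 < β₁ * L)]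
        calc β₁ * L * |u| ≤ 1 * L * (1 / L) := by
              gcongr
              exact hu.trans (hρ1.trans h8')
          _ = 1 := by field_simp
      have h6 := neg_le_abs (β₁ * L * u)
      linarith
    have h6 := hM (ru r u)
    set W : ℝ → ℝ := rh (11 / 8 * T) (T / 4) S (ru r u) with hW
    have hW0 : ∀ t, 0 ≤ W t := rh_nonneg _ _ _ _
    have hWc : Continuous W := U.rh_cont _ _ _ _
    set F : ℝ → ℂ := fun t => riemannZeta (pt (1 / 2 + u) t) *
      Mp V ⌊T ^ β₂⌋₊ (pt (1 / 2 + u) t) with hF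
    have hFc : ContinuousOn F (Icc T (2 * T)) := by
      intro t ht
      refine ContinuousAt.continuousWithinAt ?_
      refine ContinuousAt.comp (f := fun t : ℝ => pt (1 / 2 + u) t)
        (g := fun z => riemannZeta z * Mp V ⌊T ^ β₂⌋₊ z) ?_ (pt_cont _).continuousAt
      refine (han _ ?_).continuousAt
      rw [pt_im]
      linarith [ht.1]
    have h7 : ∫ t in T..(2 * T), W t * ‖F t‖ ^ 2 ≤
        ∫ t in T..(2 * T), (2 * (W t * ‖F t - 1‖ ^ 2) + 2 * W t) := by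
      refine intervalIntegral.integral_mono_on (by linarith) ?_ ?_ ?_
      · refine ContinuousOn.intervalIntegrable ?_
        rw [uIcc_of_le (by linarith)]
        exact hWc.continuousOn.mul (hFc.norm.pow 2)
      · refine ContinuousOn.intervalIntegrable ?_
        rw [uIcc_of_le (by linarith)]
        exact (continuousOn_const.mul
          (hWc.continuousOn.mul ((hFc.sub continuousOn_const).norm.pow 2))).add
          (continuousOn_const.mul hWc.continuousOn)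
      · intro t _
        have h8 : ‖F t‖ ≤ ‖F t - 1‖ + 1 := by
          have := norm_add_le (F t - 1) 1
          rw [sub_add_cancel, norm_one] at this
          exact this
        have h9 : ‖F t‖ ^ 2 ≤ 2 * ‖F t - 1‖ ^ 2 + 2 := by
          have h10 := norm_nonneg (F t)
          have h11 := norm_nonneg (F t - 1)
          nlinarith [sq_nonneg (‖F t - 1‖ - 1)]
        have := mul_le_mul_of_nonneg_left h9 (hW0 t)
        linarith
    have h8i : IntervalIntegrable (fun t => W t * ‖F t - 1‖ ^ 2) volume T (2 * T) := by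
      refine ContinuousOn.intervalIntegrable ?_
      rw [uIcc_of_le (by linarith)]
      exact hWc.continuousOn.mul ((hFc.sub continuousOn_const).norm.pow 2)
    rw [intervalIntegral.integral_add (h8i.const_mul 2)
      ((hWc.intervalIntegrable _ _).const_mul 2), intervalIntegral.integral_const_mul,
      intervalIntegral.integral_const_mul] at h7
    refine h7.trans ?_
    have h9 : ∫ t in T..(2 * T), W t * ‖F t - 1‖ ^ 2 ≤
        C * Real.exp 1 * mr (T / 4) S (ru r u) := h1.trans (by gcongr)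
    have hee : Real.exp 1 * Real.exp 2 = Real.exp 3 := by
      rw [← Real.exp_add]
      norm_num
    have he1 : (1 : ℝ) ≤ Real.exp 1 := Real.one_le_exp (by norm_num)
    calc 2 * (∫ t in T..(2 * T), W t * ‖F t - 1‖ ^ 2) + 2 * ∫ t in T..(2 * T), W t ≤
        2 * (C * Real.exp 1 * mr (T / 4) S (ru r u)) + 2 * (2 * mr (T / 4) S (ru r u)) := by
          gcongr
      _ = (2 * C * Real.exp 1 + 4 * 1) * mr (T / 4) S (ru r u) := by ring
      _ ≤ (2 * C * Real.exp 1 + 4 * Real.exp 1) * (Real.exp 2 * mr (T / 4) S r) := by gcongr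
      _ = (2 * C + 4) * (Real.exp 1 * Real.exp 2) * mr (T / 4) S r := by ring
      _ = _ := by rw [hee]

/-- **a short partial sum times the mollifier** -/
theorem dm_sum {T L a δ ε κ α₂ β₂ : ℝ} {q : ℕ} {V₁ V₂ : ℝ → ℝ} (hT : 100 ≤ T)
    (hL : L = Real.log T) (hL1 : 1 ≤ L) (ha : 0 ≤ a) (hε : 0 ≤ ε) (hκ : 1 ≤ κ)
    (hb1 : ∀ x, 0 ≤ V₁ x ∧ V₁ x ≤ 1) (hb2 : ∀ x, 0 ≤ V₂ x ∧ V₂ x ≤ 1)
    (hR : ∀ S : Finset ℕ, Len S (T ^ δ) → ∀ (r : ℕ → ℂ) (τ H : ℝ), T ^ (1 - δ) ≤ H →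
      ∀ k₁ k₂ : ℝ, |k₁| ≤ κ → |k₂| ≤ κ → ∀ x v : ℝ,
      ∫ t : ℝ, rh τ H S r t *
        (‖Dp V₁ ⌊T ^ α₂⌋₊ (pt (1 / 2 + k₁ / Real.log T) (t + x + v))‖ ^ 2 *
          ‖Mp V₂ ⌊T ^ β₂⌋₊ (pt (1 / 2 + k₂ / Real.log T) (t + x))‖ ^ 2) ≤
        a * grow (Real.log T) ε q v * mr H S r)
    {S : Finset ℕ} (hS : Len S (T ^ δ)) (hδ1 : δ ≤ 1) (hδT : T ^ (1 - δ) ≤ T / 4) (r : ℕ → ℂ)
    {ρ : ℝ} (hρ : 0 < ρ) (hρ1 : ρ ≤ 1 / (8 * L)) {Z : Finset ℂ} (hZ : Pts T ρ Z) {v : ℂ}
    (hv : ‖v‖ ≤ 1 / (8 * L)) :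
    ∑ s ∈ Z, ‖RP S r s.im‖ ^ 2 *
      ‖Dp V₁ ⌊T ^ α₂⌋₊ s * Mp V₂ ⌊T ^ β₂⌋₊ (s + v)‖ ^ 2 ≤
      4 / (Real.pi * ρ) * (a * (2 ^ q * Real.exp (ε + 2)) * mr (T / 4) S r) := by
  have hT0 : 0 < T := by linarith
  have hL0 : 0 < L := by linarith
  have h8 : 1 / (8 * L) ≤ 1 / 8 := by
    apply one_div_le_one_div_of_le (by norm_num)
    linarith
  have h8' : 1 / (8 * L) ≤ 1 / L := by
    apply one_div_le_one_div_of_le hL0
    linarith
  have hvr := (Complex.abs_re_le_norm v).trans hv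
  have hvi := (Complex.abs_im_le_norm v).trans hv
  refine line_sum (Φ := fun z => Dp V₁ ⌊T ^ α₂⌋₊ z * Mp V₂ ⌊T ^ β₂⌋₊ (z + v)) hT hρ
    (hρ1.trans (by linarith)) hZ.mem hZ.sep ?_ ?_ ?_
  · have h1 : Measurable fun z : ℂ => z + v := measurable_id.add_const v
    exact (BootN.Dp_diff V₁ _).continuous.measurable.mul
      ((WD.Mp_diff V₂ _).continuous.measurable.comp h1)
  · intro z _ _ _
    have h1 : AnalyticAt ℂ (fun z => z + v) z := analyticAt_id.add analyticAt_const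
    have h3 : AnalyticAt ℂ (Mp V₂ ⌊T ^ β₂⌋₊) (z + v) := (WD.Mp_diff V₂ _).analyticAt _
    have h4 : AnalyticAt ℂ (fun z => Mp V₂ ⌊T ^ β₂⌋₊ (z + v)) z :=
      AnalyticAt.comp (g := Mp V₂ ⌊T ^ β₂⌋₊) (f := fun z => z + v) h3 h1
    exact ((BootN.Dp_diff V₁ _).analyticAt z).mul h4
  · intro u hu
    have hLe : Real.log (T ^ δ) ≤ L := by
      rw [Real.log_rpow hT0, ← hL]
      nlinarith
    have hu1 : |u| ≤ 1 / (8 * L) := hu.trans hρ1
    have hk1 : |u * L| ≤ κ := by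
      rw [abs_mul, abs_of_pos hL0]
      calc |u| * L ≤ 1 / (8 * L) * L := by gcongr
        _ = 1 / 8 := by field_simp
        _ ≤ κ := by linarith
    have hk2 : |(u + v.re) * L| ≤ κ := by
      rw [abs_mul, abs_of_pos hL0]
      calc |u + v.re| * L ≤ (1 / (8 * L) + 1 / (8 * L)) * L := by
            gcongr
            exact (abs_add_le _ _).trans (add_le_add hu1 hvr)
        _ = 1 / 4 := by field_simp; norm_num
        _ ≤ κ := by linarith
    have h1 := hR S hS (ru r u) (11 / 8 * T) (T / 4) hδT (u * L) ((u + v.re) * L) hk1 hk2 v.im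
      (-v.im)
    rw [← hL] at h1
    have e0 : u * L / L = u := by field_simp
    have e0' : (u + v.re) * L / L = u + v.re := by field_simp
    rw [e0, e0'] at h1
    have e1 : ∀ t : ℝ, pt (1 / 2 + (u + v.re)) (t + v.im) = pt (1 / 2 + u) t + v := by
      intro t
      apply Complex.ext
      · rw [pt_re, add_re, pt_re]; ring
      · rw [pt_im, add_im, pt_im]
    have e2 : ∀ t : ℝ, t + v.im + -v.im = t := fun t => by ring
    simp_rw [e1, e2] at h1
    have hgr : grow L ε q (-v.im) ≤ 2 ^ q * Real.exp ε := by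
      unfold grow
      have h2 : L * |(-v.im)| ≤ 1 := by
        rw [abs_neg]
        calc L * |v.im| ≤ L * (1 / (8 * L)) := by gcongr
          _ = 1 / 8 := by field_simp
          _ ≤ 1 := by norm_num
      have h3 : Real.sqrt (L * min 1 |(-v.im)|) ≤ 1 := by
        rw [Real.sqrt_le_one]
        exact (mul_le_mul_of_nonneg_left (min_le_right _ _) hL0.le).trans h2
      have h4 : 0 ≤ L * |(-v.im)| := by positivity
      gcongr
      · linarith
      · calc ε * Real.sqrt (L * min 1 |(-v.im)|) ≤ ε * 1 := by gcongr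
          _ = ε := mul_one ε
    have h2 : mr (T / 4) S (ru r u) ≤ Real.exp 2 * mr (T / 4) S r := by
      unfold mr
      have h3 := w1_ru hS hL0 hLe (hu1.trans h8') r
      calc Real.sqrt (2 * Real.pi) * (T / 4) * w1 S (ru r u) ≤
          Real.sqrt (2 * Real.pi) * (T / 4) * (Real.exp 2 * w1 S r) := by gcongr
        _ = _ := by ring
    have h5 : 0 ≤ mr (T / 4) S (ru r u) := by
      unfold mr
      have := w1_nonneg S (ru r u)
      positivity
    -- the integral over the interval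
    have hptc : Continuous fun t : ℝ => pt (1 / 2 + u) t + v := (pt_cont _).add continuous_const
    set f : ℝ → ℝ := fun t => ‖Dp V₁ ⌊T ^ α₂⌋₊ (pt (1 / 2 + u) t)‖ with hf
    set g : ℝ → ℝ := fun t => ‖Mp V₂ ⌊T ^ β₂⌋₊ (pt (1 / 2 + u) t + v)‖ with hg
    have hfc : Continuous f := ((BootN.Dp_diff V₁ _).continuous.comp (pt_cont _)).norm
    have hgc : Continuous g := ((WD.Mp_diff V₂ _).continuous.comp hptc).norm
    have hfb : ∀ t, 0 ≤ f t ∧ f t ≤ ⌊T ^ α₂⌋₊ := fun t => ⟨norm_nonneg _, BootN.Dp_norm hb1 _ (by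
      rw [pt_re]
      have := (abs_le.1 hu1).1
      linarith)⟩
    have hgb : ∀ t, 0 ≤ g t ∧ g t ≤ ⌊T ^ β₂⌋₊ := fun t => ⟨norm_nonneg _, BootN.Mp_norm hb2 _ (by
      rw [add_re, pt_re]
      have := (abs_le.1 hu1).1
      have := (abs_le.1 hvr).1
      linarith)⟩
    have hint : Integrable fun t => rh (11 / 8 * T) (T / 4) S (ru r u) t * (f t ^ 2 * g t ^ 2) := by
      have e : (fun t => rh (11 / 8 * T) (T / 4) S (ru r u) t * (f t ^ 2 * g t ^ 2)) =
          fun t => om (11 / 8 * T) (T / 4) t * (‖RP S (ru r u) t‖ ^ 2 * g t ^ 2 * f t ^ 2) := by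
        funext t
        unfold rh
        ring
      rw [e]
      refine om_mul_integrable (K := n1 S (ru r u) ^ 2 * (⌊T ^ β₂⌋₊ : ℝ) ^ 2 *
        (⌊T ^ α₂⌋₊ : ℝ) ^ 2) (by positivity)
        ((((BootN.RP_cont S (ru r u)).norm.pow 2).mul (hgc.pow 2)).mul (hfc.pow 2)) (fun t => ?_)
      rw [abs_of_nonneg (by positivity)]
      have h1 : ‖RP S (ru r u) t‖ ≤ n1 S (ru r u) := TP_norm_le _ _ _ _ _
      have h2 := hfb t
      have h3 := hgb t
      have h4 := h2.1
      have h5 := h3.1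
      gcongr
      · exact h3.2
      · exact h2.2
    have h6 : ∫ t in T..(2 * T), rh (11 / 8 * T) (T / 4) S (ru r u) t *
        ‖Dp V₁ ⌊T ^ α₂⌋₊ (pt (1 / 2 + u) t) * Mp V₂ ⌊T ^ β₂⌋₊ (pt (1 / 2 + u) t + v)‖ ^ 2 ≤
        ∫ t : ℝ, rh (11 / 8 * T) (T / 4) S (ru r u) t * (f t ^ 2 * g t ^ 2) := by
      rw [intervalIntegral.integral_of_le (by linarith)]
      have e3 : ∀ t, rh (11 / 8 * T) (T / 4) S (ru r u) t *
        ‖Dp V₁ ⌊T ^ α₂⌋₊ (pt (1 / 2 + u) t) * Mp V₂ ⌊T ^ β₂⌋₊ (pt (1 / 2 + u) t + v)‖ ^ 2 =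
        rh (11 / 8 * T) (T / 4) S (ru r u) t * (f t ^ 2 * g t ^ 2) := by
        intro t
        rw [norm_mul, mul_pow]
      simp_rw [e3]
      exact setIntegral_le_integral hint (Eventually.of_forall fun t => by
        have := rh_nonneg (11 / 8 * T) (T / 4) S (ru r u) t
        show 0 ≤ rh (11 / 8 * T) (T / 4) S (ru r u) t * (f t ^ 2 * g t ^ 2)
        positivity)
    refine h6.trans (h1.trans ?_)
    calc a * grow L ε q (-v.im) * mr (T / 4) S (ru r u) ≤
        a * (2 ^ q * Real.exp ε) * (Real.exp 2 * mr (T / 4) S r) := by gcongr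
      _ = a * (2 ^ q * (Real.exp ε * Real.exp 2)) * mr (T / 4) S r := by ring
      _ = _ := by rw [← Real.exp_add]

end Run7.h311.EX
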