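import Pool.Agent.Run7.h311.EX.Bds

/-! # The derivative at isolated zeros: from mean squares to most of the weight -/

set_option autoImplicit false

open Complex Filter Topology Set MeasureTheory Metric
open scoped BigOperators ComplexConjugate

namespace Run7.h311.EX

open Pool.Agent.N802 Pool.Agent.N802.U Pool.Agent.N802.WD
open Pool.Agent.R399.TW (pt pt_re pt_im pt_cont)

/-- isolated simple zeros on the critical line -/
structure Iz (d0 T : ℝ) (s : ℂ) : Prop where
  zero : riemannZeta s = 0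
  re : s.re = 1 / 2
  lo : 5 / 4 * T < s.im
  hi : s.im ≤ 3 / 2 * T
  simple : analyticOrderNatAt riemannZeta s = 1
  iso : ∀ s' : ℂ, riemannZeta s' = 0 → 0 < s'.re → s'.re < 1 → s' ≠ s →
    d0 / Real.log s.im ≤ ‖s' - s‖

lemma deriv_of_order {s : ℂ} (hs : s ≠ 1) (h : riemannZeta s = 0)
    (h1 : analyticOrderNatAt riemannZeta s = 1) : deriv riemannZeta s ≠ 0 := by
  have ha := zeta_an hs
  have h2 : analyticOrderAt riemannZeta s = 1 := by
    unfold analyticOrderNatAt at h1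
    have h3 : analyticOrderAt riemannZeta s ≠ ⊤ := by
      intro h4; rw [h4] at h1; simp at h1
    rw [← ENat.natCast_toNat h3, h1]; rfl
  have h3 := ha.analyticOrderAt_deriv_add_one
  simp only [h, sub_zero] at h3
  rw [h2] at h3
  have h4 : analyticOrderAt (deriv riemannZeta) s = 0 := by
    revert h3
    generalize analyticOrderAt (deriv riemannZeta) s = x
    intro h3
    cases x with
    | top => simp at h3
    | coe n =>
      have h6 : n + 1 = 1 := by exact_mod_cast h3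
      have h7 : n = 0 := by omega
      rw [h7]; rfl
  intro h5
  have ha' : AnalyticAt ℂ (deriv riemannZeta) s := ha.deriv
  have h6 := ha'.analyticOrderAt_eq_zero.1 h4
  exact h6 h5

/-- the points where a nonnegative function is large carry little weight -/
lemma sel {Z : Finset ℂ} {w f : ℂ → ℝ} (hw : ∀ s ∈ Z, 0 ≤ w s) (hf : ∀ s ∈ Z, 0 ≤ f s)
    {A Y X : ℝ} (hA : 0 < A) (h : ∑ s ∈ Z, w s * f s ≤ Y) (hY : Y ≤ A * X) :
    ∑ s ∈ Z.filter (fun s => A < f s), w s ≤ X := by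
  have h1 : A * ∑ s ∈ Z.filter (fun s => A < f s), w s ≤ A * X := by
    refine le_trans ?_ (h.trans hY)
    rw [Finset.mul_sum]
    calc ∑ s ∈ Z.filter (fun s => A < f s), A * w s ≤
        ∑ s ∈ Z.filter (fun s => A < f s), w s * f s := by
          refine Finset.sum_le_sum fun s hs => ?_
          rw [Finset.mem_filter] at hs
          have := hw s hs.1
          nlinarith [hs.2]
      _ ≤ _ := Finset.sum_le_sum_of_subset_of_nonneg (Finset.filter_subset _ _)
          fun s hs _ => mul_nonneg (hw s hs) (hf s hs)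
  exact le_of_mul_le_mul_left h1 hA

/-- **large derivatives**: if the mollifier is small in weighted mean square near the zeros, then
the derivative is large at most of them -/
theorem large_core {d0 β C₂ : ℝ} (hd0 : 0 < d0) (hd1 : d0 ≤ 1 / 10) (hβ : 0 < β) (hβ1 : β ≤ 1)
    (hC₂ : 0 < C₂) :
    ∃ Cs : ℝ, ∃ L0 : ℝ, 1 ≤ L0 ∧ ∀ (T L : ℝ), 100 ≤ T → L = Real.log T → L0 ≤ L →
    ∀ (Z : Finset ℂ), (∀ s ∈ Z, Iz d0 T s) → ∀ (M : ℂ → ℂ), Differentiable ℂ M →
    ∀ (w : ℂ → ℝ), (∀ s ∈ Z, 0 ≤ w s) → ∀ W : ℝ, 0 ≤ W → W / 60 ≤ ∑ s ∈ Z, w s →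
    ∑ s ∈ Z, w s ≤ W → ∀ Θ : ℝ, 0 < Θ →
    (∀ z : ℂ, ‖z‖ ≤ d0 / (4 * L) → ∑ s ∈ Z, w s * ‖M (s + z)‖ ^ 2 ≤ Θ * W) →
    (∀ v : ℂ, -(3 / (8 * L)) ≤ v.re → v.re ≤ 20 → |v.im| ≤ 20 →
      ∑ s ∈ Z, w s * ‖riemannZeta (s + v) * M (s + v) - 1‖ ^ 2 ≤
        C₂ * Real.exp (-(β * L * v.re)) * W) →
    W / 120 ≤ ∑ s ∈ Z.filter (fun s => Real.log L - 1 / 2 * Real.log Θ - Cs ≤
      Real.log ‖deriv riemannZeta s‖), w s := by
  -- the constants
  obtain ⟨B, hB0, hB⟩ : ∃ B : ℝ, 0 < B ∧ 1600 * C₂ * Real.exp (-(β * B)) ≤ 1 := by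
    refine ⟨max 1 (Real.log (1600 * C₂) / β), lt_max_of_lt_left one_pos, ?_⟩
    have h1 : Real.log (1600 * C₂) ≤ β * max 1 (Real.log (1600 * C₂) / β) := by
      have := le_max_right 1 (Real.log (1600 * C₂) / β)
      rw [div_le_iff₀ hβ] at this
      linarith
    have h2 : Real.exp (-(β * max 1 (Real.log (1600 * C₂) / β))) ≤ (1600 * C₂)⁻¹ := by
      rw [← Real.exp_log (by positivity : 0 < (1600 * C₂)⁻¹), Real.log_inv]
      exact Real.exp_le_exp.2 (by linarith)
    calc 1600 * C₂ * Real.exp (-(β * max 1 (Real.log (1600 * C₂) / β))) ≤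
        1600 * C₂ * (1600 * C₂)⁻¹ := by gcongr
      _ = 1 := mul_inv_cancel₀ (by positivity)
  obtain ⟨A, hA⟩ : ∃ A : ℝ, A = 400 * (2 * (C₂ * Real.exp 1) + 2) := ⟨_, rfl⟩
  have hA0 : 0 < A := by rw [hA]; positivity
  obtain ⟨Rr, hRr⟩ : ∃ Rr : ℝ, Rr = (4 * (B + 1 / 4) / d0) ^ 2 := ⟨_, rfl⟩
  refine ⟨1 / 2 * Real.log 800 + Rr * (Real.log 2 + A / 2), max 10 (B + 1), le_trans (by norm_num)
    (le_max_left _ _), ?_⟩
  intro T L hT hL hL0 Z hZ M hM w hw W hW0 hW1 hW2 Θ hΘ hsm hrt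
  have hL10 : 10 ≤ L := (le_max_left _ _).trans hL0
  have hLB : B + 1 ≤ L := (le_max_right _ _).trans hL0
  have hLp : 0 < L := by linarith
  have hpi := Real.pi_pos
  have hpi3 := Real.pi_gt_three
  obtain ⟨ρ, hρ⟩ : ∃ ρ : ℝ, ρ = d0 / (4 * L) := ⟨_, rfl⟩
  have hρ0 : 0 < ρ := by rw [hρ]; positivity
  have hρ1 : ρ ≤ 1 / (40 * L) := by
    rw [hρ, div_le_div_iff₀ (by positivity) (by positivity)]
    nlinarith
  obtain ⟨R0, hR0⟩ : ∃ R0 : ℝ, R0 = (B + 1 / 4) / L := ⟨_, rfl⟩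
  have hR0p : 0 < R0 := by rw [hR0]; positivity
  have hR01 : R0 ≤ 1 := by
    rw [hR0, div_le_one hLp]
    linarith
  have hL40 : 1 / (40 * L) ≤ 1 / 400 := by
    apply one_div_le_one_div_of_le (by norm_num)
    linarith
  rw [← hρ] at hsm
  obtain ⟨v, hv⟩ : ∃ v : ℂ, v = ((B / L : ℝ) : ℂ) := ⟨_, rfl⟩
  have hvre : v.re = B / L := by rw [hv, Complex.ofReal_re]
  have hvim : v.im = 0 := by rw [hv, Complex.ofReal_im]
  have hBL : B / L ≤ 1 := by
    rw [div_le_one hLp]
    linarith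
  have hBL0 : 0 ≤ B / L := by positivity
  -- continuity
  have him : ∀ s ∈ Z, ∀ z : ℂ, ‖z - s‖ ≤ 3 → 1 < z.im := by
    intro s hs z hz
    have h1 := (hZ s hs).lo
    have h2 := (Complex.abs_im_le_norm (z - s)).trans hz
    rw [Complex.sub_im] at h2
    have h3 := (abs_le.1 h2).1
    linarith
  have hzan : ∀ s ∈ Z, ∀ z : ℂ, ‖z - s‖ ≤ 3 → AnalyticAt ℂ riemannZeta z := fun s hs z hz =>
    zeta_an (ne_one (him s hs z hz))
  -- the first bad set
  set f1 : ℂ → ℝ := fun s => ∫ z in ball s ρ, ‖M z‖ ^ 2 with hf1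
  have hb1 : ∑ s ∈ Z.filter (fun s => Real.pi * ρ ^ 2 * (400 * Θ) < f1 s), w s ≤ W / 400 := by
    refine sel hw (fun s _ => integral_nonneg fun z => by positivity) (by positivity)
      (Y := Real.pi * ρ ^ 2 * (Θ * W)) ?_ (le_of_eq (by ring))
    have h1 := avg_sum (Φ := M) (Z := Z) (w := w) (v := 0) (r := ρ) (Y := Θ * W) hρ0
      (fun s _ => hM.continuous.continuousOn) (fun z hz => by
        have h2 := hsm z hz
        simpa using h2)
    simpa using h1
  -- the second bad set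
  set f2 : ℂ → ℝ := fun s => ∫ z in ball (s + v) R0, ‖riemannZeta z * M z‖ ^ 2 with hf2
  have hb2 : ∑ s ∈ Z.filter (fun s => Real.pi * R0 ^ 2 * A < f2 s), w s ≤ W / 400 := by
    refine sel hw (fun s _ => integral_nonneg fun z => by positivity) (by positivity)
      (Y := Real.pi * R0 ^ 2 * ((2 * (C₂ * Real.exp 1) + 2) * W)) ?_ (le_of_eq (by rw [hA]; ring))
    refine avg_sum (Φ := fun z => riemannZeta z * M z) (Z := Z) (w := w) (v := v) (r := R0) hR0p
      ?_ ?_
    · intro s hs z hz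
      refine ContinuousAt.continuousWithinAt ?_
      refine ContinuousAt.mul (hzan s hs z ?_).continuousAt hM.continuous.continuousAt
      rw [mem_closedBall, dist_eq_norm] at hz
      have h1 : ‖z - s‖ ≤ ‖z - (s + v)‖ + ‖v‖ := by
        have := norm_add_le (z - (s + v)) v
        rwa [show z - (s + v) + v = z - s by ring] at this
      have h2 : ‖v‖ ≤ 1 := by
        rw [hv, Complex.norm_real, Real.norm_of_nonneg hBL0]
        exact hBL
      linarith
    · intro z hz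
      have hzre := (Complex.abs_re_le_norm z).trans hz
      have hzim := (Complex.abs_im_le_norm z).trans hz
      have h1 : -(1 / (4 * L)) ≤ (v + z).re := by
        rw [add_re, hvre]
        have h2 := (abs_le.1 hzre).1
        have h3 : R0 = B / L + 1 / (4 * L) := by
          rw [hR0]
          field_simp
        rw [h3] at h2
        linarith
      have h1' : 1 / (4 * L) ≤ 3 / (8 * L) := by
        rw [div_le_div_iff₀ (by positivity) (by positivity)]
        nlinarith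
      have h2 : (v + z).re ≤ 20 := by
        rw [add_re, hvre]
        have h2 := (abs_le.1 hzre).2
        linarith
      have h3 : |(v + z).im| ≤ 20 := by
        rw [add_im, hvim, zero_add]
        linarith
      have h4 := hrt (v + z) (by linarith) h2 h3
      have h5 : Real.exp (-(β * L * (v + z).re)) ≤ Real.exp 1 := by
        apply Real.exp_le_exp.2
        have h6 : β * L * (-(1 / (4 * L))) ≤ β * L * (v + z).re := by gcongr
        have h7 : β * L * (-(1 / (4 * L))) = -(β / 4) := by field_simp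
        linarith
      have h6 : ∀ s ∈ Z, w s * ‖riemannZeta (s + v + z) * M (s + v + z)‖ ^ 2 ≤
          2 * (w s * ‖riemannZeta (s + (v + z)) * M (s + (v + z)) - 1‖ ^ 2) + 2 * w s := by
        intro s hs
        rw [← add_assoc]
        set F := riemannZeta (s + v + z) * M (s + v + z)
        have h8 : ‖F‖ ≤ ‖F - 1‖ + 1 := by
          have := norm_add_le (F - 1) 1
          rw [sub_add_cancel, norm_one] at this
          exact this
        have h9 : ‖F‖ ^ 2 ≤ 2 * ‖F - 1‖ ^ 2 + 2 := by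
          have h10 := norm_nonneg F
          have h11 := norm_nonneg (F - 1)
          nlinarith [sq_nonneg (‖F - 1‖ - 1)]
        have := mul_le_mul_of_nonneg_left h9 (hw s hs)
        linarith
      refine (Finset.sum_le_sum h6).trans ?_
      rw [Finset.sum_add_distrib, ← Finset.mul_sum, ← Finset.mul_sum]
      calc 2 * ∑ s ∈ Z, w s * ‖riemannZeta (s + (v + z)) * M (s + (v + z)) - 1‖ ^ 2 +
          2 * ∑ s ∈ Z, w s ≤ 2 * (C₂ * Real.exp (-(β * L * (v + z).re)) * W) + 2 * W := by gcongr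
        _ ≤ 2 * (C₂ * Real.exp 1 * W) + 2 * W := by gcongr
        _ = _ := by ring
  -- the third bad set
  set f3 : ℂ → ℝ := fun s => ‖riemannZeta (s + v) * M (s + v) - 1‖ ^ 2 with hf3
  have hb3 : ∑ s ∈ Z.filter (fun s => 1 / 4 < f3 s), w s ≤ W / 400 := by
    refine sel hw (fun s _ => by positivity) (by norm_num)
      (Y := C₂ * Real.exp (-(β * L * v.re)) * W) ?_ ?_
    · exact hrt v (by
        rw [hvre]
        have : 0 ≤ 3 / (8 * L) := by positivity
        linarith) (by rw [hvre]; linarith) (by rw [hvim, abs_zero]; norm_num)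
    · rw [hvre]
      have e1 : β * L * (B / L) = β * B := by field_simp
      rw [e1]
      nlinarith [mul_le_mul_of_nonneg_right hB hW0]
  -- the good set
  have hgood : W / 120 ≤ ∑ s ∈ Z.filter (fun s => f1 s ≤ Real.pi * ρ ^ 2 * (400 * Θ) ∧
      f2 s ≤ Real.pi * R0 ^ 2 * A ∧ f3 s ≤ 1 / 4), w s := by
    have h1 : ∑ s ∈ Z, w s ≤ ∑ s ∈ Z.filter (fun s => f1 s ≤ Real.pi * ρ ^ 2 * (400 * Θ) ∧
        f2 s ≤ Real.pi * R0 ^ 2 * A ∧ f3 s ≤ 1 / 4), w s +
        (∑ s ∈ Z.filter (fun s => Real.pi * ρ ^ 2 * (400 * Θ) < f1 s), w s +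
        (∑ s ∈ Z.filter (fun s => Real.pi * R0 ^ 2 * A < f2 s), w s +
        ∑ s ∈ Z.filter (fun s => 1 / 4 < f3 s), w s)) := by
      simp only [Finset.sum_filter]
      rw [← Finset.sum_add_distrib, ← Finset.sum_add_distrib, ← Finset.sum_add_distrib]
      refine Finset.sum_le_sum fun s hs => ?_
      have := hw s hs
      by_cases c1 : f1 s ≤ Real.pi * ρ ^ 2 * (400 * Θ)
      · by_cases c2 : f2 s ≤ Real.pi * R0 ^ 2 * A
        · by_cases c3 : f3 s ≤ 1 / 4
          · rw [if_pos ⟨c1, c2, c3⟩, if_neg (not_lt.2 c1), if_neg (not_lt.2 c2),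
              if_neg (not_lt.2 c3)]
            linarith
          · rw [if_neg (fun h => c3 h.2.2), if_neg (not_lt.2 c1), if_neg (not_lt.2 c2),
              if_pos (not_le.1 c3)]
            linarith
        · rw [if_neg (fun h => c2 h.2.1), if_neg (not_lt.2 c1), if_pos (not_le.1 c2)]
          split_ifs <;> linarith
      · rw [if_neg (fun h => c1 h.1), if_pos (not_le.1 c1)]
        split_ifs <;> linarith
    linarith
  refine hgood.trans ?_
  refine Finset.sum_le_sum_of_subset_of_nonneg ?_ fun s hs _ => hw s (Finset.mem_filter.1 hs).1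
  intro s hs
  rw [Finset.mem_filter] at hs ⊢
  obtain ⟨hs, g1, g2, g3⟩ := hs
  refine ⟨hs, ?_⟩
  have hiz := hZ s hs
  have hsim : 1 < s.im := him s hs s (by simp)
  have hls : Real.log s.im ≤ 2 * L := by
    have h1 : Real.log s.im ≤ Real.log (T ^ 2) := by
      apply Real.log_le_log (by linarith)
      nlinarith [hiz.hi]
    rw [Real.log_pow, ← hL] at h1
    exact_mod_cast h1
  have hls0 : 0 < Real.log s.im := Real.log_pos hsim
  have hiso : ∀ z ∈ closedBall s ρ, z ≠ s → riemannZeta z ≠ 0 := by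
    intro z hz hzs hz0
    rw [mem_closedBall, dist_eq_norm] at hz
    have h1 := (Complex.abs_re_le_norm (z - s)).trans hz
    rw [Complex.sub_re, hiz.re] at h1
    have h2 := abs_le.1 h1
    have h3 := hiz.iso z hz0 (by linarith) (by linarith) hzs
    have h4 : d0 / (2 * L) ≤ d0 / Real.log s.im := div_le_div_of_nonneg_left hd0.le hls0 hls
    have h5 : ρ < d0 / (2 * L) := by
      rw [hρ, div_lt_div_iff₀ (by positivity) (by positivity)]
      nlinarith
    linarith
  have hsub : closedBall s ρ ⊆ ball (s + v) R0 := by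
    intro z hz
    rw [mem_closedBall, dist_eq_norm] at hz
    rw [mem_ball, dist_eq_norm]
    have h1 : ‖z - (s + v)‖ ≤ ‖z - s‖ + ‖v‖ := by
      have := norm_sub_le (z - s) v
      rwa [show z - s - v = z - (s + v) by ring] at this
    have h2 : ‖v‖ = B / L := by
      rw [hv, Complex.norm_real, Real.norm_of_nonneg hBL0]
    have h3 : R0 = B / L + 1 / (4 * L) := by
      rw [hR0]
      field_simp
    have h4 : 1 / (40 * L) < 1 / (4 * L) := by
      apply one_div_lt_one_div_of_lt (by positivity)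
      linarith
    rw [h3]
    linarith
  have hnear : ∀ z ∈ closedBall (s + v) R0, ‖z - s‖ ≤ 3 := by
    intro z hz
    rw [mem_closedBall, dist_eq_norm] at hz
    have h1 : ‖z - s‖ ≤ ‖z - (s + v)‖ + ‖v‖ := by
      have := norm_add_le (z - (s + v)) v
      rwa [show z - (s + v) + v = z - s by ring] at this
    have h2 : ‖v‖ ≤ 1 := by
      rw [hv, Complex.norm_real, Real.norm_of_nonneg hBL0]
      exact hBL
    linarith
  have hf : 1 / 2 ≤ ‖riemannZeta (s + v) * M (s + v)‖ := by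
    have h1 : ‖riemannZeta (s + v) * M (s + v) - 1‖ ≤ 1 / 2 := by
      have h2 : ‖riemannZeta (s + v) * M (s + v) - 1‖ ^ 2 ≤ (1 / 2) ^ 2 := by
        have := g3
        rw [hf3] at this
        simp only at this
        linarith
      exact (sq_le_sq₀ (norm_nonneg _) (by norm_num)).1 h2
    have h3 := norm_sub_norm_le (1 : ℂ) (1 - riemannZeta (s + v) * M (s + v))
    rw [norm_one, sub_sub_cancel, norm_sub_rev] at h3
    linarith
  have hkey := disc_low zeta_meas hM.continuous.measurable (ρ := s) (c := s + v) (r := ρ) (R := R0)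
    hρ0 hsub (fun z hz => hzan s hs z (hnear z hz)) (fun z _ => hM.analyticAt z) hiz.zero
    (deriv_of_order (ne_one hsim) hiz.zero hiz.simple) hiso (Θ := 400 * Θ) (A := A)
    (by positivity) g1 hf g2
  refine le_trans ?_ hkey
  have e1 : (R0 / ρ) ^ 2 = Rr := by
    rw [hRr, hR0, hρ]
    congr 1
    field_simp
  have e2 : Real.log (2 * (400 * Θ)) = Real.log 800 + Real.log Θ := by
    rw [← Real.log_mul (by norm_num) hΘ.ne']
    congr 1
    ring
  have e3 : Real.log L ≤ -Real.log ρ := by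
    rw [← Real.log_inv]
    apply Real.log_le_log hLp
    rw [hρ, inv_div, le_div_iff₀ hd0]
    nlinarith
  rw [e1, e2]
  linarith

/-- **small derivatives**: the weighted mean square of the derivative times the mollifier -/
theorem small_core {T L C δ β₁ β₂ d0 : ℝ} {V : ℝ → ℝ} (hT : 100 ≤ T) (hL : L = Real.log T)
    (hL1 : 1 ≤ L) (hC : 0 ≤ C) (hβ : 0 < β₁) (hβ1 : β₁ ≤ 1) (hd0 : 0 < d0) (hd1 : d0 ≤ 1 / 10)
    (hR : ∀ S : Finset ℕ, Len S (T ^ δ) → ∀ (r : ℕ → ℂ) (τ H : ℝ), T ^ (1 - δ) ≤ H →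
      ∀ x : ℝ, |x| ≤ T / 4 → ∀ ρ : ℝ, -(1 / (2 * Real.log T)) ≤ ρ → ρ ≤ 30 →
      ∫ t in T..(2 * T), rh τ H S r t *
        ‖riemannZeta (pt (1 / 2 + ρ) (t + x)) * Mp V ⌊T ^ β₂⌋₊ (pt (1 / 2 + ρ) (t + x)) - 1‖ ^ 2 ≤
        C * Real.exp (-(β₁ * Real.log T * ρ)) * mr H S r)
    {S : Finset ℕ} (hS : Len S (T ^ δ)) (hδ1 : δ ≤ 1) (hδT : T ^ (1 - δ) ≤ T / 4) (r : ℕ → ℂ)
    (hM : ∀ r : ℕ → ℂ, ∫ t in T..(2 * T), rh (11 / 8 * T) (T / 4) S r t ≤ 2 * mr (T / 4) S r)
    {Z : Finset ℂ} (hZ : Pts T (d0 / (4 * L)) Z) (hz : ∀ s ∈ Z, riemannZeta s = 0) :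
    ∑ s ∈ Z, ‖RP S r s.im‖ ^ 2 * (‖Mp V ⌊T ^ β₂⌋₊ s‖ ^ 2 * ‖deriv riemannZeta s‖ ^ 2) ≤
      1400 / d0 ^ 3 * ((2 * C + 4) * Real.exp 3) * L ^ 2 * (T * L * w1 S r) := by
  have hT0 : 0 < T := by linarith
  have hL0 : 0 < L := by linarith
  have hpi := Real.pi_pos
  have hpi3 := Real.pi_gt_d2
  obtain ⟨ρ, hρ⟩ : ∃ ρ : ℝ, ρ = d0 / (4 * L) := ⟨_, rfl⟩
  have hρ0 : 0 < ρ := by rw [hρ]; positivity
  have hρ1 : ρ ≤ 1 / (8 * L) := by
    rw [hρ, div_le_div_iff₀ (by positivity) (by positivity)]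
    nlinarith
  have h8 : 1 / (8 * L) ≤ 1 := by
    rw [div_le_one (by positivity)]
    linarith
  rw [← hρ] at hZ
  have h1 := moll_int hT hL hL1 hC hβ hβ1 hR hS hδ1 hδT r hM hρ0 hρ1 hZ
  set Mm := Mp V ⌊T ^ β₂⌋₊ with hMm
  have hMd : Differentiable ℂ Mm := WD.Mp_diff V _
  set G : ℂ → ℂ := fun z => Rc S r z * (riemannZeta z * Mm z) with hG
  have hGm : Measurable G := (Rc_diff S r).continuous.measurable.mul
    (zeta_meas.mul hMd.continuous.measurable)
  have him : ∀ s ∈ Z, ∀ z ∈ closedBall s ρ, 1 < z.im := by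
    intro s hs z hz
    have h2 := (hZ.mem s hs).2.1
    rw [mem_closedBall, dist_eq_norm] at hz
    have h3 := (Complex.abs_im_le_norm (z - s)).trans hz
    rw [Complex.sub_im] at h3
    have h4 := (abs_le.1 h3).1
    linarith
  have h2 : ∀ s ∈ Z, ‖RP S r s.im‖ ^ 2 * (‖Mm s‖ ^ 2 * ‖deriv riemannZeta s‖ ^ 2) ≤
      16 / (Real.pi * ρ ^ 4) * ∫ z in ball s ρ, ‖G z‖ ^ 2 := by
    intro s hs
    have h3 := deriv_area hGm (c := s) hρ0 (fun z hz => ((Rc_diff S r).analyticAt z).mul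
      ((zeta_an (ne_one (him s hs z hz))).mul (hMd.analyticAt z)))
    refine le_trans (le_of_eq ?_) h3
    have hs1 : s ≠ 1 := ne_one (him s hs s (mem_closedBall_self hρ0.le))
    have e1 : deriv G s = Rc S r s * (deriv riemannZeta s * Mm s) := by
      have d1 : HasDerivAt (Rc S r) (deriv (Rc S r) s) s := (Rc_diff S r s).hasDerivAt
      have d2 : HasDerivAt riemannZeta (deriv riemannZeta s) s :=
        (differentiableAt_riemannZeta hs1).hasDerivAt
      have d3 : HasDerivAt Mm (deriv Mm s) s := (hMd s).hasDerivAt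
      have d4 := (d1.mul (d2.mul d3)).deriv
      have e2 : deriv G s = deriv (Rc S r * (riemannZeta * Mm)) s := rfl
      rw [e2, d4]
      simp only [Pi.mul_apply]
      rw [hz s hs]
      ring
    rw [e1, norm_mul, norm_mul, mul_pow, mul_pow, Rc_line S r (hZ.mem s hs).1]
    ring
  refine (Finset.sum_le_sum h2).trans ?_
  rw [← Finset.mul_sum]
  have hmr : mr (T / 4) S r ≤ T * w1 S r := by
    unfold mr
    have h3 : Real.sqrt (2 * Real.pi) ≤ 4 := by
      rw [Real.sqrt_le_left (by norm_num)]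
      have := Real.pi_le_four
      linarith
    have h4 := w1_nonneg S r
    calc Real.sqrt (2 * Real.pi) * (T / 4) * w1 S r ≤ 4 * (T / 4) * w1 S r := by gcongr
      _ = T * w1 S r := by ring
  have hw := w1_nonneg S r
  have hint : ∑ s ∈ Z, ∫ z in ball s ρ, ‖G z‖ ^ 2 ≤
      4 * ρ * ((2 * C + 4) * Real.exp 3 * (T * w1 S r)) := by
    refine h1.trans ?_
    gcongr
  calc 16 / (Real.pi * ρ ^ 4) * ∑ s ∈ Z, ∫ z in ball s ρ, ‖G z‖ ^ 2 ≤
      16 / (Real.pi * ρ ^ 4) * (4 * ρ * ((2 * C + 4) * Real.exp 3 * (T * w1 S r))) := by gcongr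
    _ = (4096 / Real.pi) * (1 / d0 ^ 3 * ((2 * C + 4) * Real.exp 3) * L ^ 2 * (T * L * w1 S r)) := by
        rw [hρ]
        field_simp
        ring
    _ ≤ 1400 * (1 / d0 ^ 3 * ((2 * C + 4) * Real.exp 3) * L ^ 2 * (T * L * w1 S r)) := by
        have h3 : 4096 / Real.pi ≤ 1400 := by
          rw [div_le_iff₀ hpi]
          nlinarith
        gcongr
    _ = _ := by ring

end Run7.h311.EX
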