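import Pool.Agent.Run7.h311.EX.CoreL
import Pool.Agent.Run7.h311.WI.Fin

/-! # The isolated zeros and their weights -/

set_option autoImplicit false

open Complex Filter Topology Set MeasureTheory
open scoped BigOperators ComplexConjugate

namespace Run7.h311.EX

open H370 hiding pt
open Pool.Agent.N802 Pool.Agent.N802.U Pool.Agent.N802.WD
open Run7.h311.WI

/-- the isolated zeros carry a positive proportion of every weight -/
def FrameP (d0 δ T0 : ℝ) : Prop :=
    ∀ T : ℝ, T0 ≤ T → T ^ (1 - δ) ≤ T / 4 ∧ ∃ Z : Finset ℂ, (∀ s ∈ Z, Iz d0 T s) ∧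
    Pts T (d0 / (4 * Real.log T)) Z ∧ ∀ S : Finset ℕ, Len S (T ^ δ) → ∀ r : ℕ → ℂ,
    T * Real.log T * w1 S r / 60 ≤ ∑ s ∈ Z, ‖RP S r s.im‖ ^ 2 ∧
    ∑ s ∈ Z, ‖RP S r s.im‖ ^ 2 ≤ T * Real.log T * w1 S r

theorem zeros_frame : ∃ d0 δ T0 : ℝ, 0 < d0 ∧ d0 ≤ 1 / 10 ∧ 0 < δ ∧ δ ≤ 1 / 8 ∧ 100 ≤ T0 ∧
    FrameP d0 δ T0 := by
  classical
  obtain ⟨d0, hd0, hd1, hD⟩ := isoD (ε0 := 1 / 10) (by norm_num) le_rfl
  obtain ⟨δ', T0, hδ', hT0, h⟩ := hD (1 / 10) (by norm_num) (by norm_num)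
  obtain ⟨δ, hδ⟩ : ∃ δ : ℝ, δ = min δ' (1 / 8) := ⟨_, rfl⟩
  have hδ0 : 0 < δ := by rw [hδ]; exact lt_min hδ' (by norm_num)
  have hδ1 : δ ≤ δ' := by rw [hδ]; exact min_le_left _ _
  have hδ8 : δ ≤ 1 / 8 := by rw [hδ]; exact min_le_right _ _
  obtain ⟨T1, hT1⟩ : ∃ T1 : ℝ, ∀ T : ℝ, T1 ≤ T → 8 ≤ T ^ δ :=
    eventually_atTop.1 ((tendsto_rpow_atTop hδ0).eventually_ge_atTop 8)
  refine ⟨d0, δ, max (max 100 T0) T1, hd0, hd1, hδ0, hδ8,
    (le_max_left _ _).trans (le_max_left _ _), fun T hT => ?_⟩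
  have hT100 : 100 ≤ T := ((le_max_left _ _).trans (le_max_left _ _)).trans hT
  have hTT0 : T0 ≤ T := ((le_max_right _ _).trans (le_max_left _ _)).trans hT
  have hT8 := hT1 T ((le_max_right _ _).trans hT)
  have hTp : 0 < T := by linarith
  have hpow : T ^ (1 - δ) ≤ T / 8 := by
    rw [Real.rpow_sub hTp, Real.rpow_one]
    exact div_le_div_of_nonneg_left hTp.le (by norm_num) hT8
  refine ⟨by linarith, ?_⟩
  have h1T : (1 : ℝ) ≤ 5 / 4 * T := by linarith
  have hmem : ∀ s : ℂ, s ∈ Zf riemannZeta (5 / 4 * T) (3 / 2 * T) ↔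
      0 < s.re ∧ s.re < 1 ∧ 5 / 4 * T < s.im ∧ s.im ≤ 3 / 2 * T ∧ riemannZeta s = 0 := by
    intro s
    rw [mem_Zf good_zeta h1T]
    rfl
  set Z : Finset ℂ := (Zf riemannZeta (5 / 4 * T) (3 / 2 * T)).filter
    (fun s => s.re = 1 / 2 ∧ H370.mult riemannZeta s = 1 ∧
    ∀ s' : ℂ, riemannZeta s' = 0 → 0 < s'.re → s'.re < 1 → s' ≠ s →
    d0 / Real.log s.im ≤ ‖s' - s‖) with hZ
  have hiz : ∀ s ∈ Z, Iz d0 T s := by
    intro s hs
    rw [hZ, Finset.mem_filter, hmem] at hs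
    obtain ⟨⟨-, -, h3, h4, h5⟩, h6, h7, h8⟩ := hs
    exact ⟨h5, h6, h3, h4, h7, h8⟩
  have hL1 : 1 ≤ Real.log T := by
    rw [Real.le_log_iff_exp_le hTp]
    linarith [Real.exp_one_lt_d9]
  refine ⟨Z, hiz, ⟨fun s hs => ⟨(hiz s hs).re, (hiz s hs).lo.le, (hiz s hs).hi⟩, ?_⟩, ?_⟩
  · intro s hs s' hs' hne
    have h1 := hiz s hs
    have h2 := hiz s' hs'
    have h3 := h2.iso s h1.zero (by rw [h1.re]; norm_num) (by rw [h1.re]; norm_num) hne
    have hls : Real.log s'.im ≤ 2 * Real.log T := by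
      have h4 : Real.log s'.im ≤ Real.log (T ^ 2) := by
        apply Real.log_le_log (by linarith [h2.lo])
        nlinarith [h2.hi]
      rw [Real.log_pow] at h4
      exact_mod_cast h4
    have hls0 : 0 < Real.log s'.im := Real.log_pos (by linarith [h2.lo])
    have h4 : d0 / (2 * Real.log T) ≤ d0 / Real.log s'.im :=
      div_le_div_of_nonneg_left hd0.le hls0 hls
    have h5 : 2 * (d0 / (4 * Real.log T)) = d0 / (2 * Real.log T) := by
      field_simp
      norm_num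
    linarith
  · intro S hS r
    have hS' : Len S ((5 / 4 * T) ^ δ') := fun n hn => ⟨(hS n hn).1, (hS n hn).2.trans
      ((Real.rpow_le_rpow hTp.le (by linarith) hδ0.le).trans
        (Real.rpow_le_rpow_of_exponent_le h1T hδ1))⟩
    have hK1 : (5 / 4 * T) ^ (1 - δ') ≤ T / 4 := by
      calc (5 / 4 * T) ^ (1 - δ') ≤ (5 / 4 * T) ^ (1 - δ) :=
            Real.rpow_le_rpow_of_exponent_le h1T (by linarith)
        _ = (5 / 4 : ℝ) ^ (1 - δ) * T ^ (1 - δ) := Real.mul_rpow (by norm_num) hTp.le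
        _ ≤ (5 / 4 : ℝ) ^ (1 : ℝ) * (T / 8) := by
            gcongr
            · norm_num
            · linarith
        _ ≤ T / 4 := by
            rw [Real.rpow_one]
            linarith
    obtain ⟨h1, h2, -⟩ := h (5 / 4 * T) (by linarith) (T / 4) hK1 (by linarith) S hS' r
    have e0 : 5 / 4 * T + T / 4 = 3 / 2 * T := by ring
    rw [e0] at h1 h2
    have hw := w1_nonneg S r
    have hpi := Real.pi_pos
    have hpi1 := Real.pi_gt_three
    have hpi2 := Real.pi_lt_d2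
    have hlog1 : Real.log T ≤ Real.log (5 / 4 * T) := Real.log_le_log hTp (by linarith)
    have hlog2 : Real.log (5 / 4 * T) ≤ 2 * Real.log T := by
      have h4 : Real.log (5 / 4 * T) ≤ Real.log (T ^ 2) := by
        apply Real.log_le_log (by linarith)
        nlinarith
      rw [Real.log_pow] at h4
      exact_mod_cast h4
    have hlog3 : 0 ≤ Real.log (5 / 4 * T) := by linarith
    have e1 : ∑ s ∈ Z, ‖RP S r s.im‖ ^ 2 = ∑ s ∈ Zf riemannZeta (5 / 4 * T) (3 / 2 * T),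
        cI riemannZeta d0 s * ‖RP S r s.im‖ ^ 2 := by
      rw [hZ, Finset.sum_filter]
      refine Finset.sum_congr rfl fun s _ => ?_
      unfold cI
      split_ifs
      · rw [one_mul]
      · rw [zero_mul]
    have e2 : ∑ s ∈ Z, ‖RP S r s.im‖ ^ 2 ≤ ∑ s ∈ Zf riemannZeta (5 / 4 * T) (3 / 2 * T),
        (H370.mult riemannZeta s : ℝ) * ‖RP S r s.im‖ ^ 2 := by
      rw [e1]
      refine Finset.sum_le_sum fun s hs => ?_
      rw [hmem] at hs
      have h3 := cI_le good_zeta d0 s hs.1 hs.2.1 (by linarith [hs.2.2.1]) hs.2.2.2.2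
      gcongr
    constructor
    · rw [e1]
      refine le_trans ?_ h1
      have h3 : T * Real.log T * w1 S r / 60 ≤
          (0.6725 - 1 / 10 - 1 / 10) * (T / 4 / (2 * Real.pi) * Real.log T * w1 S r) := by
        have h4 : (1 : ℝ) / 60 ≤ (0.6725 - 1 / 10 - 1 / 10) * (1 / 4 / (2 * Real.pi)) := by
          have h5 : (1 : ℝ) / 4 / 6.3 ≤ 1 / 4 / (2 * Real.pi) :=
            div_le_div_of_nonneg_left (by norm_num) (by positivity) (by linarith)
          have h6 : (1 : ℝ) / 60 ≤ (0.6725 - 1 / 10 - 1 / 10) * (1 / 4 / 6.3) := by norm_num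
          refine h6.trans ?_
          exact mul_le_mul_of_nonneg_left h5 (by norm_num)
        have h5 : 0 ≤ T * Real.log T * w1 S r := by positivity
        calc T * Real.log T * w1 S r / 60 = (1 / 60) * (T * Real.log T * w1 S r) := by ring
          _ ≤ ((0.6725 - 1 / 10 - 1 / 10) * (1 / 4 / (2 * Real.pi))) *
              (T * Real.log T * w1 S r) := by gcongr
          _ = _ := by ring
      refine h3.trans ?_
      have h4 : (0 : ℝ) ≤ 0.6725 - 1 / 10 - 1 / 10 := by norm_num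
      gcongr
    · refine e2.trans (h2.trans ?_)
      calc (1 + 1 / 10) * (T / 4 / (2 * Real.pi) * Real.log (5 / 4 * T) * w1 S r) ≤
          (1 + 1 / 10) * (T / 4 / (2 * 3) * (2 * Real.log T) * w1 S r) := by gcongr
        _ = (11 / 120) * (T * Real.log T * w1 S r) := by ring
        _ ≤ 1 * (T * Real.log T * w1 S r) := by
            gcongr
            norm_num
        _ = _ := one_mul _

end Run7.h311.EX
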