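import Pool.Agent.Run7.h311.EX.Sub
import Pool.Agent.R399.TW.Gauss

/-! # Sums over separated points on the critical line and area integrals -/

set_option autoImplicit false

open MeasureTheory Set Filter Topology Metric

namespace Run7.h311.EX

open Pool.Agent.R399.TW (pt pt_re pt_im pt_cont)

/-- the closed rectangle -/
def rect (x0 ρ a b : ℝ) : Set ℂ := (Icc (x0 - ρ) (x0 + ρ)) ×ℂ (Icc a b)

lemma mem_rect {x0 ρ a b : ℝ} {z : ℂ} :
    z ∈ rect x0 ρ a b ↔ |z.re - x0| ≤ ρ ∧ a ≤ z.im ∧ z.im ≤ b := by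
  unfold rect
  rw [Complex.mem_reProdIm, mem_Icc, mem_Icc, abs_le]
  constructor
  · rintro ⟨⟨h1, h2⟩, h3⟩
    exact ⟨⟨by linarith, by linarith⟩, h3⟩
  · rintro ⟨⟨h1, h2⟩, h3⟩
    exact ⟨⟨by linarith, by linarith⟩, h3⟩

lemma rect_compact (x0 ρ a b : ℝ) : IsCompact (rect x0 ρ a b) :=
  isCompact_Icc.reProdIm isCompact_Icc

lemma rect_integral (f : ℂ → ℝ) (x0 ρ a b : ℝ) (hρ : 0 ≤ ρ) (hab : a ≤ b)
    (hf : ContinuousOn f (rect x0 ρ a b)) :
    ∫ w in rect x0 ρ a b, f w = ∫ u in (-ρ)..ρ, ∫ y in a..b, f (pt (x0 + u) y) := by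
  have hle1 : x0 - ρ ≤ x0 + ρ := by linarith
  have hmp := Complex.volume_preserving_equiv_real_prod.symm
  have h1 := hmp.setIntegral_preimage_emb
    Complex.measurableEquivRealProd.symm.measurableEmbedding f (rect x0 ρ a b)
  rw [← h1]
  have hpre : Complex.measurableEquivRealProd.symm ⁻¹' (rect x0 ρ a b) =
      (Icc (x0 - ρ) (x0 + ρ)) ×ˢ (Icc a b) := by
    unfold rect
    ext p
    rw [Set.mem_preimage, Complex.mem_reProdIm, Set.mem_prod]
    rfl
  rw [hpre]
  have hfun : ∀ p : ℝ × ℝ, f (Complex.measurableEquivRealProd.symm p) = f (pt p.1 p.2) := by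
    intro p
    congr 1
    apply Complex.ext
    · simp [Complex.measurableEquivRealProd_symm_apply]
    · simp [Complex.measurableEquivRealProd_symm_apply]
  simp_rw [hfun]
  have hptc : Continuous fun p : ℝ × ℝ => pt p.1 p.2 := by
    unfold pt
    fun_prop
  have hcont : ContinuousOn (fun p : ℝ × ℝ => f (pt p.1 p.2))
      ((Icc (x0 - ρ) (x0 + ρ)) ×ˢ (Icc a b)) := by
    apply hf.comp hptc.continuousOn
    intro p hp
    unfold rect
    rw [Complex.mem_reProdIm, pt_re, pt_im]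
    exact ⟨hp.1, hp.2⟩
  have hint : IntegrableOn (fun p : ℝ × ℝ => f (pt p.1 p.2))
      ((Icc (x0 - ρ) (x0 + ρ)) ×ˢ (Icc a b)) :=
    hcont.integrableOn_compact (isCompact_Icc.prod isCompact_Icc)
  rw [Measure.volume_eq_prod] at hint ⊢
  rw [setIntegral_prod _ hint]
  have e1 : ∫ x in Icc (x0 - ρ) (x0 + ρ), ∫ y in Icc a b, f (pt x y) =
      ∫ x in (x0 - ρ)..(x0 + ρ), ∫ y in a..b, f (pt x y) := by
    rw [intervalIntegral.integral_of_le hle1, integral_Icc_eq_integral_Ioc]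
    congr 1
    funext x
    rw [intervalIntegral.integral_of_le hab, integral_Icc_eq_integral_Ioc]
  rw [e1]
  have e2 := intervalIntegral.integral_comp_add_left (a := -ρ) (b := ρ)
    (fun x => ∫ y in a..b, f (pt x y)) x0
  rw [e2]
  congr 1

/-- **integrals over balls around separated points** -/
theorem iso_int {G : ℂ → ℂ} {Z : Finset ℂ} {r a b X : ℝ} (hr : 0 < r)
    (hab : a ≤ b) (hZ : ∀ s ∈ Z, s.re = 1 / 2 ∧ a ≤ s.im ∧ s.im ≤ b)
    (hsep : ∀ s ∈ Z, ∀ s' ∈ Z, s ≠ s' → 2 * r ≤ ‖s - s'‖)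
    (hG : ∀ z : ℂ, |z.re - 1 / 2| ≤ r → a - r ≤ z.im → z.im ≤ b + r → AnalyticAt ℂ G z)
    (hX : ∀ u : ℝ, |u| ≤ r → ∫ t in (a - r)..(b + r), ‖G (pt (1 / 2 + u) t)‖ ^ 2 ≤ X) :
    ∑ s ∈ Z, ∫ z in ball s r, ‖G z‖ ^ 2 ≤ 2 * r * X := by
  have hcb : ∀ s ∈ Z, closedBall s r ⊆ rect (1 / 2) r (a - r) (b + r) := by
    intro s hs z hz
    obtain ⟨h1, h2, h3⟩ := hZ s hs
    rw [mem_closedBall, dist_eq_norm] at hz
    have e1 := (Complex.abs_re_le_norm (z - s)).trans hz
    have e2 := (Complex.abs_im_le_norm (z - s)).trans hz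
    rw [Complex.sub_re, h1] at e1
    rw [Complex.sub_im, abs_le] at e2
    rw [mem_rect]
    exact ⟨e1, by linarith [e2.1], by linarith [e2.2]⟩
  have hGr : ∀ z ∈ rect (1 / 2) r (a - r) (b + r), AnalyticAt ℂ G z := by
    intro z hz
    rw [mem_rect] at hz
    exact hG z hz.1 hz.2.1 hz.2.2
  have hGc : ContinuousOn (fun z => ‖G z‖ ^ 2) (rect (1 / 2) r (a - r) (b + r)) := by
    intro z hz
    exact ((hGr z hz).continuousAt.norm.pow 2).continuousWithinAt
  have hint : IntegrableOn (fun z => ‖G z‖ ^ 2) (rect (1 / 2) r (a - r) (b + r)) :=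
    hGc.integrableOn_compact (rect_compact _ _ _ _)
  have h2 : ∑ s ∈ Z, ∫ z in ball s r, ‖G z‖ ^ 2 = ∫ z in ⋃ s ∈ Z, ball s r, ‖G z‖ ^ 2 := by
    rw [integral_biUnion_finset]
    · intro s _
      exact measurableSet_ball
    · intro s hs s' hs' hne
      show Disjoint (ball s r) (ball s' r)
      apply ball_disjoint_ball
      rw [dist_eq_norm]
      have := hsep s hs s' hs' hne
      linarith
    · intro s hs
      exact hint.mono_set (ball_subset_closedBall.trans (hcb s hs))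
  have h3 : ∫ z in ⋃ s ∈ Z, ball s r, ‖G z‖ ^ 2 ≤
      ∫ z in rect (1 / 2) r (a - r) (b + r), ‖G z‖ ^ 2 := by
    refine setIntegral_mono_set hint (Filter.Eventually.of_forall fun w => by positivity) ?_
    refine (iUnion₂_subset fun s hs => ball_subset_closedBall.trans (hcb s hs)).eventuallyLE
  have hab' : a - r ≤ b + r := by linarith
  rw [rect_integral _ _ _ _ _ hr.le hab' hGc] at h3
  have hptc : Continuous fun p : ℝ × ℝ => pt (1 / 2 + p.1) p.2 := by
    unfold pt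
    fun_prop
  have h4 : ∫ u in (-r)..r, ∫ y in (a - r)..(b + r), ‖G (pt (1 / 2 + u) y)‖ ^ 2 ≤
      ∫ u in (-r)..r, X := by
    have hi : IntervalIntegrable (fun u => ∫ y in (a - r)..(b + r), ‖G (pt (1 / 2 + u) y)‖ ^ 2)
        volume (-r) r := by
      have h5 : ContinuousOn (fun p : ℝ × ℝ => ‖G (pt (1 / 2 + p.1) p.2)‖ ^ 2)
          ((Icc (-r) r) ×ˢ (Icc (a - r) (b + r))) := by
        refine hGc.comp hptc.continuousOn fun p hp => ?_
        rw [mem_rect, pt_re, pt_im]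
        refine ⟨?_, hp.2⟩
        rw [add_sub_cancel_left, abs_le]
        exact hp.1
      have h6 : IntegrableOn (fun p : ℝ × ℝ => ‖G (pt (1 / 2 + p.1) p.2)‖ ^ 2)
          ((Icc (-r) r) ×ˢ (Icc (a - r) (b + r))) (volume.prod volume) := by
        rw [← Measure.volume_eq_prod]
        exact h5.integrableOn_compact (isCompact_Icc.prod isCompact_Icc)
      rw [IntegrableOn, ← Measure.prod_restrict] at h6
      have h7 := h6.integral_prod_left
      rw [intervalIntegrable_iff_integrableOn_Icc_of_le (by linarith)]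
      refine h7.congr (Eventually.of_forall fun u => ?_)
      simp only
      rw [intervalIntegral.integral_of_le hab', integral_Icc_eq_integral_Ioc]
    refine intervalIntegral.integral_mono_on (by linarith) hi intervalIntegrable_const ?_
    intro u hu
    exact hX u (abs_le.2 hu)
  rw [intervalIntegral.integral_const, smul_eq_mul] at h4
  rw [h2]
  refine (h3.trans h4).trans (le_of_eq ?_)
  ring

/-- **sums over separated points** -/
theorem iso_sum {G : ℂ → ℂ} (hGm : Measurable G) {Z : Finset ℂ} {r a b X : ℝ} (hr : 0 < r)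
    (hab : a ≤ b) (hZ : ∀ s ∈ Z, s.re = 1 / 2 ∧ a ≤ s.im ∧ s.im ≤ b)
    (hsep : ∀ s ∈ Z, ∀ s' ∈ Z, s ≠ s' → 2 * r ≤ ‖s - s'‖)
    (hG : ∀ z : ℂ, |z.re - 1 / 2| ≤ r → a - r ≤ z.im → z.im ≤ b + r → AnalyticAt ℂ G z)
    (hX : ∀ u : ℝ, |u| ≤ r → ∫ t in (a - r)..(b + r), ‖G (pt (1 / 2 + u) t)‖ ^ 2 ≤ X) :
    ∑ s ∈ Z, ‖G s‖ ^ 2 ≤ 2 / (Real.pi * r) * X := by
  have hpi := Real.pi_pos
  have h0 := iso_int hr hab hZ hsep hG hX
  have h1 : ∀ s ∈ Z, Real.pi * r ^ 2 * ‖G s‖ ^ 2 ≤ ∫ z in ball s r, ‖G z‖ ^ 2 := by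
    intro s hs
    refine area_sq hGm hr fun z hz => ?_
    obtain ⟨h1, h2, h3⟩ := hZ s hs
    rw [mem_closedBall, dist_eq_norm] at hz
    have e1 := (Complex.abs_re_le_norm (z - s)).trans hz
    have e2 := (Complex.abs_im_le_norm (z - s)).trans hz
    rw [Complex.sub_re, h1] at e1
    rw [Complex.sub_im, abs_le] at e2
    exact hG z e1 (by linarith [e2.1]) (by linarith [e2.2])
  have h5 : Real.pi * r ^ 2 * ∑ s ∈ Z, ‖G s‖ ^ 2 ≤ 2 * r * X := by
    rw [Finset.mul_sum]
    exact (Finset.sum_le_sum h1).trans h0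
  have h6 : Real.pi * r ^ 2 * ∑ s ∈ Z, ‖G s‖ ^ 2 = (∑ s ∈ Z, ‖G s‖ ^ 2) * (Real.pi * r ^ 2) := by
    ring
  rw [h6, ← le_div_iff₀ (by positivity)] at h5
  refine h5.trans (le_of_eq ?_)
  field_simp

/-- an average over shifts -/
theorem avg_sum {Φ : ℂ → ℂ} {Z : Finset ℂ} {w : ℂ → ℝ} {v : ℂ} {r Y : ℝ} (hr : 0 < r)
    (hΦ : ∀ s ∈ Z, ContinuousOn Φ (closedBall (s + v) r))
    (h : ∀ z, ‖z‖ ≤ r → ∑ s ∈ Z, w s * ‖Φ (s + v + z)‖ ^ 2 ≤ Y) :
    ∑ s ∈ Z, w s * ∫ z in ball (s + v) r, ‖Φ z‖ ^ 2 ≤ Real.pi * r ^ 2 * Y := by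
  have h1 : ∀ s ∈ Z, ∫ z in ball (s + v) r, ‖Φ z‖ ^ 2 = ∫ z in ball 0 r, ‖Φ (s + v + z)‖ ^ 2 := by
    intro s _
    have e1 : ball (0 : ℂ) r = (fun z => s + v + z) ⁻¹' (ball (s + v) r) := by
      ext z
      simp [dist_eq_norm]
    rw [e1]
    exact ((measurePreserving_add_left volume (s + v)).setIntegral_preimage_emb
      (MeasurableEquiv.addLeft (s + v)).measurableEmbedding _ _).symm
  have hi : ∀ s ∈ Z, IntegrableOn (fun z => ‖Φ (s + v + z)‖ ^ 2) (ball 0 r) := by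
    intro s hs
    have h2 : ContinuousOn (fun z => ‖Φ (s + v + z)‖ ^ 2) (closedBall 0 r) := by
      refine (((hΦ s hs).comp (by fun_prop) fun z hz => ?_).norm.pow 2)
      rw [mem_closedBall, dist_eq_norm] at hz ⊢
      simpa using hz
    exact (h2.integrableOn_compact (isCompact_closedBall _ _)).mono_set ball_subset_closedBall
  calc ∑ s ∈ Z, w s * ∫ z in ball (s + v) r, ‖Φ z‖ ^ 2 =
      ∑ s ∈ Z, ∫ z in ball 0 r, w s * ‖Φ (s + v + z)‖ ^ 2 := by
        refine Finset.sum_congr rfl fun s hs => ?_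
        rw [h1 s hs, integral_const_mul]
    _ = ∫ z in ball 0 r, ∑ s ∈ Z, w s * ‖Φ (s + v + z)‖ ^ 2 := by
        rw [integral_finsetSum]
        intro s hs
        exact (hi s hs).const_mul _
    _ ≤ ∫ _z in ball (0 : ℂ) r, Y := by
        refine setIntegral_mono_on ?_ ?_ measurableSet_ball fun z hz => ?_
        · exact integrable_finsetSum _ fun s hs => (hi s hs).const_mul _
        · exact integrableOn_const measure_ball_lt_top.ne
        · rw [mem_ball, dist_eq_norm, sub_zero] at hz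
          exact h z hz.le
    _ = Real.pi * r ^ 2 * Y := by
        rw [setIntegral_const, smul_eq_mul]
        congr 1
        exact ball_vol 0 hr

/-- the derivative at a point and the area integral -/
theorem deriv_area {G : ℂ → ℂ} (hGm : Measurable G) {c : ℂ} {r : ℝ} (hr : 0 < r)
    (hG : AnalyticOnNhd ℂ G (closedBall c r)) :
    ‖deriv G c‖ ^ 2 ≤ 16 / (Real.pi * r ^ 4) * ∫ z in ball c r, ‖G z‖ ^ 2 := by
  have hpi := Real.pi_pos
  obtain ⟨B, hB⟩ := (isCompact_closedBall c r).exists_bound_of_continuousOn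
    (hG.continuousOn.norm.pow 2)
  have hqi : IntegrableOn (fun z => ‖G z‖ ^ 2) (ball c r) := by
    refine Measure.integrableOn_of_bounded (M := B) measure_ball_lt_top.ne
      (hGm.norm.pow_const 2).aestronglyMeasurable ?_
    exact (ae_restrict_iff' measurableSet_ball).2 (Eventually.of_forall fun z hz =>
      hB z (ball_subset_closedBall hz))
  set J := ∫ z in ball c r, ‖G z‖ ^ 2 with hJ
  have hJ0 : 0 ≤ J := integral_nonneg fun z => by positivity
  have h1 : ∀ z ∈ sphere c (r / 2), ‖G z‖ ≤ Real.sqrt (4 / (Real.pi * r ^ 2) * J) := by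
    intro z hz
    rw [mem_sphere, dist_eq_norm] at hz
    have hsub : closedBall z (r / 2) ⊆ closedBall c r := by
      apply closedBall_subset_closedBall'
      rw [dist_eq_norm, hz]
      linarith
    have hsub' : ball z (r / 2) ⊆ ball c r := by
      apply ball_subset_ball'
      rw [dist_eq_norm, hz]
      linarith
    have h2 := area_sq hGm (by linarith : 0 < r / 2) (hG.mono hsub)
    have h3 : ∫ w in ball z (r / 2), ‖G w‖ ^ 2 ≤ J :=
      setIntegral_mono_set hqi (Eventually.of_forall fun w => by positivity) hsub'.eventuallyLE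
    apply Real.le_sqrt_of_sq_le
    have h4 : ‖G z‖ ^ 2 * (Real.pi * r ^ 2) ≤ 4 * J := by nlinarith
    rw [div_mul_eq_mul_div, le_div_iff₀ (by positivity)]
    exact h4
  have hd : DiffContOnCl ℂ G (ball c (r / 2)) := by
    refine DifferentiableOn.diffContOnCl fun z hz => ?_
    have hz' : z ∈ closedBall c r :=
      closedBall_subset_closedBall (by linarith) (closure_ball_subset_closedBall hz)
    exact (hG z hz').differentiableAt.differentiableWithinAt
  have h2 := Complex.norm_deriv_le_of_forall_mem_sphere_norm_le (by linarith : 0 < r / 2) hd h1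
  calc ‖deriv G c‖ ^ 2 ≤ (Real.sqrt (4 / (Real.pi * r ^ 2) * J) / (r / 2)) ^ 2 :=
        pow_le_pow_left₀ (norm_nonneg _) h2 2
    _ = 16 / (Real.pi * r ^ 4) * J := by
        rw [div_pow, Real.sq_sqrt (by positivity)]
        field_simp
        ring

end Run7.h311.EX
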