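import Pool.Agent.Run7.h311.EX.Ext

/-! # Large values of the derivative at isolated simple zeros -/

set_option autoImplicit false

open Complex Filter Topology Set MeasureTheory
open scoped BigOperators ComplexConjugate

namespace Run7.h311.EX

open Pool.Agent.N802 Pool.Agent.N802.U Pool.Agent.N802.WD Pool.Agent.N802.WD.Msd
open Pool.Agent.R399.TW (pt pt_re pt_im pt_cont)

theorem large {d0 δf Tf δt : ℝ} (hd0 : 0 < d0) (hd1 : d0 ≤ 1 / 10) (hδf : 0 < δf)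
    (hF : FrameP d0 δf Tf) (hδt : 0 < δt) :
    ∃ c T0 : ℝ, 0 < c ∧ ∀ T : ℝ, T0 ≤ T → ∃ G : Finset ℂ,
    (∀ s ∈ G, Iz d0 T s ∧ Real.exp (c * Real.sqrt (Real.log T / Real.log (Real.log T))) ≤
      ‖deriv riemannZeta s‖) ∧ T ^ (1 - δt) ≤ (G.card : ℝ) := by
  obtain ⟨q, hq⟩ : ∃ q : ℕ, Msdq q := msd op
  obtain ⟨κ, c₀, C₀, C, δr, Tr, hκ, hc₀, hC₀, hC, hδr, hTr, hX⟩ := rightX cut hq ker
    (β₁ := 1 / 10) (β₂ := 1 / 5) (by norm_num) (by norm_num) le_rfl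
  obtain ⟨μ, hμ⟩ : ∃ μ : ℝ, μ = min (min δf δr) (min δt (1 / 8)) := ⟨_, rfl⟩
  have hμ0 : 0 < μ := by rw [hμ]; exact lt_min (lt_min hδf hδr) (lt_min hδt (by norm_num))
  have hμf : μ ≤ δf := by rw [hμ]; exact (min_le_left _ _).trans (min_le_left _ _)
  have hμr : μ ≤ δr := by rw [hμ]; exact (min_le_left _ _).trans (min_le_right _ _)
  have hμt : μ ≤ δt := by rw [hμ]; exact (min_le_right _ _).trans (min_le_left _ _)
  have hμ8 : μ ≤ 1 / 8 := by rw [hμ]; exact (min_le_right _ _).trans (min_le_right _ _)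
  obtain ⟨c₁, C₁, hc₁, hC₁, hcut1⟩ := cut (μ / 4) (μ / 2) (2 * κ + 1) (q + 4) (by positivity)
    (by linarith) (by linarith)
  obtain ⟨a, δm, Tm, ha, hδm, hTm, hm⟩ := hq (μ / 4) (μ / 2) (1 / 10) (1 / 5) κ (min c₀ c₁)
    (max C₀ C₁) 1 (by positivity) (by linarith) (by norm_num) (by norm_num) (by linarith)
    hκ (lt_min hc₀ hc₁) (lt_max_of_lt_left hC₀) one_pos
  obtain ⟨δs, hδs⟩ : ∃ δs : ℝ, δs = min (μ / 4) δm := ⟨_, rfl⟩
  have hδs0 : 0 < δs := by rw [hδs]; exact lt_min (by positivity) hδm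
  have hδsμ : δs ≤ μ / 4 := by rw [hδs]; exact min_le_left _ _
  have hδsm : δs ≤ δm := by rw [hδs]; exact min_le_right _ _
  obtain ⟨cR, TR, hcR, hTR, hres⟩ := resset hδs0 (by linarith)
  obtain ⟨Tq, hTq⟩ := ev_quarter hδs0
  obtain ⟨C₂, hC₂⟩ : ∃ C₂ : ℝ, C₂ = 6 / d0 * (C * Real.exp 3) := ⟨_, rfl⟩
  have hC₂0 : 0 < C₂ := by rw [hC₂]; positivity
  obtain ⟨Cs, L0, hL0, hcore⟩ := large_core hd0 hd1 (β := 1 / 10) (by norm_num) (by norm_num) hC₂0
  obtain ⟨X, hXd⟩ : ∃ X : ℝ, X = a * (2 ^ q * Real.exp (1 + 2)) := ⟨_, rfl⟩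
  have hX0 : 0 < X := by rw [hXd]; positivity
  obtain ⟨C', hC'⟩ : ∃ C' : ℝ, C' = |Cs| + |1 / 2 * Real.log (12 / d0 * X)| := ⟨_, rfl⟩
  have hC'0 : 0 ≤ C' := by rw [hC']; positivity
  obtain ⟨K, hK⟩ : ∃ K : ℝ, K = 1 + (128 * C') ^ 2 / cR := ⟨_, rfl⟩
  have hK1 : 1 ≤ K := by rw [hK]; have : 0 ≤ (128 * C') ^ 2 / cR := by positivity
                         linarith
  obtain ⟨Tl, hTl, hlog⟩ := ev_log3 K (by linarith)
  refine ⟨Real.sqrt cR / 128, max (max (max Tf Tr) (max Tm TR)) (max (max Tq Tl)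
    (Real.exp (max L0 120))), by positivity, fun T hT => ?_⟩
  have hT1 := (le_max_left _ _).trans hT
  have hT2 := (le_max_right _ _).trans hT
  have hTTf : Tf ≤ T := ((le_max_left _ _).trans (le_max_left _ _)).trans hT1
  have hTTr : Tr ≤ T := ((le_max_right _ _).trans (le_max_left _ _)).trans hT1
  have hTTm : Tm ≤ T := ((le_max_left _ _).trans (le_max_right _ _)).trans hT1
  have hTTR : TR ≤ T := ((le_max_right _ _).trans (le_max_right _ _)).trans hT1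
  have hTTq : Tq ≤ T := ((le_max_left _ _).trans (le_max_left _ _)).trans hT2
  have hTTl : Tl ≤ T := ((le_max_right _ _).trans (le_max_left _ _)).trans hT2
  have hTTe : Real.exp (max L0 120) ≤ T := (le_max_right _ _).trans hT2
  have hT100 : 100 ≤ T := hTl.trans hTTl
  have hTp : 0 < T := by linarith
  have hT1' : 1 ≤ T := by linarith
  obtain ⟨L, hL⟩ : ∃ L : ℝ, L = Real.log T := ⟨_, rfl⟩
  have hLb : max L0 120 ≤ L := by
    rw [hL, Real.le_log_iff_exp_le hTp]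
    exact hTTe
  have hLL0 : L0 ≤ L := (le_max_left _ _).trans hLb
  have hL120 : 120 ≤ L := (le_max_right _ _).trans hLb
  have hLp : 0 < L := by linarith
  obtain ⟨V, Kv, hcf, hR⟩ := hX T hTTr
  obtain ⟨V₁, K₁, hcf1⟩ := hcut1 (Real.log T) (by rw [← hL]; linarith)
  have hcf' := BootN.cutf_mono hcf (min_le_left c₀ c₁) (le_max_left C₀ C₁) hC₀.le
  have hcf1' := BootN.cutf_mono hcf1 (min_le_right c₀ c₁) (le_max_right C₀ C₁) hC₁.le
  have hmT := hm T hTTm V₁ V K₁ Kv hcf1' hcf'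
  obtain ⟨N, k, hk, hkN, hN1, hS1, hS2, hNk, hkL⟩ := hres T hTTR
  obtain ⟨hq4, Z, hiz, hpts, hZ⟩ := hF T hTTf
  have hδq := hTq T hTTq
  -- the weight
  have hXα : ∀ B ∈ SK (PN N) k, ((∏ p ∈ B, p : ℕ) : ℝ) ≤ T ^ δs := by
    intro B hB
    have h1 := (SS_le PN_prime (N := (N : ℝ) ^ 2) (fun p hp => by exact_mod_cast (PN_mem hp).2)
      (one_le_pow₀ (by exact_mod_cast hN1)) (Finset.mem_image_of_mem _ hB)).2
    exact h1.trans hNk
  have hTs : T ^ δs ≤ (⌊T ^ (μ / 2)⌋₊ : ℝ) := by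
    have h1 : T ^ δs * 2 ≤ T ^ (μ / 2) := by
      calc T ^ δs * 2 ≤ T ^ δs * T ^ δs := by
            gcongr
            have h2 : T ^ (1 - δs) * T ^ δs = T := by
              rw [← Real.rpow_add hTp, sub_add_cancel, Real.rpow_one]
            have h3 : 0 < T ^ (1 - δs) := by positivity
            have h4 : 0 < T ^ δs := by positivity
            by_contra hc
            push Not at hc
            nlinarith
        _ = T ^ (δs + δs) := (Real.rpow_add hTp _ _).symm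
        _ ≤ T ^ (μ / 2) := Real.rpow_le_rpow_of_exponent_le hT1' (by linarith)
    have h2 := Nat.lt_floor_add_one (T ^ (μ / 2))
    have h3 : 1 ≤ T ^ δs := Real.one_le_rpow hT1' hδs0.le
    linarith
  have hb := hb_D (k := k) (PN_prime (N := N)) (X := T ^ δs) (y := μ / 4 * Real.log T)
    (M := ⌊T ^ (μ / 2)⌋₊) (V := V₁) hXα hTs (by
      rw [Real.log_rpow hTp]
      gcongr
      rw [← hL]
      exact hLp.le) hcf1.one
  obtain ⟨hSlen, hQlen, hmul, hw1, hw0⟩ := weight (μ := μ) hT100 (by positivity : 0 < μ / 2) hδs0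
    (by linarith) (by linarith) hk hkN hN1 hS1 hS2 hNk (s := 1) (by norm_num) hb
  set S₀ := SS (PN N) k with hS₀
  set r₀ := rr 1 (Real.sqrt k / 4) with hr₀
  set Q := Finset.Icc 1 ⌊T ^ μ⌋₊ with hQ
  set r' := cv (Finset.Icc 1 ⌊T ^ (μ / 2)⌋₊) S₀ (dn V₁ (1 / 2) 0) r₀ with hr'
  set M := Mp V ⌊T ^ (1 / 5 : ℝ)⌋₊ with hM
  have hMd : Differentiable ℂ M := WD.Mp_diff V _
  obtain ⟨W, hW⟩ : ∃ W : ℝ, W = T * L * w1 Q r' := ⟨_, rfl⟩
  have hWp : 0 < W := by rw [hW]; positivity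
  obtain ⟨Θ, hΘ⟩ : ∃ Θ : ℝ, Θ = 12 / d0 * X * Real.exp (-(Real.sqrt k / 32)) := ⟨_, rfl⟩
  have hΘ0 : 0 < Θ := by rw [hΘ]; positivity
  have hfr := hZ Q (Len_mono hQlen (Real.rpow_le_rpow_of_exponent_le hT1' hμf)) r'
  have hRPQ : ∀ s ∈ Z, ‖RP Q r' s.im‖ ^ 2 =
      ‖RP S₀ r₀ s.im‖ ^ 2 * ‖Dp V₁ ⌊T ^ (μ / 2)⌋₊ s‖ ^ 2 := by
    intro s hs
    rw [← hmul s.im, norm_mul, mul_pow, mul_comm]
    congr 2
    have h1 := Dp_eq V₁ ⌊T ^ (μ / 2)⌋₊ (1 / 2) 0 s.im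
    rw [← h1, add_zero]
    congr 2
    apply Complex.ext
    · rw [pt_re, (hiz s hs).re]
    · rw [pt_im]
  have hρ1 : d0 / (4 * L) ≤ 1 / (8 * L) := by
    rw [div_le_div_iff₀ (by positivity) (by positivity)]
    nlinarith
  have hpts' : Pts T (d0 / (4 * L)) Z := by rw [hL]; exact hpts
  have hsm : ∀ z : ℂ, ‖z‖ ≤ d0 / (4 * L) →
      ∑ s ∈ Z, ‖RP Q r' s.im‖ ^ 2 * ‖M (s + z)‖ ^ 2 ≤ Θ * W := by
    intro z hz
    have h1 := dm_sum (T := T) (L := L) (a := a) (δ := δs) (ε := 1) (κ := κ) (α₂ := μ / 2)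
      (β₂ := 1 / 5) (q := q) (V₁ := V₁) (V₂ := V) hT100 hL (by linarith) ha.le one_pos.le hκ
      (fun x => ⟨hcf1.nn x, hcf1.le x⟩) (fun x => ⟨hcf.nn x, hcf.le x⟩)
      (fun S hS r τ H hH => hmT S (Len_mono hS (Real.rpow_le_rpow_of_exponent_le hT1' hδsm)) r τ H
        ((Real.rpow_le_rpow_of_exponent_le hT1' (by linarith)).trans hH))
      hSlen (by linarith) hδq r₀ (by positivity : 0 < d0 / (4 * L)) hρ1 hpts' (v := z)
      (hz.trans hρ1)
    have h2 : ∑ s ∈ Z, ‖RP Q r' s.im‖ ^ 2 * ‖M (s + z)‖ ^ 2 =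
        ∑ s ∈ Z, ‖RP S₀ r₀ s.im‖ ^ 2 * ‖Dp V₁ ⌊T ^ (μ / 2)⌋₊ s * M (s + z)‖ ^ 2 := by
      refine Finset.sum_congr rfl fun s hs => ?_
      rw [hRPQ s hs, norm_mul, mul_pow]
      ring
    rw [h2]
    refine h1.trans ?_
    rw [← hXd]
    refine (const_le hTp.le hLp hd0 hX0.le S₀ r₀).trans ?_
    rw [hΘ, hW]
    calc 6 / d0 * X * (T * L * w1 S₀ r₀) ≤
        6 / d0 * X * (T * L * (2 * Real.exp (-(Real.sqrt k / 32)) * w1 Q r')) := by gcongr
      _ = _ := by ring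
  have hrt : ∀ v : ℂ, -(3 / (8 * L)) ≤ v.re → v.re ≤ 20 → |v.im| ≤ 20 →
      ∑ s ∈ Z, ‖RP Q r' s.im‖ ^ 2 * ‖riemannZeta (s + v) * M (s + v) - 1‖ ^ 2 ≤
        C₂ * Real.exp (-(1 / 10 * L * v.re)) * W := by
    intro v hv1 hv2 hv3
    have hδq' : T ^ (1 - μ) ≤ T / 4 :=
      (Real.rpow_le_rpow_of_exponent_le hT1' (by linarith)).trans hδq
    have h1 := moll_sum (T := T) (L := L) (C := C) (δ := μ) (β₁ := 1 / 10) (β₂ := 1 / 5) (V := V)
      hT100 hL (by linarith) hC.le (by norm_num) (by norm_num)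
      (fun S hS r τ H hH => hR S (Len_mono hS (Real.rpow_le_rpow_of_exponent_le hT1' hμr)) r τ H
        ((Real.rpow_le_rpow_of_exponent_le hT1' (by linarith)).trans hH))
      hQlen (by linarith) hδq' r' (by positivity : 0 < d0 / (4 * L)) hρ1 hpts' hv1 hv2 hv3
    refine h1.trans ?_
    refine (const_le hTp.le hLp hd0 (by positivity) Q r').trans (le_of_eq ?_)
    rw [hC₂, hW]
    ring
  have hmain := hcore T L hT100 hL hLL0 Z hiz M hMd (fun s => ‖RP Q r' s.im‖ ^ 2)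
    (fun s _ => sq_nonneg _) W hWp.le (by rw [hW, hL]; exact hfr.1) (by rw [hW, hL]; exact hfr.2)
    Θ hΘ0 hsm hrt
  refine ⟨_, ?_, (Real.rpow_le_rpow_of_exponent_le hT1' (by linarith)).trans
    (card_ge hT100 hμ0 hQlen hw0 (by rw [← hL]; exact hL120) (by
      rw [hW, hL] at hmain
      exact hmain))⟩
  intro s hs
  rw [Finset.mem_filter] at hs
  refine ⟨hiz s hs.1, ?_⟩
  have hiz' := hiz s hs.1
  have hsim : 1 < s.im := by linarith [hiz'.lo]
  have hder : 0 < ‖deriv riemannZeta s‖ :=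
    norm_pos_iff.2 (deriv_of_order (ne_one hsim) hiz'.zero hiz'.simple)
  rw [← Real.le_log_iff_exp_le hder]
  refine le_trans ?_ hs.2
  have hlT : Real.log Θ = Real.log (12 / d0 * X) - Real.sqrt k / 32 := by
    rw [hΘ, Real.log_mul (by positivity) (Real.exp_pos _).ne', Real.log_exp]
    ring
  rw [hlT, ← hL]
  have hlogL : 0 ≤ Real.log L := Real.log_nonneg (by linarith)
  have hloglog := hlog T hTTl
  rw [← hL] at hloglog hkL
  have hll1 : 1 ≤ Real.log L := hK1.trans hloglog.1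
  have hllp : 0 < Real.log L := by linarith
  -- the lower bound for `√k`
  have hKL : K ≤ L / Real.log L := by
    rw [le_div_iff₀ hllp]
    refine le_trans ?_ hloglog.2
    have h1 : Real.log L ≤ Real.log L ^ 3 := by
      calc Real.log L = Real.log L ^ 1 := (pow_one _).symm
        _ ≤ Real.log L ^ 3 := pow_le_pow_right₀ hll1 (by norm_num)
    gcongr
  have hsk : Real.sqrt cR * Real.sqrt (L / Real.log L) ≤ Real.sqrt k := by
    rw [← Real.sqrt_mul hcR.le]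
    exact Real.sqrt_le_sqrt hkL
  have hsK : 128 * C' ≤ Real.sqrt cR * Real.sqrt (L / Real.log L) := by
    rw [← Real.sqrt_mul hcR.le]
    apply Real.le_sqrt_of_sq_le
    calc (128 * C') ^ 2 = cR * ((128 * C') ^ 2 / cR) := by field_simp
      _ ≤ cR * K := by
          gcongr
          rw [hK]
          linarith
      _ ≤ cR * (L / Real.log L) := by gcongr
  have h1 := le_abs_self Cs
  have h2 := le_abs_self (1 / 2 * Real.log (12 / d0 * X))
  linarith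

end Run7.h311.EX
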