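import Pool.Agent.Run7.h311.EX.Iso
import Pool.Agent.Run7.h311.EX.RightX

/-! # Sums over separated points on the critical line and weighted mean squares -/

set_option autoImplicit false

open Complex Filter Topology Set MeasureTheory
open scoped BigOperators ComplexConjugate

namespace Run7.h311.EX

open TC (om om_pos om_cont)
open Pool.Agent.N802 Pool.Agent.N802.U Pool.Agent.N802.WD
open Pool.Agent.R399.TW (pt pt_re pt_im pt_cont)

/-- the coefficients `r(n) n ^ (-u)` -/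
noncomputable def ru (r : ℕ → ℂ) (u : ℝ) (n : ℕ) : ℂ :=
  r n * ((Real.exp (-(u * Real.log n)) : ℝ) : ℂ)

/-- the Dirichlet polynomial as an entire function -/
noncomputable def Rc (S : Finset ℕ) (r : ℕ → ℂ) (z : ℂ) : ℂ :=
  ∑ n ∈ S, r n * cexp (-((z - 1 / 2) * Real.log n))

lemma ru_zero (r : ℕ → ℂ) : ru r 0 = r := by
  funext n
  unfold ru
  simp

lemma Rc_pt (S : Finset ℕ) (r : ℕ → ℂ) (u t : ℝ) : Rc S r (pt (1 / 2 + u) t) = RP S (ru r u) t := by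
  unfold Rc RP TP ru mn
  refine Finset.sum_congr rfl fun n _ => ?_
  rw [mul_assoc]
  congr 1
  rw [Complex.ofReal_exp, ← Complex.exp_add]
  congr 1
  unfold pt
  rw [Nat.cast_one, Real.log_one]
  push_cast
  ring

lemma Rc_line (S : Finset ℕ) (r : ℕ → ℂ) {s : ℂ} (hs : s.re = 1 / 2) : Rc S r s = RP S r s.im := by
  have h1 := Rc_pt S r 0 s.im
  rw [ru_zero, add_zero] at h1
  rw [← h1]
  congr 1
  apply Complex.ext
  · rw [pt_re, hs]
  · rw [pt_im]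

lemma Rc_diff (S : Finset ℕ) (r : ℕ → ℂ) : Differentiable ℂ (Rc S r) := by
  unfold Rc
  fun_prop

lemma w1_ru {S : Finset ℕ} {N L u : ℝ} (hS : Len S N) (hL : 0 < L) (hN : Real.log N ≤ L)
    (hu : |u| ≤ 1 / L) (r : ℕ → ℂ) : w1 S (ru r u) ≤ Real.exp 2 * w1 S r := by
  unfold w1
  rw [Finset.mul_sum]
  refine Finset.sum_le_sum fun n hn => ?_
  obtain ⟨h1, h2⟩ := hS n hn
  have hn1 : (1 : ℝ) ≤ n := by exact_mod_cast h1
  have hl0 : 0 ≤ Real.log n := Real.log_nonneg hn1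
  have hl : Real.log n ≤ L := (Real.log_le_log (by linarith) h2).trans hN
  unfold ru
  rw [norm_mul, mul_pow, Complex.norm_real, Real.norm_of_nonneg (Real.exp_pos _).le,
    ← Real.exp_nat_mul, mul_comm]
  refine mul_le_mul_of_nonneg_right ?_ (sq_nonneg _)
  apply Real.exp_le_exp.2
  push_cast
  have h3 : |u * Real.log n| ≤ 1 := by
    rw [abs_mul, abs_of_nonneg hl0]
    calc |u| * Real.log n ≤ 1 / L * L := by gcongr
      _ = 1 := by field_simp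
  have h4 := neg_le_abs (u * Real.log n)
  linarith

/-- the integral over a line -/
lemma line_one {T : ℝ} (hT : 100 ≤ T) {S : Finset ℕ} {r : ℕ → ℂ} {ρ : ℝ} (hρ : 0 < ρ)
    (hρ1 : ρ ≤ 1) {Φ : ℂ → ℂ}
    (hΦ : ∀ z : ℂ, |z.re - 1 / 2| ≤ ρ → T ≤ z.im → z.im ≤ 2 * T → AnalyticAt ℂ Φ z) {X : ℝ}
    (hX : ∀ u : ℝ, |u| ≤ ρ → ∫ t in T..(2 * T), rh (11 / 8 * T) (T / 4) S (ru r u) t *
      ‖Φ (pt (1 / 2 + u) t)‖ ^ 2 ≤ X) (u : ℝ) (hu : |u| ≤ ρ) :
    ∫ t in (5 / 4 * T - ρ)..(3 / 2 * T + ρ),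
      ‖(fun z => Rc S r z * Φ z) (pt (1 / 2 + u) t)‖ ^ 2 ≤ 2 * X := by
  have h2 := hX u hu
  set g : ℝ → ℝ := fun t => rh (11 / 8 * T) (T / 4) S (ru r u) t *
    ‖Φ (pt (1 / 2 + u) t)‖ ^ 2 with hg
  have hc : ContinuousOn g (Icc T (2 * T)) := by
    refine (rh_cont _ _ _ _).continuousOn.mul (ContinuousOn.pow (ContinuousOn.norm ?_) 2)
    intro t ht
    refine ContinuousAt.continuousWithinAt ?_
    refine ContinuousAt.comp (f := fun t : ℝ => pt (1 / 2 + u) t) (g := Φ) ?_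
      (pt_cont _).continuousAt
    refine (hΦ _ ?_ ?_ ?_).continuousAt
    · rw [pt_re, add_sub_cancel_left]; exact hu
    · rw [pt_im]; exact ht.1
    · rw [pt_im]; exact ht.2
  have hg0 : ∀ t, 0 ≤ g t := fun t => mul_nonneg (rh_nonneg _ _ _ _ t) (sq_nonneg _)
  have hii : IntervalIntegrable g volume T (2 * T) := by
    refine ContinuousOn.intervalIntegrable ?_
    rw [uIcc_of_le (by linarith)]
    exact hc
  have h3 : ∫ t in (5 / 4 * T - ρ)..(3 / 2 * T + ρ), g t ≤ ∫ t in T..(2 * T), g t := by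
    refine intervalIntegral.integral_mono_interval (by linarith) (by linarith) (by linarith)
      (Eventually.of_forall hg0) hii
  have h4 : ∫ t in (5 / 4 * T - ρ)..(3 / 2 * T + ρ),
      ‖Rc S r (pt (1 / 2 + u) t) * Φ (pt (1 / 2 + u) t)‖ ^ 2 ≤
      ∫ t in (5 / 4 * T - ρ)..(3 / 2 * T + ρ), 2 * g t := by
    have hsub : Icc (5 / 4 * T - ρ) (3 / 2 * T + ρ) ⊆ Icc T (2 * T) :=
      Icc_subset_Icc (by linarith) (by linarith)
    refine intervalIntegral.integral_mono_on (by linarith) ?_ ?_ ?_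
    · refine ContinuousOn.intervalIntegrable ?_
      rw [uIcc_of_le (by linarith)]
      refine ContinuousOn.pow (ContinuousOn.norm (ContinuousOn.mul ?_ ?_)) 2
      · exact ((Rc_diff S r).continuous.comp (pt_cont _)).continuousOn
      · intro t ht
        have ht' := hsub ht
        refine ContinuousAt.continuousWithinAt ?_
        refine ContinuousAt.comp (f := fun t : ℝ => pt (1 / 2 + u) t) (g := Φ) ?_
          (pt_cont _).continuousAt
        refine (hΦ _ ?_ ?_ ?_).continuousAt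
        · rw [pt_re, add_sub_cancel_left]; exact hu
        · rw [pt_im]; exact ht'.1
        · rw [pt_im]; exact ht'.2
    · refine (ContinuousOn.intervalIntegrable ?_).const_mul 2
      rw [uIcc_of_le (by linarith)]
      exact hc.mono hsub
    · intro t ht
      have hom : 1 / 2 ≤ om (11 / 8 * T) (T / 4) t := by
        unfold om
        have h5 : -(1 / 2 : ℝ) ≤ -(t - 11 / 8 * T) ^ 2 / (2 * (T / 4) ^ 2) := by
          rw [neg_div, neg_le_neg_iff, div_le_div_iff₀ (by positivity) (by norm_num)]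
          have h6 : |t - 11 / 8 * T| ≤ T / 8 + 1 := by
            rw [abs_le]
            constructor <;> linarith [ht.1, ht.2]
          have h7 := sq_abs (t - 11 / 8 * T)
          have h8 := abs_nonneg (t - 11 / 8 * T)
          have h9 : |t - 11 / 8 * T| ≤ T / 4 := by linarith
          nlinarith
        have h6 := Real.exp_le_exp.2 h5
        have h7 := Real.add_one_le_exp (-(1 / 2 : ℝ))
        linarith
      show ‖Rc S r (pt (1 / 2 + u) t) * Φ (pt (1 / 2 + u) t)‖ ^ 2 ≤ 2 * g t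
      rw [hg]
      simp only
      unfold rh
      rw [norm_mul, mul_pow, Rc_pt]
      have h5 : 0 ≤ ‖RP S (ru r u) t‖ ^ 2 * ‖Φ (pt (1 / 2 + u) t)‖ ^ 2 := by positivity
      nlinarith
  rw [intervalIntegral.integral_const_mul] at h4
  linarith

/-- **integrals over balls around separated points, weighted** -/
theorem line_int {T : ℝ} (hT : 100 ≤ T) {S : Finset ℕ} {r : ℕ → ℂ} {ρ : ℝ} (hρ : 0 < ρ)
    (hρ1 : ρ ≤ 1) {Z : Finset ℂ} (hZ : ∀ s ∈ Z, s.re = 1 / 2 ∧ 5 / 4 * T ≤ s.im ∧ s.im ≤ 3 / 2 * T)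
    (hsep : ∀ s ∈ Z, ∀ s' ∈ Z, s ≠ s' → 2 * ρ ≤ ‖s - s'‖) {Φ : ℂ → ℂ}
    (hΦ : ∀ z : ℂ, |z.re - 1 / 2| ≤ ρ → T ≤ z.im → z.im ≤ 2 * T → AnalyticAt ℂ Φ z) {X : ℝ}
    (hX : ∀ u : ℝ, |u| ≤ ρ → ∫ t in T..(2 * T), rh (11 / 8 * T) (T / 4) S (ru r u) t *
      ‖Φ (pt (1 / 2 + u) t)‖ ^ 2 ≤ X) :
    ∑ s ∈ Z, ∫ z in Metric.ball s ρ, ‖Rc S r z * Φ z‖ ^ 2 ≤ 4 * ρ * X := by
  have h1 := iso_int (G := fun z => Rc S r z * Φ z) (Z := Z) (r := ρ) (a := 5 / 4 * T)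
    (b := 3 / 2 * T) (X := 2 * X) hρ (by linarith) hZ hsep
    (fun z hz1 hz2 hz3 => ((Rc_diff S r).analyticAt z).mul
      (hΦ z hz1 (by linarith) (by linarith))) (line_one hT hρ hρ1 hΦ hX)
  refine h1.trans (le_of_eq ?_)
  ring

/-- **sums over separated points, weighted** -/
theorem line_sum {T : ℝ} (hT : 100 ≤ T) {S : Finset ℕ} {r : ℕ → ℂ} {ρ : ℝ} (hρ : 0 < ρ)
    (hρ1 : ρ ≤ 1) {Z : Finset ℂ} (hZ : ∀ s ∈ Z, s.re = 1 / 2 ∧ 5 / 4 * T ≤ s.im ∧ s.im ≤ 3 / 2 * T)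
    (hsep : ∀ s ∈ Z, ∀ s' ∈ Z, s ≠ s' → 2 * ρ ≤ ‖s - s'‖) {Φ : ℂ → ℂ} (hΦm : Measurable Φ)
    (hΦ : ∀ z : ℂ, |z.re - 1 / 2| ≤ ρ → T ≤ z.im → z.im ≤ 2 * T → AnalyticAt ℂ Φ z) {X : ℝ}
    (hX : ∀ u : ℝ, |u| ≤ ρ → ∫ t in T..(2 * T), rh (11 / 8 * T) (T / 4) S (ru r u) t *
      ‖Φ (pt (1 / 2 + u) t)‖ ^ 2 ≤ X) :
    ∑ s ∈ Z, ‖RP S r s.im‖ ^ 2 * ‖Φ s‖ ^ 2 ≤ 4 / (Real.pi * ρ) * X := by
  have hpi := Real.pi_pos
  have hGm : Measurable fun z => Rc S r z * Φ z :=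
    (Rc_diff S r).continuous.measurable.mul hΦm
  have h1 := iso_sum (G := fun z => Rc S r z * Φ z) hGm (Z := Z) (r := ρ) (a := 5 / 4 * T)
    (b := 3 / 2 * T) (X := 2 * X) hρ (by linarith) hZ hsep
    (fun z hz1 hz2 hz3 => ((Rc_diff S r).analyticAt z).mul
      (hΦ z hz1 (by linarith) (by linarith))) (line_one hT hρ hρ1 hΦ hX)
  have h2 : ∑ s ∈ Z, ‖RP S r s.im‖ ^ 2 * ‖Φ s‖ ^ 2 = ∑ s ∈ Z, ‖Rc S r s * Φ s‖ ^ 2 := by
    refine Finset.sum_congr rfl fun s hs => ?_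
    rw [norm_mul, mul_pow, Rc_line S r (hZ s hs).1]
  rw [h2]
  refine h1.trans (le_of_eq ?_)
  ring

end Run7.h311.EX
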