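import Pool.Agent.N802.WD.Msd

/-! # Resonators: products of few primes -/

set_option autoImplicit false

open scoped BigOperators

namespace Run7.h311.EX

open Pool.Agent.N802 Pool.Agent.N802.U Pool.Agent.N802.WD Pool.Agent.N802.WD.Msd

/-- the subsets with at most `k` elements -/
def SK (P : Finset ℕ) (k : ℕ) : Finset (Finset ℕ) := P.powerset.filter (fun A => A.card ≤ k)

lemma mem_SK {P : Finset ℕ} {k : ℕ} {A : Finset ℕ} : A ∈ SK P k ↔ A ⊆ P ∧ A.card ≤ k := by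
  unfold SK
  rw [Finset.mem_filter, Finset.mem_powerset]

lemma trunc_le {P : Finset ℕ} {x : ℕ → ℝ} (hx : ∀ p, 0 ≤ x p) (k : ℕ) :
    ∑ A ∈ SK P k, ∏ p ∈ A, x p ≤ ∏ p ∈ P, (1 + x p) := by
  rw [Finset.prod_one_add]
  exact Finset.sum_le_sum_of_subset_of_nonneg (Finset.filter_subset _ _)
    fun A _ _ => Finset.prod_nonneg fun p _ => hx p

lemma half_pow {k : ℕ} (hk : 10 ≤ k) : (1 / 2 : ℝ) ^ k * Real.exp (k / 2) ≤ 1 / 2 := by
  have h1 : Real.exp ((k : ℝ) / 2) = Real.exp (1 / 2) ^ k := by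
    rw [← Real.exp_nat_mul]
    congr 1
    ring
  rw [h1, ← mul_pow]
  have h2 : Real.exp (1 / 2) ≤ 7 / 4 := by
    have h3 := Real.exp_one_lt_d9
    have h4 : Real.exp (1 / 2) ^ 2 = Real.exp 1 := by
      rw [← Real.exp_nat_mul]
      norm_num
    have h5 := Real.exp_pos (1 / 2)
    nlinarith
  have h5 := Real.exp_pos (1 / 2)
  calc (1 / 2 * Real.exp (1 / 2)) ^ k ≤ (7 / 8 : ℝ) ^ k := by
        gcongr
        linarith
    _ ≤ (7 / 8 : ℝ) ^ 10 := pow_le_pow_of_le_one (by norm_num) (by norm_num) hk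
    _ ≤ 1 / 2 := by norm_num

lemma trunc_ge {P : Finset ℕ} {x : ℕ → ℝ} (hx : ∀ p, 0 ≤ x p) {k : ℕ} (hk : 10 ≤ k)
    (h : ∑ p ∈ P, x p ≤ k / 2) :
    1 / 2 * ∏ p ∈ P, (1 + x p) ≤ ∑ A ∈ SK P k, ∏ p ∈ A, x p := by
  have h0 : ∏ p ∈ P, (1 + x p) = ∑ A ∈ SK P k, ∏ p ∈ A, x p +
      ∑ A ∈ P.powerset.filter (fun A => ¬ A.card ≤ k), ∏ p ∈ A, x p := by
    rw [Finset.prod_one_add]
    exact (Finset.sum_filter_add_sum_filter_not _ _ _).symm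
  have h1 : ∑ A ∈ P.powerset.filter (fun A => ¬ A.card ≤ k), ∏ p ∈ A, x p ≤
      (1 / 2 : ℝ) ^ k * ∏ p ∈ P, (1 + 2 * x p) := by
    rw [Finset.prod_one_add, Finset.mul_sum]
    calc ∑ A ∈ P.powerset.filter (fun A => ¬ A.card ≤ k), ∏ p ∈ A, x p ≤
        ∑ A ∈ P.powerset.filter (fun A => ¬ A.card ≤ k), (1 / 2 : ℝ) ^ k * ∏ p ∈ A, (2 * x p) := by
          refine Finset.sum_le_sum fun A hA => ?_
          have h2 := (Finset.mem_filter.1 hA).2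
          push Not at h2
          rw [Finset.prod_mul_distrib, Finset.prod_const, ← mul_assoc]
          have h3 : 1 ≤ (1 / 2 : ℝ) ^ k * 2 ^ A.card := by
            calc (1 : ℝ) = (1 / 2 : ℝ) ^ k * 2 ^ k := by
                  rw [← mul_pow]
                  norm_num
              _ ≤ (1 / 2 : ℝ) ^ k * 2 ^ A.card := by
                  gcongr
                  norm_num
          exact le_mul_of_one_le_left (Finset.prod_nonneg fun p _ => hx p) h3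
      _ ≤ _ := Finset.sum_le_sum_of_subset_of_nonneg (Finset.filter_subset _ _)
          fun A _ _ => by
            have : 0 ≤ ∏ p ∈ A, (2 * x p) :=
              Finset.prod_nonneg fun p _ => mul_nonneg (by norm_num) (hx p)
            positivity
  have h2 : ∏ p ∈ P, (1 + 2 * x p) ≤ (∏ p ∈ P, (1 + x p)) * Real.exp (k / 2) := by
    calc ∏ p ∈ P, (1 + 2 * x p) ≤ ∏ p ∈ P, ((1 + x p) * Real.exp (x p)) := by
          refine Finset.prod_le_prod (fun p _ => by have := hx p; positivity) fun p _ => ?_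
          have h3 := Real.add_one_le_exp (x p)
          have h4 := hx p
          nlinarith
      _ = (∏ p ∈ P, (1 + x p)) * Real.exp (∑ p ∈ P, x p) := by
          rw [Finset.prod_mul_distrib, Real.exp_sum]
      _ ≤ _ := by
          have : 0 ≤ ∏ p ∈ P, (1 + x p) := Finset.prod_nonneg fun p _ => by
            have := hx p; positivity
          gcongr
  have h3 := half_pow hk
  have h4 : 0 ≤ ∏ p ∈ P, (1 + x p) := Finset.prod_nonneg fun p _ => by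
    have := hx p; positivity
  have h5 : (1 / 2 : ℝ) ^ k * ∏ p ∈ P, (1 + 2 * x p) ≤ 1 / 2 * ∏ p ∈ P, (1 + x p) := by
    calc (1 / 2 : ℝ) ^ k * ∏ p ∈ P, (1 + 2 * x p) ≤
        (1 / 2 : ℝ) ^ k * ((∏ p ∈ P, (1 + x p)) * Real.exp (k / 2)) := by gcongr
      _ = ((1 / 2 : ℝ) ^ k * Real.exp (k / 2)) * ∏ p ∈ P, (1 + x p) := by ring
      _ ≤ _ := by gcongr
  linarith

lemma exp_half_le {z : ℝ} (h0 : 0 ≤ z) (h1 : z ≤ 1) : Real.exp (z / 2) ≤ 1 + z := by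
  have h2 := Real.one_sub_le_exp_neg (z / 2)
  have h3 : Real.exp (z / 2) * Real.exp (-(z / 2)) = 1 := by
    rw [← Real.exp_add]
    simp
  have h4 := Real.exp_pos (z / 2)
  have h5 : Real.exp (z / 2) * (1 - z / 2) ≤ 1 := by
    calc Real.exp (z / 2) * (1 - z / 2) ≤ Real.exp (z / 2) * Real.exp (-(z / 2)) := by gcongr
      _ = 1 := h3
  nlinarith

lemma ratio {P : Finset ℕ} {ρ : ℝ} (hρ : 1 ≤ ρ) (hP : ∀ p ∈ P, ρ ^ 2 ≤ (p : ℝ)) :
    Real.exp (ρ / 2 * ∑ p ∈ P, 1 / (p : ℝ)) * ∏ p ∈ P, (1 + ρ ^ 2 / (p : ℝ)) ≤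
      ∏ p ∈ P, (1 + ρ ^ 2 / (p : ℝ) * (1 + 1 / ρ) ^ 2) := by
  rw [Finset.mul_sum, Real.exp_sum, ← Finset.prod_mul_distrib]
  refine Finset.prod_le_prod (fun p _ => by positivity) fun p hp => ?_
  have hp1 := hP p hp
  have hρ0 : 0 < ρ := by linarith
  have hp0 : (0 : ℝ) < p := lt_of_lt_of_le (by positivity) hp1
  obtain ⟨x, hx⟩ : ∃ x : ℝ, x = ρ ^ 2 / (p : ℝ) := ⟨_, rfl⟩
  have hx0 : 0 ≤ x := by rw [hx]; positivity
  have hx1 : x ≤ 1 := by rw [hx, div_le_one hp0]; exact hp1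
  have e1 : ρ / 2 * (1 / (p : ℝ)) = (x / ρ) / 2 := by
    rw [hx]
    field_simp
  rw [← hx, e1]
  have h2 : x / ρ ≤ 1 := by
    rw [div_le_one hρ0]
    linarith
  have h3 := exp_half_le (z := x / ρ) (by positivity) h2
  have h4 : x * (1 + 1 / ρ) ^ 2 = x + 2 * (x / ρ) + x / ρ / ρ := by
    field_simp
    ring
  have h5 : 0 ≤ x / ρ := by positivity
  have h6 : 0 ≤ x / ρ / ρ := by positivity
  rw [h4]
  calc Real.exp (x / ρ / 2) * (1 + x) ≤ (1 + x / ρ) * (1 + x) := by gcongr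
    _ ≤ _ := by nlinarith

/-! ### the numbers -/

/-- the products -/
def SS (P : Finset ℕ) (k : ℕ) : Finset ℕ := (SK P k).image (fun A => ∏ p ∈ A, p)

/-- the coefficients -/
noncomputable def rr (s ρ : ℝ) (n : ℕ) : ℂ :=
  (((s * ρ) ^ (n.primeFactors.card) / Real.sqrt n : ℝ) : ℂ)

lemma pf {P A : Finset ℕ} (hP : ∀ p ∈ P, p.Prime) (hA : A ⊆ P) :
    (∏ p ∈ A, p).primeFactors = A := Nat.primeFactors_prod fun p hp => hP p (hA hp)

lemma prod_pos {P A : Finset ℕ} (hP : ∀ p ∈ P, p.Prime) (hA : A ⊆ P) : 0 < ∏ p ∈ A, p :=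
  Finset.prod_pos fun p hp => (hP p (hA hp)).pos

lemma sum_SS {P : Finset ℕ} (hP : ∀ p ∈ P, p.Prime) (k : ℕ) (f : ℕ → ℝ) :
    ∑ n ∈ SS P k, f n = ∑ A ∈ SK P k, f (∏ p ∈ A, p) := by
  unfold SS
  rw [Finset.sum_image]
  intro A hA B hB h
  have h1 := (mem_SK.1 hA).1
  have h2 := (mem_SK.1 hB).1
  have h3 : (∏ p ∈ A, p).primeFactors = (∏ p ∈ B, p).primeFactors := congrArg _ h
  rwa [pf hP h1, pf hP h2] at h3

lemma SS_le {P : Finset ℕ} (hP : ∀ p ∈ P, p.Prime) {N : ℝ} (hN : ∀ p ∈ P, (p : ℝ) ≤ N) (hN1 : 1 ≤ N)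
    {k n : ℕ} (hn : n ∈ SS P k) : 1 ≤ n ∧ (n : ℝ) ≤ N ^ k := by
  unfold SS at hn
  rw [Finset.mem_image] at hn
  obtain ⟨A, hA, rfl⟩ := hn
  obtain ⟨h1, h2⟩ := mem_SK.1 hA
  refine ⟨prod_pos hP h1, ?_⟩
  push_cast
  calc ∏ p ∈ A, (p : ℝ) ≤ ∏ _p ∈ A, N := Finset.prod_le_prod (fun p _ => by positivity)
        fun p hp => hN p (h1 hp)
    _ = N ^ A.card := Finset.prod_const _
    _ ≤ N ^ k := pow_le_pow_right₀ hN1 h2

lemma rr_norm {P A : Finset ℕ} (hP : ∀ p ∈ P, p.Prime) (hA : A ⊆ P) {s ρ : ℝ} (hs : s ^ 2 = 1) :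
    ‖rr s ρ (∏ p ∈ A, p)‖ ^ 2 = ∏ p ∈ A, (ρ ^ 2 / (p : ℝ)) := by
  unfold rr
  rw [Complex.norm_real, Real.norm_eq_abs, sq_abs, div_pow, Real.sq_sqrt (by positivity), pf hP hA,
    Finset.prod_div_distrib, Finset.prod_const]
  push_cast
  congr 1
  rw [← pow_mul, mul_comm A.card 2, pow_mul, mul_pow, hs, one_mul]

lemma w1_SS {P : Finset ℕ} (hP : ∀ p ∈ P, p.Prime) (k : ℕ) {s ρ : ℝ} (hs : s ^ 2 = 1) :
    w1 (SS P k) (rr s ρ) = ∑ A ∈ SK P k, ∏ p ∈ A, (ρ ^ 2 / (p : ℝ)) := by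
  unfold w1
  rw [sum_SS hP]
  exact Finset.sum_congr rfl fun A hA => rr_norm hP (mem_SK.1 hA).1 hs

/-- the convolution on the support -/
lemma cv_SS {P : Finset ℕ} (hP : ∀ p ∈ P, p.Prime) {k : ℕ} {s ρ : ℝ} (hρ : ρ ≠ 0)
    {Pd : Finset ℕ} {b : ℕ → ℂ}
    (hb : ∀ B ∈ SK P k, (∏ p ∈ B, p) ∈ Pd ∧
      b (∏ p ∈ B, p) = ((s ^ B.card / Real.sqrt ((∏ p ∈ B, p : ℕ) : ℝ) : ℝ) : ℂ))
    {A : Finset ℕ} (hA : A ∈ SK P k) :
    cv Pd (SS P k) b (rr s ρ) (∏ p ∈ A, p) =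
      rr s ρ (∏ p ∈ A, p) * (((1 + 1 / ρ) ^ A.card : ℝ) : ℂ) := by
  obtain ⟨hAP, hAk⟩ := mem_SK.1 hA
  have hsub : ∀ B ⊆ A, B ∈ SK P k := fun B hB =>
    mem_SK.2 ⟨hB.trans hAP, (Finset.card_le_card hB).trans hAk⟩
  have hsq : Squarefree (∏ p ∈ A, p) := by
    refine Finset.squarefree_prod_of_pairwise_isCoprime (fun p hp q hq hpq => ?_)
      (fun p hp => (hP p (hAP hp)).squarefree)
    exact Nat.coprime_iff_isRelPrime.1
      ((Nat.coprime_primes (hP p (hAP hp)) (hP q (hAP hq))).2 hpq)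
  have hmul : ∀ B ⊆ A, (∏ p ∈ B, p) * ∏ p ∈ A \ B, p = ∏ p ∈ A, p := fun B hB => by
    rw [mul_comm]
    exact Finset.prod_sdiff hB
  have h1 : cv Pd (SS P k) b (rr s ρ) (∏ p ∈ A, p) =
      ∑ B ∈ A.powerset, b (∏ p ∈ B, p) * rr s ρ (∏ p ∈ A \ B, p) := by
    unfold cv
    symm
    refine Finset.sum_bij (fun B _ => (∏ p ∈ B, p, ∏ p ∈ A \ B, p)) ?_ ?_ ?_ ?_
    · intro B hB
      rw [Finset.mem_powerset] at hB
      rw [Finset.mem_filter, Finset.mem_product]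
      refine ⟨⟨(hb B (hsub B hB)).1, ?_⟩, hmul B hB⟩
      exact Finset.mem_image_of_mem _ (hsub _ Finset.sdiff_subset)
    · intro B hB B' hB' h
      rw [Finset.mem_powerset] at hB hB'
      have h2 : (∏ p ∈ B, p).primeFactors = (∏ p ∈ B', p).primeFactors :=
        congrArg _ (congrArg Prod.fst h)
      rwa [pf hP (hB.trans hAP), pf hP (hB'.trans hAP)] at h2
    · rintro ⟨d, e⟩ hde
      rw [Finset.mem_filter, Finset.mem_product] at hde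
      have h2 : d * e = ∏ p ∈ A, p := hde.2
      have hd : d ∣ ∏ p ∈ A, p := ⟨e, h2.symm⟩
      have hdsq := hsq.squarefree_of_dvd hd
      have hpos := prod_pos hP hAP
      have hdA : d.primeFactors ⊆ A := by
        have h3 := Nat.primeFactors_mono hd hpos.ne'
        rwa [pf hP hAP] at h3
      have hd0 : 0 < d := Nat.pos_of_dvd_of_pos hd hpos
      refine ⟨d.primeFactors, Finset.mem_powerset.2 hdA, ?_⟩
      have h3 : ∏ p ∈ d.primeFactors, p = d := Nat.prod_primeFactors_of_squarefree hdsq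
      have h4 := hmul _ hdA
      rw [h3, ← h2] at h4
      have h5 := Nat.eq_of_mul_eq_mul_left hd0 h4
      rw [Prod.mk.injEq]
      exact ⟨h3, h5⟩
    · intro B _
      rfl
  rw [h1]
  have h2 : ∀ B ∈ A.powerset, b (∏ p ∈ B, p) * rr s ρ (∏ p ∈ A \ B, p) =
      rr s ρ (∏ p ∈ A, p) * (((1 / ρ) ^ B.card : ℝ) : ℂ) := by
    intro B hB
    rw [Finset.mem_powerset] at hB
    rw [(hb B (hsub B hB)).2]
    unfold rr
    rw [pf hP hAP, pf hP (Finset.sdiff_subset.trans hAP), ← Complex.ofReal_mul,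
      ← Complex.ofReal_mul]
    congr 1
    have h3 : Real.sqrt ((∏ p ∈ A, p : ℕ) : ℝ) = Real.sqrt ((∏ p ∈ B, p : ℕ) : ℝ) *
        Real.sqrt ((∏ p ∈ A \ B, p : ℕ) : ℝ) := by
      rw [← Real.sqrt_mul (by positivity), ← Nat.cast_mul, hmul B hB]
    have h4 : A.card = B.card + (A \ B).card := by
      rw [Finset.card_sdiff_of_subset hB]
      have := Finset.card_le_card hB
      omega
    have h5 : Real.sqrt ((∏ p ∈ B, p : ℕ) : ℝ) ≠ 0 := by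
      have h6 := prod_pos hP (hB.trans hAP)
      exact (Real.sqrt_pos.2 (by exact_mod_cast h6)).ne'
    have h6 : Real.sqrt ((∏ p ∈ A \ B, p : ℕ) : ℝ) ≠ 0 := by
      have h6 := prod_pos hP (Finset.sdiff_subset.trans hAP : A \ B ⊆ P)
      exact (Real.sqrt_pos.2 (by exact_mod_cast h6)).ne'
    rw [h3, h4, pow_add, mul_pow, mul_pow, one_div, inv_pow]
    field_simp
  rw [Finset.sum_congr rfl h2, ← Finset.mul_sum]
  congr 1
  rw [← Complex.ofReal_sum]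
  congr 1
  have h3 := Finset.prod_one_add (s := A) (f := fun _ => 1 / ρ)
  rw [Finset.prod_const] at h3
  rw [h3]
  exact Finset.sum_congr rfl fun B _ => (Finset.prod_const _).symm

/-- **the gain of a resonator** -/
theorem gain {P : Finset ℕ} (hP : ∀ p ∈ P, p.Prime) {k : ℕ} (hk : 16 ≤ k)
    (hPk : ∀ p ∈ P, k ≤ p) (hS : ∑ p ∈ P, 1 / (p : ℝ) ≤ 2) {s : ℝ} (hs : s ^ 2 = 1)
    {Pd Q : Finset ℕ} {b : ℕ → ℂ}
    (hb : ∀ B ∈ SK P k, (∏ p ∈ B, p) ∈ Pd ∧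
      b (∏ p ∈ B, p) = ((s ^ B.card / Real.sqrt ((∏ p ∈ B, p : ℕ) : ℝ) : ℝ) : ℂ))
    (hQ : SS P k ⊆ Q) :
    1 / 2 * Real.exp (Real.sqrt k / 8 * ∑ p ∈ P, 1 / (p : ℝ)) *
        w1 (SS P k) (rr s (Real.sqrt k / 4)) ≤
      w1 Q (cv Pd (SS P k) b (rr s (Real.sqrt k / 4))) := by
  obtain ⟨ρ, hρ⟩ : ∃ ρ : ℝ, ρ = Real.sqrt k / 4 := ⟨_, rfl⟩
  have hk0 : (16 : ℝ) ≤ k := by exact_mod_cast hk
  have hρ2 : ρ ^ 2 = k / 16 := by
    rw [hρ, div_pow, Real.sq_sqrt (by positivity)]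
    norm_num
  have hρ1 : 1 ≤ ρ := by
    have h1 : 0 ≤ ρ := by rw [hρ]; positivity
    nlinarith
  have hρ0 : 0 < ρ := by linarith
  rw [← hρ, w1_SS hP k hs]
  have e1 : Real.sqrt k / 8 = ρ / 2 := by rw [hρ]; ring
  rw [e1]
  have hpp : ∀ p ∈ P, ρ ^ 2 ≤ (p : ℝ) := by
    intro p hp
    rw [hρ2]
    have h1 : (k : ℝ) ≤ p := by exact_mod_cast hPk p hp
    linarith
  have hr := ratio hρ1 hpp
  have h1 := trunc_le (P := P) (x := fun p => ρ ^ 2 / (p : ℝ)) (fun p => by positivity) k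
  have h2 := trunc_ge (P := P) (x := fun p : ℕ => ρ ^ 2 / (p : ℝ) * (1 + 1 / ρ) ^ 2)
    (fun p => by positivity) (k := k) (by omega) (by
      have h3 : ∑ p ∈ P, ρ ^ 2 / (p : ℝ) * (1 + 1 / ρ) ^ 2 =
          (ρ + 1) ^ 2 * ∑ p ∈ P, 1 / (p : ℝ) := by
        rw [Finset.mul_sum]
        refine Finset.sum_congr rfl fun p _ => ?_
        have : (1 + 1 / ρ) = (ρ + 1) / ρ := by field_simp
        rw [this, div_pow]
        field_simp
      rw [h3]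
      have h4 : (ρ + 1) ^ 2 ≤ 4 * ρ ^ 2 := by nlinarith
      have h5 : 0 ≤ ∑ p ∈ P, 1 / (p : ℝ) := Finset.sum_nonneg fun p _ => by positivity
      calc (ρ + 1) ^ 2 * ∑ p ∈ P, 1 / (p : ℝ) ≤ (4 * ρ ^ 2) * 2 := by gcongr
        _ = (k : ℝ) / 2 := by rw [hρ2]; ring)
  have h3 : ∑ A ∈ SK P k, ∏ p ∈ A, (ρ ^ 2 / (p : ℝ) * (1 + 1 / ρ) ^ 2) ≤
      w1 Q (cv Pd (SS P k) b (rr s ρ)) := by
    unfold w1
    calc ∑ A ∈ SK P k, ∏ p ∈ A, (ρ ^ 2 / (p : ℝ) * (1 + 1 / ρ) ^ 2) =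
        ∑ n ∈ SS P k, ‖cv Pd (SS P k) b (rr s ρ) n‖ ^ 2 := by
          rw [sum_SS hP]
          refine Finset.sum_congr rfl fun A hA => ?_
          rw [cv_SS hP hρ0.ne' hb hA, norm_mul, mul_pow, rr_norm hP (mem_SK.1 hA).1 hs,
            Finset.prod_mul_distrib, Finset.prod_const]
          congr 1
          rw [Complex.norm_real, Real.norm_eq_abs, sq_abs, ← pow_mul, ← pow_mul, mul_comm]
      _ ≤ _ := Finset.sum_le_sum_of_subset_of_nonneg hQ fun n _ _ => by positivity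
  refine le_trans ?_ h3
  refine le_trans ?_ h2
  have h4 := Real.exp_pos (ρ / 2 * ∑ p ∈ P, 1 / (p : ℝ))
  calc 1 / 2 * Real.exp (ρ / 2 * ∑ p ∈ P, 1 / (p : ℝ)) * ∑ A ∈ SK P k, ∏ p ∈ A, ρ ^ 2 / (p : ℝ) ≤
      1 / 2 * Real.exp (ρ / 2 * ∑ p ∈ P, 1 / (p : ℝ)) * ∏ p ∈ P, (1 + ρ ^ 2 / (p : ℝ)) := by
        gcongr
    _ = 1 / 2 * (Real.exp (ρ / 2 * ∑ p ∈ P, 1 / (p : ℝ)) * ∏ p ∈ P, (1 + ρ ^ 2 / (p : ℝ))) := by
        ring
    _ ≤ _ := by
        gcongr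

end Run7.h311.EX
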