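import Pool.Agent.Run7.h311.EX.Ext

/-! # Small values of the derivative at isolated simple zeros -/

set_option autoImplicit false

open Complex Filter Topology Set MeasureTheory
open scoped BigOperators ComplexConjugate

namespace Run7.h311.EX

open Pool.Agent.N802 Pool.Agent.N802.U Pool.Agent.N802.WD Pool.Agent.N802.WD.Msd
open Pool.Agent.R399.TW (pt pt_re pt_im pt_cont)

theorem small {d0 δf Tf δt : ℝ} (hd0 : 0 < d0) (hd1 : d0 ≤ 1 / 10) (hδf : 0 < δf)
    (hF : FrameP d0 δf Tf) (hδt : 0 < δt) :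
    ∃ c T0 : ℝ, 0 < c ∧ ∀ T : ℝ, T0 ≤ T → ∃ G : Finset ℂ,
    (∀ s ∈ G, Iz d0 T s ∧ ‖deriv riemannZeta s‖ ≤
      Real.exp (-(c * Real.sqrt (Real.log T / Real.log (Real.log T))))) ∧
    T ^ (1 - δt) ≤ (G.card : ℝ) := by
  obtain ⟨q, hq⟩ : ∃ q : ℕ, Msdq q := msd op
  obtain ⟨μ, hμ⟩ : ∃ μ : ℝ, μ = min δf (min δt (1 / 8)) := ⟨_, rfl⟩
  have hμ0 : 0 < μ := by rw [hμ]; exact lt_min hδf (lt_min hδt (by norm_num))
  have hμf : μ ≤ δf := by rw [hμ]; exact min_le_left _ _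
  have hμt : μ ≤ δt := by rw [hμ]; exact (min_le_right _ _).trans (min_le_left _ _)
  have hμ8 : μ ≤ 1 / 8 := by rw [hμ]; exact (min_le_right _ _).trans (min_le_right _ _)
  obtain ⟨κ, c₀, C₀, C, δr, Tr, hκ, hc₀, hC₀, hC, hδr, hTr, hX⟩ := rightX cut hq ker
    (β₁ := μ / 4) (β₂ := μ / 2) (by positivity) (by linarith) (by linarith)
  obtain ⟨Tmass, hTmass, hmass⟩ := rh_mass
  obtain ⟨δs, hδs⟩ : ∃ δs : ℝ, δs = min (μ / 4) δr := ⟨_, rfl⟩
  have hδs0 : 0 < δs := by rw [hδs]; exact lt_min (by positivity) hδr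
  have hδsμ : δs ≤ μ / 4 := by rw [hδs]; exact min_le_left _ _
  have hδsr : δs ≤ δr := by rw [hδs]; exact min_le_right _ _
  obtain ⟨cR, TR, hcR, hTR, hres⟩ := resset hδs0 (by linarith)
  obtain ⟨Tq, hTq⟩ := ev_quarter hδs0
  obtain ⟨X, hXd⟩ : ∃ X : ℝ, X = 1400 / d0 ^ 3 * ((2 * C + 4) * Real.exp 3) := ⟨_, rfl⟩
  have hX0 : 0 < X := by rw [hXd]; positivity
  obtain ⟨C', hC'⟩ : ∃ C' : ℝ, C' = |Real.log (800 * X)| := ⟨_, rfl⟩
  have hC'0 : 0 ≤ C' := by rw [hC']; positivity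
  obtain ⟨K, hK⟩ : ∃ K : ℝ, K = 1 + C' + 192 ^ 2 / cR := ⟨_, rfl⟩
  have hKc : 0 ≤ 192 ^ 2 / cR := by positivity
  have hK1 : 1 ≤ K := by rw [hK]; linarith
  have hKC : C' ≤ K := by rw [hK]; linarith
  have hKR : 192 ^ 2 / cR ≤ K := by rw [hK]; linarith
  obtain ⟨Tl, hTl, hlog⟩ := ev_log3 K (by linarith)
  refine ⟨Real.sqrt cR / 128, max (max (max Tf Tr) (max Tmass TR)) (max (max Tq Tl)
    (Real.exp 120)), by positivity, fun T hT => ?_⟩
  have hT1 := (le_max_left _ _).trans hT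
  have hT2 := (le_max_right _ _).trans hT
  have hTTf : Tf ≤ T := ((le_max_left _ _).trans (le_max_left _ _)).trans hT1
  have hTTr : Tr ≤ T := ((le_max_right _ _).trans (le_max_left _ _)).trans hT1
  have hTTm : Tmass ≤ T := ((le_max_left _ _).trans (le_max_right _ _)).trans hT1
  have hTTR : TR ≤ T := ((le_max_right _ _).trans (le_max_right _ _)).trans hT1
  have hTTq : Tq ≤ T := ((le_max_left _ _).trans (le_max_left _ _)).trans hT2
  have hTTl : Tl ≤ T := ((le_max_right _ _).trans (le_max_left _ _)).trans hT2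
  have hTTe : Real.exp 120 ≤ T := (le_max_right _ _).trans hT2
  have hT100 : 100 ≤ T := hTl.trans hTTl
  have hTp : 0 < T := by linarith
  have hT1' : 1 ≤ T := by linarith
  obtain ⟨L, hL⟩ : ∃ L : ℝ, L = Real.log T := ⟨_, rfl⟩
  have hL120 : 120 ≤ L := by
    rw [hL, Real.le_log_iff_exp_le hTp]
    exact hTTe
  have hLp : 0 < L := by linarith
  obtain ⟨V, Kv, hcf, hR⟩ := hX T hTTr
  obtain ⟨N, k, hk, hkN, hN1, hS1, hS2, hNk, hkL⟩ := hres T hTTR
  obtain ⟨hq4, Z, hiz, hpts, hZ⟩ := hF T hTTf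
  have hδq := hTq T hTTq
  -- the weight
  have hXα : ∀ B ∈ SK (PN N) k, ((∏ p ∈ B, p : ℕ) : ℝ) ≤ T ^ δs := by
    intro B hB
    have h1 := (SS_le PN_prime (N := (N : ℝ) ^ 2) (fun p hp => by exact_mod_cast (PN_mem hp).2)
      (one_le_pow₀ (by exact_mod_cast hN1)) (Finset.mem_image_of_mem _ hB)).2
    exact h1.trans hNk
  have hTs : T ^ δs ≤ (⌊T ^ (μ / 2)⌋₊ : ℝ) := by
    have h1 : T ^ δs * 2 ≤ T ^ (μ / 2) := by
      calc T ^ δs * 2 ≤ T ^ δs * T ^ δs := by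
            gcongr
            have h2 : T ^ (1 - δs) * T ^ δs = T := by
              rw [← Real.rpow_add hTp, sub_add_cancel, Real.rpow_one]
            have h3 : 0 < T ^ (1 - δs) := by positivity
            have h4 : 0 < T ^ δs := by positivity
            by_contra hc
            push Not at hc
            nlinarith
        _ = T ^ (δs + δs) := (Real.rpow_add hTp _ _).symm
        _ ≤ T ^ (μ / 2) := Real.rpow_le_rpow_of_exponent_le hT1' (by linarith)
    have h2 := Nat.lt_floor_add_one (T ^ (μ / 2))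
    have h3 : 1 ≤ T ^ δs := Real.one_le_rpow hT1' hδs0.le
    linarith
  have hb := hb_M (k := k) (PN_prime (N := N)) (X := T ^ δs) (y := μ / 4 * Real.log T)
    (M := ⌊T ^ (μ / 2)⌋₊) (V := V) hXα hTs (by
      rw [Real.log_rpow hTp]
      gcongr
      rw [← hL]
      exact hLp.le) hcf.one
  obtain ⟨hSlen, hQlen, hmul, hw1, hw0⟩ := weight (μ := μ) hT100 (by positivity : 0 < μ / 2) hδs0
    (by linarith) (by linarith) hk hkN hN1 hS1 hS2 hNk (s := -1) (by norm_num) hb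
  set S₀ := SS (PN N) k with hS₀
  set r₀ := rr (-1) (Real.sqrt k / 4) with hr₀
  set Q := Finset.Icc 1 ⌊T ^ μ⌋₊ with hQ
  set r' := cv (Finset.Icc 1 ⌊T ^ (μ / 2)⌋₊) S₀ (bn V (1 / 2) 0) r₀ with hr'
  set M := Mp V ⌊T ^ (μ / 2)⌋₊ with hM
  obtain ⟨W, hW⟩ : ∃ W : ℝ, W = T * L * w1 Q r' := ⟨_, rfl⟩
  have hWp : 0 < W := by rw [hW]; positivity
  have hfr := hZ Q (Len_mono hQlen (Real.rpow_le_rpow_of_exponent_le hT1' hμf)) r'
  have hRPQ : ∀ s ∈ Z, ‖RP Q r' s.im‖ ^ 2 = ‖RP S₀ r₀ s.im‖ ^ 2 * ‖M s‖ ^ 2 := by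
    intro s hs
    rw [← hmul s.im, norm_mul, mul_pow, mul_comm]
    congr 2
    have h1 := Mp_eq V ⌊T ^ (μ / 2)⌋₊ (1 / 2) 0 s.im
    rw [← h1, add_zero]
    congr 2
    apply Complex.ext
    · rw [pt_re, (hiz s hs).re]
    · rw [pt_im]
  have hpts' : Pts T (d0 / (4 * L)) Z := by rw [hL]; exact hpts
  have hSlen8 : Len S₀ (T ^ (1 / 8 : ℝ)) :=
    Len_mono hSlen (Real.rpow_le_rpow_of_exponent_le hT1' (by linarith))
  have hmassT : ∀ r : ℕ → ℂ, ∫ t in T..(2 * T), rh (11 / 8 * T) (T / 4) S₀ r t ≤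
      2 * mr (T / 4) S₀ r := by
    intro r
    rw [intervalIntegral.integral_of_le (by linarith)]
    refine (setIntegral_le_integral (rh_intg (by positivity) S₀ r)
      (Eventually.of_forall fun t => U.rh_nonneg _ _ _ _ t)).trans ?_
    refine hmass T hTTm S₀ hSlen8 r _ _ ?_
    have h1 : T ^ (1 - δs) ≤ T / 4 := hδq
    refine le_trans ?_ h1
    exact Real.rpow_le_rpow_of_exponent_le hT1' (by linarith)
  have hsum := small_core (T := T) (L := L) (C := C) (δ := δs) (β₁ := μ / 4) (β₂ := μ / 2)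
    (d0 := d0) (V := V) hT100 hL (by linarith) hC.le (by positivity) (by linarith) hd0 hd1
    (fun S hS r τ H hH => hR S (Len_mono hS (Real.rpow_le_rpow_of_exponent_le hT1' hδsr)) r τ H
        ((Real.rpow_le_rpow_of_exponent_le hT1' (by linarith)).trans hH))
    hSlen (by linarith) hδq r₀ hmassT hpts' (fun s hs => (hiz s hs).zero)
  rw [← hXd] at hsum
  obtain ⟨A, hA⟩ : ∃ A : ℝ, A = 800 * X * L ^ 2 * Real.exp (-(Real.sqrt k / 32)) := ⟨_, rfl⟩
  have hA0 : 0 < A := by rw [hA]; positivity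
  have hbad : ∑ s ∈ Z.filter (fun s => A < ‖deriv riemannZeta s‖ ^ 2), ‖RP Q r' s.im‖ ^ 2 ≤
      W / 400 := by
    refine sel (w := fun s => ‖RP Q r' s.im‖ ^ 2) (f := fun s => ‖deriv riemannZeta s‖ ^ 2)
      (fun s _ => sq_nonneg _) (fun s _ => sq_nonneg _) hA0
      (Y := X * L ^ 2 * (T * L * w1 S₀ r₀)) ?_ ?_
    · refine le_trans (le_of_eq ?_) hsum
      refine Finset.sum_congr rfl fun s hs => ?_
      rw [hRPQ s hs, ← hM]
      ring
    · rw [hA, hW]
      calc X * L ^ 2 * (T * L * w1 S₀ r₀) ≤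
          X * L ^ 2 * (T * L * (2 * Real.exp (-(Real.sqrt k / 32)) * w1 Q r')) := by gcongr
        _ = _ := by ring
  have hmain : W / 120 ≤ ∑ s ∈ Z.filter (fun s => ¬ A < ‖deriv riemannZeta s‖ ^ 2),
      ‖RP Q r' s.im‖ ^ 2 := by
    have h1 := Finset.sum_filter_add_sum_filter_not Z (fun s => A < ‖deriv riemannZeta s‖ ^ 2)
      (fun s => ‖RP Q r' s.im‖ ^ 2)
    have h2 : W / 60 ≤ ∑ s ∈ Z, ‖RP Q r' s.im‖ ^ 2 := by rw [hW, hL]; exact hfr.1
    linarith
  refine ⟨_, ?_, (Real.rpow_le_rpow_of_exponent_le hT1' (by linarith)).trans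
    (card_ge hT100 hμ0 hQlen hw0 (by rw [← hL]; exact hL120) (by
      rw [hW, hL] at hmain
      exact hmain))⟩
  intro s hs
  rw [Finset.mem_filter, not_lt] at hs
  refine ⟨hiz s hs.1, ?_⟩
  have hloglog := hlog T hTTl
  rw [← hL] at hloglog hkL
  have hll1 : 1 ≤ Real.log L := hK1.trans hloglog.1
  have hllp : 0 < Real.log L := by linarith
  have hsk : Real.sqrt cR * Real.sqrt (L / Real.log L) ≤ Real.sqrt k := by
    rw [← Real.sqrt_mul hcR.le]
    exact Real.sqrt_le_sqrt hkL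
  -- `log L` is small compared with `√(L / log L)`
  have hsK : 192 * Real.log L ≤ Real.sqrt cR * Real.sqrt (L / Real.log L) := by
    rw [← Real.sqrt_mul hcR.le]
    apply Real.le_sqrt_of_sq_le
    have h1 : K * Real.log L ^ 2 ≤ L / Real.log L := by
      rw [le_div_iff₀ hllp]
      refine le_trans (le_of_eq ?_) hloglog.2
      ring
    calc (192 * Real.log L) ^ 2 = cR * (192 ^ 2 / cR * Real.log L ^ 2) := by field_simp
      _ ≤ cR * (K * Real.log L ^ 2) := by gcongr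
      _ ≤ cR * (L / Real.log L) := by gcongr
  have h3 : A ≤ Real.exp (-(Real.sqrt cR / 128 * Real.sqrt (L / Real.log L))) ^ 2 := by
    have h4 : A = Real.exp (Real.log (800 * X) + 2 * Real.log L - Real.sqrt k / 32) := by
      rw [Real.exp_sub, Real.exp_add, Real.exp_log (by positivity), hA,
        show (2 : ℝ) * Real.log L = ((2 : ℕ) : ℝ) * Real.log L by norm_num, Real.exp_nat_mul,
        Real.exp_log hLp, Real.exp_neg]
      field_simp
    rw [h4, ← Real.exp_nat_mul]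
    apply Real.exp_le_exp.2
    have h5 : Real.log (800 * X) ≤ Real.log L :=
      (le_abs_self _).trans (by rw [← hC']; exact hKC.trans hloglog.1)
    push_cast
    linarith
  rw [← hL]
  exact (sq_le_sq₀ (norm_nonneg _) (Real.exp_pos _).le).1 (hs.2.trans h3)

end Run7.h311.EX
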