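import Mathlib
import Pool.Agent.Helper509.Polar

set_option autoImplicit false

/-! # Area means of `log |f|` and `|f|²`; the derivative at an isolated simple zero from below -/

open MeasureTheory Set Filter Topology Metric

namespace Run7.h311.EX

/-- Jensen's inequality (after `H816_Nef.J8_jensen`) -/
theorem log_le_avg {k : ℂ → ℂ} {c : ℂ} {R : ℝ} (hR : 0 < R)
    (hk : AnalyticOnNhd ℂ k (closedBall c R)) (h0 : k c ≠ 0) :
    Real.log ‖k c‖ ≤ Real.circleAverage (fun w => Real.log ‖k w‖) c R := by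
  have hk' : AnalyticOnNhd ℂ k (closedBall c |R|) := by rwa [abs_of_pos hR]
  rw [hk'.circleAverage_log_norm hR.ne' h0]
  have : 0 ≤ ∑ᶠ u, MeromorphicOn.divisor k (closedBall c |R|) u *
      Real.log (R * ‖c - u‖⁻¹) := by
    refine finsum_nonneg fun u => ?_
    by_cases hu : u ∈ closedBall c |R|
    · refine mul_nonneg ?_ ?_
      · have := (MeromorphicOn.AnalyticOnNhd.divisor_nonneg hk') u
        exact_mod_cast this
      · rcases eq_or_ne c u with h1 | h1
        · simp [h1]
        · have h2 : 0 < ‖c - u‖ := norm_pos_iff.2 (sub_ne_zero.2 h1)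
          have h3 : ‖c - u‖ ≤ R := by
            rw [mem_closedBall, dist_eq_norm, abs_of_pos hR] at hu
            rwa [norm_sub_rev]
          apply Real.log_nonneg
          rw [← div_eq_mul_inv, one_le_div h2]
          exact h3
    · rw [Function.locallyFinsuppWithin.apply_eq_zero_of_notMem _ hu]
      simp
  linarith

/-- the truncated logarithm (after `H816_Nef.logSubharmonicOn_norm`) -/
theorem tlog_le_avg {k : ℂ → ℂ} {z : ℂ} {r δ : ℝ} (hr : 0 < r) (hδ : 0 < δ)
    (hk : AnalyticOnNhd ℂ k (closedBall z r)) :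
    Real.log (max ‖k z‖ δ) ≤ Real.circleAverage (fun w => Real.log (max ‖k w‖ δ)) z r := by
  have hcont : ContinuousOn (fun w => Real.log (max ‖k w‖ δ)) (closedBall z r) := by
    apply ContinuousOn.log
    · exact hk.continuousOn.norm.sup continuousOn_const
    · intro w _
      exact (lt_max_of_lt_right hδ).ne'
  have hsph : sphere z |r| ⊆ closedBall z r := by
    rw [abs_of_pos hr]
    exact sphere_subset_closedBall
  have hci : CircleIntegrable (fun w => Real.log (max ‖k w‖ δ)) z r :=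
    ContinuousOn.circleIntegrable' (hcont.mono hsph)
  rcases le_or_gt ‖k z‖ δ with h1 | h1
  · rw [max_eq_right h1]
    have h2 : Real.circleAverage (fun _ : ℂ => Real.log δ) z r = Real.log δ :=
      Real.circleAverage_const _ _ _
    rw [← h2]
    apply Real.circleAverage_mono (circleIntegrable_const _ _ _) hci
    intro w _
    exact Real.log_le_log hδ (le_max_right _ _)
  · rw [max_eq_left h1.le]
    have h0 : k z ≠ 0 := by
      intro h
      rw [h, norm_zero] at h1
      linarith
    refine (log_le_avg hr hk h0).trans ?_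
    have hk' : AnalyticOnNhd ℂ k (closedBall z |r|) := by rwa [abs_of_pos hr]
    have hcod : {ζ : ℂ | k ζ ≠ 0} ∈ codiscreteWithin (sphere z |r|) := by
      have h1 : k ⁻¹' {0}ᶜ ∈ codiscreteWithin (closedBall z |r|) :=
        hk'.preimage_zero_mem_codiscreteWithin h0 (by simp)
          ⟨⟨z, by simp⟩, (convex_closedBall z |r|).isPreconnected⟩
      exact codiscreteWithin_mono sphere_subset_closedBall h1
    have hci0 : CircleIntegrable (fun ζ => Real.log ‖k ζ‖) z r :=
      (hk'.mono sphere_subset_closedBall).meromorphicOn.circleIntegrable_log_norm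
    set g : ℂ → ℝ := fun ζ => Real.log (max ‖k ζ‖ δ) with hg
    set f : ℂ → ℝ := fun ζ => if k ζ = 0 then g ζ else Real.log ‖k ζ‖ with hf
    have hfeq : (fun ζ => Real.log ‖k ζ‖) =ᶠ[codiscreteWithin (sphere z |r|)] f := by
      filter_upwards [hcod] with ζ hζ
      have : k ζ ≠ 0 := hζ
      simp [hf, this]
    have hfi : CircleIntegrable f z r := hci0.congr_codiscreteWithin hfeq
    rw [Real.circleAverage_congr_codiscreteWithin hfeq hr.ne']
    refine Real.circleAverage_mono hfi hci fun ζ _ => ?_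
    by_cases hz : k ζ = 0
    · simp [hf, hz]
    · simp only [hf, hz, if_false]
      exact Real.log_le_log (norm_pos_iff.2 hz) (le_max_left _ _)

lemma ball_vol (c : ℂ) {r : ℝ} (hr : 0 < r) : (volume (ball c r)).toReal = Real.pi * r ^ 2 := by
  rw [Complex.volume_ball]
  simp only [ENNReal.toReal_mul, ENNReal.toReal_pow, ENNReal.toReal_ofReal hr.le]
  rw [mul_comm]; rfl

lemma integral_ball_real (u : ℂ → ℝ) (hm : Measurable u) (a : ℂ) (s : ℝ)
    (hi : IntegrableOn u (ball a s)) :
    ∫ z in ball a s, u z = ∫ r in Ioo 0 s, r * (2 * Real.pi * Real.circleAverage u a r) := by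
  have h1 := Pool.Agent.Helper509.Polar.integral_ball (fun z => (u z : ℂ))
    (Complex.measurable_ofReal.comp hm) a s hi.ofReal
  have h2 : ∀ r, Real.circleAverage (fun z => (u z : ℂ)) a r =
      ((Real.circleAverage u a r : ℝ) : ℂ) := by
    intro r
    rw [Real.circleAverage_def, Real.circleAverage_def, intervalIntegral.integral_ofReal]
    simp
  have h3 : ∫ z in ball a s, (u z : ℂ) = ((∫ z in ball a s, u z : ℝ) : ℂ) := integral_ofReal
  rw [h3] at h1
  have h4 : (∫ r in Ioo 0 s, (r : ℝ) • ((2 * Real.pi) •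
      Real.circleAverage (fun z => (u z : ℂ)) a r)) =
      ((∫ r in Ioo 0 s, r * (2 * Real.pi * Real.circleAverage u a r) : ℝ) : ℂ) := by
    refine Eq.trans ?_ (integral_ofReal (𝕜 := ℂ))
    congr 1
    funext r
    rw [h2]
    simp
  rw [h4] at h1
  exact_mod_cast h1

lemma int_r {s A : ℝ} (hs : 0 < s) :
    ∫ r in Ioo 0 s, r * (2 * Real.pi * A) = Real.pi * s ^ 2 * A := by
  rw [integral_mul_const, ← integral_Ioc_eq_integral_Ioo, ← intervalIntegral.integral_of_le hs.le,
    integral_id]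
  ring

/-- the circle sub-mean inequality on all circles implies the area sub-mean inequality -/
lemma area_of_circle {u : ℂ → ℝ} (hm : Measurable u) {a : ℂ} {s : ℝ} (hs : 0 < s) {B : ℝ}
    (hB : ∀ z ∈ ball a s, |u z| ≤ B)
    (h : ∀ r, 0 < r → r < s → u a ≤ Real.circleAverage u a r) :
    Real.pi * s ^ 2 * u a ≤ ∫ z in ball a s, u z := by
  have hi : IntegrableOn u (ball a s) := by
    refine Measure.integrableOn_of_bounded (M := B) measure_ball_lt_top.ne hm.aestronglyMeasurable ?_
    exact (ae_restrict_iff' measurableSet_ball).2 (Eventually.of_forall fun z hz => by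
      simpa [Real.norm_eq_abs] using hB z hz)
  rw [integral_ball_real u hm a s hi]
  have hcm : Measurable fun r : ℝ => Real.circleAverage u a r := by
    have h1 : (fun r : ℝ => Real.circleAverage u a r) = fun r =>
        (2 * Real.pi)⁻¹ * ∫ θ in Ioc 0 (2 * Real.pi), u (circleMap a r θ) := by
      funext r
      rw [Real.circleAverage_def, intervalIntegral.integral_of_le Real.two_pi_pos.le, smul_eq_mul]
    rw [h1]
    apply Measurable.const_mul
    have h2 : StronglyMeasurable (fun p : ℝ × ℝ => u (circleMap a p.1 p.2)) := by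
      apply Measurable.stronglyMeasurable
      apply hm.comp
      have : Continuous (fun p : ℝ × ℝ => circleMap a p.1 p.2) := by
        unfold circleMap; fun_prop
      exact this.measurable
    exact (h2.integral_prod_right').measurable
  have hbd : ∀ r ∈ Ioo 0 s, |Real.circleAverage u a r| ≤ B := by
    intro r hr
    rw [Real.circleAverage_def, smul_eq_mul, abs_mul,
      abs_of_pos (by positivity : 0 < (2 * Real.pi)⁻¹)]
    have h1 : ‖∫ θ in (0 : ℝ)..2 * Real.pi, u (circleMap a r θ)‖ ≤ B * |2 * Real.pi - 0| := by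
      apply intervalIntegral.norm_integral_le_of_norm_le_const
      intro θ _
      rw [Real.norm_eq_abs]
      apply hB
      rw [mem_ball, dist_eq_norm]
      simpa [circleMap, abs_of_pos hr.1] using hr.2
    rw [sub_zero, abs_of_pos Real.two_pi_pos, Real.norm_eq_abs] at h1
    calc (2 * Real.pi)⁻¹ * |∫ θ in (0 : ℝ)..2 * Real.pi, u (circleMap a r θ)| ≤
          (2 * Real.pi)⁻¹ * (B * (2 * Real.pi)) :=
          mul_le_mul_of_nonneg_left h1 (by positivity)
      _ = B := by field_simp
  have hint1 : IntegrableOn (fun r : ℝ => r * (2 * Real.pi * Real.circleAverage u a r))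
      (Ioo 0 s) := by
    refine Measure.integrableOn_of_bounded (M := s * (2 * Real.pi * B)) (by simp) ?_ ?_
    · exact (measurable_id.mul (hcm.const_mul _)).aestronglyMeasurable
    · refine (ae_restrict_iff' measurableSet_Ioo).2 (Eventually.of_forall fun r hr => ?_)
      rw [Real.norm_eq_abs, abs_mul, abs_mul, abs_of_pos hr.1, abs_of_pos Real.two_pi_pos]
      have := hbd r hr
      gcongr
      exact hr.2.le
  have hint2 : IntegrableOn (fun r : ℝ => r * (2 * Real.pi * u a)) (Ioo 0 s) :=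
    ((continuous_id.mul continuous_const).integrableOn_Icc).mono_set Ioo_subset_Icc_self
  have h3 : ∫ r in Ioo 0 s, r * (2 * Real.pi * u a) ≤
      ∫ r in Ioo 0 s, r * (2 * Real.pi * Real.circleAverage u a r) := by
    refine setIntegral_mono_on hint2 hint1 measurableSet_Ioo fun r hr => ?_
    have := h r hr.1 hr.2
    have hpi := Real.two_pi_pos
    have := mul_le_mul_of_nonneg_left this hpi.le
    exact mul_le_mul_of_nonneg_left this hr.1.le
  rw [int_r hs] at h3
  exact h3

lemma tlog_cont {k : ℂ → ℂ} {c : ℂ} {R δ : ℝ} (hδ : 0 < δ)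
    (hk : AnalyticOnNhd ℂ k (closedBall c R)) :
    ContinuousOn (fun w => Real.log (max ‖k w‖ δ)) (closedBall c R) := by
  apply ContinuousOn.log
  · exact hk.continuousOn.norm.sup continuousOn_const
  · intro w _
    exact (lt_max_of_lt_right hδ).ne'

/-- **area mean of the truncated logarithm** -/
theorem area_tlog {k : ℂ → ℂ} (hkm : Measurable k) {c : ℂ} {R δ : ℝ} (hR : 0 < R) (hδ : 0 < δ)
    (hk : AnalyticOnNhd ℂ k (closedBall c R)) :
    Real.pi * R ^ 2 * Real.log (max ‖k c‖ δ) ≤ ∫ z in ball c R, Real.log (max ‖k z‖ δ) := by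
  obtain ⟨B, hB⟩ := (isCompact_closedBall c R).exists_bound_of_continuousOn (tlog_cont hδ hk)
  refine area_of_circle (u := fun z => Real.log (max ‖k z‖ δ)) ?_ hR (B := B) ?_ ?_
  · exact Real.measurable_log.comp (hkm.norm.max measurable_const)
  · intro z hz
    exact hB z (ball_subset_closedBall hz)
  · intro r hr hrR
    exact tlog_le_avg hr hδ (hk.mono (closedBall_subset_closedBall hrR.le))

/-- **area mean of `|f|²`** -/
theorem area_sq {k : ℂ → ℂ} (hkm : Measurable k) {c : ℂ} {R : ℝ} (hR : 0 < R)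
    (hk : AnalyticOnNhd ℂ k (closedBall c R)) :
    Real.pi * R ^ 2 * ‖k c‖ ^ 2 ≤ ∫ z in ball c R, ‖k z‖ ^ 2 := by
  obtain ⟨B, hB⟩ := (isCompact_closedBall c R).exists_bound_of_continuousOn
    (hk.continuousOn.pow 2)
  have hi : IntegrableOn (fun z => k z ^ 2) (ball c R) := by
    refine Measure.integrableOn_of_bounded (M := B) measure_ball_lt_top.ne
      (hkm.pow_const 2).aestronglyMeasurable ?_
    exact (ae_restrict_iff' measurableSet_ball).2 (Eventually.of_forall fun z hz =>
      hB z (ball_subset_closedBall hz))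
  have h1 := Pool.Agent.Helper509.Polar.integral_ball (fun z => k z ^ 2) (hkm.pow_const 2) c R hi
  have h2 : ∫ r in Ioo 0 R, (r : ℝ) • ((2 * Real.pi) •
      Real.circleAverage (fun z => k z ^ 2) c r) =
      ((Real.pi * R ^ 2 : ℝ) : ℂ) * k c ^ 2 := by
    have h3 : ∀ r ∈ Ioo 0 R, (r : ℝ) • ((2 * Real.pi) •
        Real.circleAverage (fun z => k z ^ 2) c r) =
        ((r * (2 * Real.pi * 1) : ℝ) : ℂ) * k c ^ 2 := by
      intro r hr
      have hd : DiffContOnCl ℂ (fun z => k z ^ 2) (ball c |r|) := by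
        rw [abs_of_pos hr.1]
        refine DifferentiableOn.diffContOnCl fun z hz => ?_
        have hz' : z ∈ closedBall c R := by
          have h4 := closure_ball_subset_closedBall hz
          exact closedBall_subset_closedBall hr.2.le h4
        exact ((hk z hz').differentiableAt.pow 2).differentiableWithinAt
      rw [hd.circleAverage]
      simp only [Complex.real_smul]
      push_cast
      ring
    rw [setIntegral_congr_fun measurableSet_Ioo h3, integral_mul_const]
    congr 1
    rw [show Real.pi * R ^ 2 = ∫ r in Ioo 0 R, r * (2 * Real.pi * 1) by rw [int_r hR, mul_one]]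
    exact integral_ofReal
  rw [h2] at h1
  have h4 : ‖((Real.pi * R ^ 2 : ℝ) : ℂ) * k c ^ 2‖ ≤ ∫ z in ball c R, ‖k z ^ 2‖ := by
    rw [← h1]
    exact norm_integral_le_integral_norm _
  have hpi := Real.pi_pos
  rw [norm_mul, norm_pow, Complex.norm_real, Real.norm_of_nonneg (by positivity)] at h4
  simp only [norm_pow] at h4
  exact h4

/-- the area mean of `log |h|` for `h` without zeros -/
theorem area_log {k : ℂ → ℂ} (hkm : Measurable k) {c : ℂ} {R : ℝ} (hR : 0 < R)
    (hk : AnalyticOnNhd ℂ k (closedBall c R)) (h0 : ∀ z ∈ closedBall c R, k z ≠ 0) :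
    IntegrableOn (fun z => Real.log ‖k z‖) (ball c R) ∧
    ∫ z in ball c R, Real.log ‖k z‖ = Real.pi * R ^ 2 * Real.log ‖k c‖ := by
  have hc : ContinuousOn (fun z => Real.log ‖k z‖) (closedBall c R) :=
    hk.continuousOn.norm.log fun z hz => norm_ne_zero_iff.2 (h0 z hz)
  obtain ⟨B, hB⟩ := (isCompact_closedBall c R).exists_bound_of_continuousOn hc
  have hm : Measurable (fun z => Real.log ‖k z‖) := Real.measurable_log.comp hkm.norm
  have hi : IntegrableOn (fun z => Real.log ‖k z‖) (ball c R) := by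
    refine Measure.integrableOn_of_bounded (M := B) measure_ball_lt_top.ne
      hm.aestronglyMeasurable ?_
    exact (ae_restrict_iff' measurableSet_ball).2 (Eventually.of_forall fun z hz =>
      hB z (ball_subset_closedBall hz))
  refine ⟨hi, ?_⟩
  rw [integral_ball_real _ hm c R hi, ← int_r hR]
  refine setIntegral_congr_fun measurableSet_Ioo fun r hr => ?_
  have h1 : AnalyticOnNhd ℂ k (closedBall c |r|) := by
    rw [abs_of_pos hr.1]
    exact hk.mono (closedBall_subset_closedBall hr.2.le)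
  have h2 := h1.circleAverage_log_norm_of_ne_zero (fun u hu => h0 u (by
    rw [abs_of_pos hr.1] at hu
    exact closedBall_subset_closedBall hr.2.le hu))
  show r * (2 * Real.pi * Real.circleAverage (fun z => Real.log ‖k z‖) c r) = _
  rw [h2]

lemma log_half_sq {x : ℝ} (hx : 0 < x) : Real.log x ≤ x ^ 2 / 2 := by
  have h1 := Real.log_le_sub_one_of_pos hx
  nlinarith [sq_nonneg (x - 1)]

/-- **the derivative at an isolated simple zero from below** -/
theorem disc_low {F M : ℂ → ℂ} (hFm : Measurable F) (hMm : Measurable M) {ρ c : ℂ} {r R : ℝ}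
    (hr : 0 < r) (hsub : closedBall ρ r ⊆ ball c R)
    (hF : AnalyticOnNhd ℂ F (closedBall c R)) (hM : AnalyticOnNhd ℂ M (closedBall c R))
    (h0 : F ρ = 0) (h1 : deriv F ρ ≠ 0) (hne : ∀ z ∈ closedBall ρ r, z ≠ ρ → F z ≠ 0)
    {Θ A : ℝ} (hΘ : 0 < Θ) (hMΘ : ∫ z in ball ρ r, ‖M z‖ ^ 2 ≤ Real.pi * r ^ 2 * Θ)
    (hf : 1 / 2 ≤ ‖F c * M c‖) (hA : ∫ z in ball c R, ‖F z * M z‖ ^ 2 ≤ Real.pi * R ^ 2 * A) :
    -(Real.log r) - 1 / 2 * Real.log (2 * Θ) - (R / r) ^ 2 * (Real.log 2 + A / 2) ≤
      Real.log ‖deriv F ρ‖ := by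
  have hpi := Real.pi_pos
  have hρc : ρ ∈ ball c R := hsub (mem_closedBall_self hr.le)
  have hR : 0 < R := by
    have := dist_nonneg.trans_lt (mem_ball.1 hρc)
    exact this
  -- the quotient
  set h : ℂ → ℂ := dslope F ρ with hh
  have hsub' : closedBall ρ r ⊆ closedBall c R := hsub.trans ball_subset_closedBall
  have hFd : DifferentiableOn ℂ F (ball c R) := fun z hz =>
    (hF z (ball_subset_closedBall hz)).differentiableAt.differentiableWithinAt
  have hhd : DifferentiableOn ℂ h (ball c R) :=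
    (Complex.differentiableOn_dslope (isOpen_ball.mem_nhds hρc)).mpr hFd
  have hha : AnalyticOnNhd ℂ h (closedBall ρ r) := (hhd.analyticOnNhd isOpen_ball).mono hsub
  have hhρ : h ρ = deriv F ρ := dslope_same _ _
  have hfz : ∀ z, z ≠ ρ → F z = (z - ρ) * h z := by
    intro z hz
    rw [hh, dslope_of_ne _ hz, slope_def_field, h0, sub_zero]
    field_simp [sub_ne_zero.mpr hz]
  have hfz' : ∀ z, F z = (z - ρ) * h z := by
    intro z
    by_cases hz : z = ρ
    · rw [hz, h0, sub_self, zero_mul]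
    · exact hfz z hz
  have hhne : ∀ z ∈ closedBall ρ r, h z ≠ 0 := by
    intro z hz
    rcases eq_or_ne z ρ with h | h
    · rw [h, hhρ]; exact h1
    · intro h2
      exact hne z hz h (by rw [hfz z h, h2, mul_zero])
  have hhm : Measurable h := by
    have : h = fun z => if z = ρ then deriv F ρ else (z - ρ)⁻¹ * F z := by
      funext z
      by_cases hz : z = ρ
      · rw [if_pos hz, hz, hhρ]
      · rw [if_neg hz, hfz z hz]
        field_simp [sub_ne_zero.mpr hz]
    rw [this]
    exact Measurable.ite (measurableSet_eq) measurable_const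
      (((measurable_id.sub_const ρ).inv).mul hFm)
  obtain ⟨hli, hlog⟩ := area_log hhm hr hha hhne
  -- the minimum
  obtain ⟨z₀, hz₀, hmin⟩ := (isCompact_closedBall ρ r).exists_isMinOn
    ⟨ρ, mem_closedBall_self hr.le⟩ (hha.continuousOn.norm)
  set m := ‖h z₀‖ with hm
  have hm0 : 0 < m := norm_pos_iff.2 (hhne z₀ hz₀)
  have hmin' : ∀ z ∈ closedBall ρ r, m ≤ ‖h z‖ := fun z hz => hmin hz
  set δ' := r * Real.sqrt Θ with hδ'
  have hδ'0 : 0 < δ' := by positivity
  set δ := min 1 (m * δ') with hδ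
  have hδ0 : 0 < δ := lt_min one_pos (by positivity)
  have hδ1 : δ ≤ 1 := min_le_left _ _
  have hδm : δ ≤ m * δ' := min_le_right _ _
  -- the area inequality
  have hFM : AnalyticOnNhd ℂ (fun z => F z * M z) (closedBall c R) := hF.mul hM
  have hFMm : Measurable (fun z => F z * M z) := hFm.mul hMm
  have hmain := area_tlog hFMm hR hδ0 hFM
  have hleft : -(Real.pi * R ^ 2 * Real.log 2) ≤
      Real.pi * R ^ 2 * Real.log (max ‖F c * M c‖ δ) := by
    have h2 : Real.log (1 / 2) ≤ Real.log (max ‖F c * M c‖ δ) :=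
      Real.log_le_log (by norm_num) (hf.trans (le_max_left _ _))
    rw [one_div, Real.log_inv] at h2
    have h3 : 0 ≤ Real.pi * R ^ 2 := by positivity
    nlinarith
  -- splitting
  have hB := (isCompact_closedBall c R).exists_bound_of_continuousOn (tlog_cont hδ0 hFM)
  obtain ⟨B, hB⟩ := hB
  have hum : Measurable (fun z => Real.log (max ‖F z * M z‖ δ)) :=
    Real.measurable_log.comp (hFMm.norm.max measurable_const)
  have hui : IntegrableOn (fun z => Real.log (max ‖F z * M z‖ δ)) (ball c R) := by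
    refine Measure.integrableOn_of_bounded (M := B) measure_ball_lt_top.ne
      hum.aestronglyMeasurable ?_
    exact (ae_restrict_iff' measurableSet_ball).2 (Eventually.of_forall fun z hz =>
      hB z (ball_subset_closedBall hz))
  obtain ⟨B2, hB2⟩ := (isCompact_closedBall c R).exists_bound_of_continuousOn
    (hFM.continuousOn.norm.pow 2)
  have hqi : IntegrableOn (fun z => ‖F z * M z‖ ^ 2) (ball c R) := by
    refine Measure.integrableOn_of_bounded (M := B2) measure_ball_lt_top.ne
      (hFMm.norm.pow_const 2).aestronglyMeasurable ?_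
    exact (ae_restrict_iff' measurableSet_ball).2 (Eventually.of_forall fun z hz =>
      hB2 z (ball_subset_closedBall hz))
  have hbb : ball ρ r ⊆ ball c R := ball_subset_closedBall.trans hsub
  have hsplit : ∫ z in ball c R, Real.log (max ‖F z * M z‖ δ) =
      (∫ z in ball ρ r, Real.log (max ‖F z * M z‖ δ)) +
      ∫ z in ball c R \ ball ρ r, Real.log (max ‖F z * M z‖ δ) := by
    rw [← setIntegral_union disjoint_sdiff_right (measurableSet_ball.diff measurableSet_ball)
      (hui.mono_set hbb) (hui.mono_set sdiff_subset), union_sdiff_cancel hbb]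
  have hpt : ∀ z, Real.log (max ‖F z * M z‖ δ) ≤ ‖F z * M z‖ ^ 2 / 2 := by
    intro z
    rcases le_total ‖F z * M z‖ δ with h2 | h2
    · rw [max_eq_right h2]
      have h3 := Real.log_nonpos hδ0.le hδ1
      have h4 : 0 ≤ ‖F z * M z‖ ^ 2 / 2 := by positivity
      linarith
    · rw [max_eq_left h2]
      exact log_half_sq (lt_of_lt_of_le hδ0 h2)
  have hout : ∫ z in ball c R \ ball ρ r, Real.log (max ‖F z * M z‖ δ) ≤
      Real.pi * R ^ 2 * (A / 2) := by
    calc ∫ z in ball c R \ ball ρ r, Real.log (max ‖F z * M z‖ δ) ≤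
        ∫ z in ball c R \ ball ρ r, ‖F z * M z‖ ^ 2 / 2 :=
          setIntegral_mono (hui.mono_set sdiff_subset) ((hqi.mono_set sdiff_subset).div_const 2) hpt
      _ ≤ ∫ z in ball c R, ‖F z * M z‖ ^ 2 / 2 :=
          setIntegral_mono_set (hqi.div_const 2) (Eventually.of_forall fun z => by
            show (0 : ℝ) ≤ ‖F z * M z‖ ^ 2 / 2
            positivity) sdiff_subset.eventuallyLE
      _ = (∫ z in ball c R, ‖F z * M z‖ ^ 2) / 2 := integral_div _ _
      _ ≤ (Real.pi * R ^ 2 * A) / 2 := by linarith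
      _ = _ := by ring
  -- inside
  have hin : ∀ z ∈ ball ρ r, Real.log (max ‖F z * M z‖ δ) ≤ Real.log ‖h z‖ +
      (1 / 2 * Real.log (2 * (r ^ 2 * Θ)) +
        ((r ^ 2 * ‖M z‖ ^ 2 + r ^ 2 * Θ) / (2 * (r ^ 2 * Θ)) - 1) / 2) := by
    intro z hz
    have hz' := ball_subset_closedBall hz
    have hhz := hmin' z hz'
    have hhz0 : 0 < ‖h z‖ := lt_of_lt_of_le hm0 hhz
    have hzr : ‖z - ρ‖ ≤ r := by
      rw [← dist_eq_norm]; exact (mem_ball.1 hz).le
    have hX0 : 0 < max (r * ‖M z‖) δ' := lt_max_of_lt_right hδ'0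
    have h2 : max ‖F z * M z‖ δ ≤ ‖h z‖ * max (r * ‖M z‖) δ' := by
      apply max_le
      · rw [norm_mul, hfz' z, norm_mul]
        calc ‖z - ρ‖ * ‖h z‖ * ‖M z‖ = ‖h z‖ * (‖z - ρ‖ * ‖M z‖) := by ring
          _ ≤ ‖h z‖ * (r * ‖M z‖) := by gcongr
          _ ≤ _ := by gcongr; exact le_max_left _ _
      · refine hδm.trans ?_
        exact mul_le_mul hhz (le_max_right _ _) hδ'0.le hhz0.le
    have h3 := Real.log_le_log (lt_max_of_lt_right hδ0) h2
    rw [Real.log_mul hhz0.ne' hX0.ne'] at h3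
    have h4 : Real.log (max (r * ‖M z‖) δ') ≤ 1 / 2 * Real.log (2 * (r ^ 2 * Θ)) +
        ((r ^ 2 * ‖M z‖ ^ 2 + r ^ 2 * Θ) / (2 * (r ^ 2 * Θ)) - 1) / 2 := by
      have ha : 0 < 2 * (r ^ 2 * Θ) := by positivity
      have h5 : Real.log (max (r * ‖M z‖) δ') = 1 / 2 * Real.log (max (r * ‖M z‖) δ' ^ 2) := by
        rw [Real.log_pow]; push_cast; ring
      have h6 : max (r * ‖M z‖) δ' ^ 2 ≤ r ^ 2 * ‖M z‖ ^ 2 + r ^ 2 * Θ := by
        have e1 : δ' ^ 2 = r ^ 2 * Θ := by rw [hδ', mul_pow, Real.sq_sqrt hΘ.le]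
        rcases max_choice (r * ‖M z‖) δ' with h7 | h7 <;> rw [h7]
        · rw [mul_pow]
          have : 0 ≤ r ^ 2 * Θ := by positivity
          linarith
        · rw [e1]
          have : 0 ≤ r ^ 2 * ‖M z‖ ^ 2 := by positivity
          linarith
      have hb : 0 < r ^ 2 * ‖M z‖ ^ 2 + r ^ 2 * Θ := by positivity
      have h7 : Real.log (max (r * ‖M z‖) δ' ^ 2) ≤
          Real.log (r ^ 2 * ‖M z‖ ^ 2 + r ^ 2 * Θ) := Real.log_le_log (by positivity) h6
      have h8 : Real.log (r ^ 2 * ‖M z‖ ^ 2 + r ^ 2 * Θ) ≤ Real.log (2 * (r ^ 2 * Θ)) +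
          ((r ^ 2 * ‖M z‖ ^ 2 + r ^ 2 * Θ) / (2 * (r ^ 2 * Θ)) - 1) := by
        have h9 := Real.log_le_sub_one_of_pos (div_pos hb ha)
        rw [Real.log_div hb.ne' ha.ne'] at h9
        linarith
      rw [h5]
      linarith
    linarith
  obtain ⟨B3, hB3⟩ := (isCompact_closedBall c R).exists_bound_of_continuousOn
    (hM.continuousOn.norm.pow 2)
  have hMi : IntegrableOn (fun z => ‖M z‖ ^ 2) (ball ρ r) := by
    refine Measure.integrableOn_of_bounded (M := B3) measure_ball_lt_top.ne
      (hMm.norm.pow_const 2).aestronglyMeasurable ?_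
    exact (ae_restrict_iff' measurableSet_ball).2 (Eventually.of_forall fun z hz =>
      hB3 z (ball_subset_closedBall (hbb hz)))
  have hvol := ball_vol ρ hr
  have hci : ∀ a : ℝ, IntegrableOn (fun _ : ℂ => a) (ball ρ r) := fun a =>
    integrableOn_const measure_ball_lt_top.ne
  have hcI : ∀ a : ℝ, ∫ _ in ball ρ r, a = Real.pi * r ^ 2 * a := by
    intro a
    rw [setIntegral_const, smul_eq_mul, measureReal_def, hvol]
  have hins : ∫ z in ball ρ r, Real.log (max ‖F z * M z‖ δ) ≤
      Real.pi * r ^ 2 * Real.log ‖h ρ‖ + Real.pi * r ^ 2 * (1 / 2 * Real.log (2 * (r ^ 2 * Θ))) := by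
    have e1 : ∀ z, (1 / 2 * Real.log (2 * (r ^ 2 * Θ)) +
        ((r ^ 2 * ‖M z‖ ^ 2 + r ^ 2 * Θ) / (2 * (r ^ 2 * Θ)) - 1) / 2) =
        (1 / 2 * Real.log (2 * (r ^ 2 * Θ)) - 1 / 4) + (1 / (4 * Θ)) * ‖M z‖ ^ 2 := by
      intro z
      field_simp
      ring
    have i2 : IntegrableOn (fun z => (1 / 2 * Real.log (2 * (r ^ 2 * Θ)) - 1 / 4) +
        (1 / (4 * Θ)) * ‖M z‖ ^ 2) (ball ρ r) := (hci _).add (hMi.const_mul _)
    have i3 : IntegrableOn (fun z => (1 / (4 * Θ)) * ‖M z‖ ^ 2) (ball ρ r) := hMi.const_mul _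
    have h2 : ∫ z in ball ρ r, Real.log (max ‖F z * M z‖ δ) ≤
        ∫ z in ball ρ r, (Real.log ‖h z‖ + ((1 / 2 * Real.log (2 * (r ^ 2 * Θ)) - 1 / 4) +
          (1 / (4 * Θ)) * ‖M z‖ ^ 2)) := by
      refine setIntegral_mono_on (hui.mono_set hbb) (hli.add i2) measurableSet_ball fun z hz => ?_
      rw [← e1 z]
      exact hin z hz
    rw [integral_add hli i2, integral_add (hci _) i3, hcI, hlog, integral_const_mul] at h2
    have h3 : 1 / (4 * Θ) * ∫ z in ball ρ r, ‖M z‖ ^ 2 ≤ Real.pi * r ^ 2 * (1 / 4) := by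
      calc 1 / (4 * Θ) * ∫ z in ball ρ r, ‖M z‖ ^ 2 ≤ 1 / (4 * Θ) * (Real.pi * r ^ 2 * Θ) :=
            mul_le_mul_of_nonneg_left hMΘ (by positivity)
        _ = _ := by field_simp
    linarith
  have hlog2 : Real.log (2 * (r ^ 2 * Θ)) = 2 * Real.log r + Real.log (2 * Θ) := by
    rw [show 2 * (r ^ 2 * Θ) = r ^ 2 * (2 * Θ) by ring, Real.log_mul (by positivity) (by positivity),
      Real.log_pow]
    push_cast
    ring
  rw [hsplit] at hmain
  have hfin : -(Real.pi * R ^ 2 * (Real.log 2 + A / 2)) ≤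
      Real.pi * r ^ 2 * (Real.log ‖h ρ‖ + (Real.log r + 1 / 2 * Real.log (2 * Θ))) := by
    rw [hlog2] at hins
    linarith
  have hr2 : 0 < Real.pi * r ^ 2 := by positivity
  have h9 : (R / r) ^ 2 * (Real.log 2 + A / 2) =
      (Real.pi * R ^ 2 * (Real.log 2 + A / 2)) / (Real.pi * r ^ 2) := by
    field_simp
  rw [h9, ← hhρ]
  have h10 : -((Real.pi * R ^ 2 * (Real.log 2 + A / 2)) / (Real.pi * r ^ 2)) ≤
      Real.log ‖h ρ‖ + (Real.log r + 1 / 2 * Real.log (2 * Θ)) := by
    rw [← neg_div, div_le_iff₀ hr2]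
    linarith
  linarith

end Run7.h311.EX
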